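import Mathlib

set_option autoImplicit false
set_option linter.unusedSectionVars false
set_option linter.unusedSimpArgs false
set_option linter.deprecated false

/-! Rank functions on `Finset α` and the two Boolean identities behind
MP_dc96bc_co. -/

namespace Pool.Agent.Helper46.FF

open Finset

variable {α : Type} [Fintype α] [DecidableEq α]

/-- The rank axioms of a matroid on the full type `α`. -/
structure RankFn (r : Finset α → ℕ) : Prop where
  empty : r ∅ = 0
  le_insert : ∀ (X : Finset α) (e : α), r X ≤ r (insert e X)
  insert_le : ∀ (X : Finset α) (e : α), r (insert e X) ≤ r X + 1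
  submod : ∀ X Y : Finset α, r (X ∩ Y) + r (X ∪ Y) ≤ r X + r Y

theorem RankFn.mono {r : Finset α → ℕ} (h : RankFn r) {X Y : Finset α} (hXY : X ⊆ Y) :
    r X ≤ r Y := by
  classical
  induction Y using Finset.induction_on generalizing X with
  | empty =>
    have : X = ∅ := Finset.subset_empty.mp hXY
    rw [this]
  | insert a s ha ih =>
    by_cases haX : a ∈ X
    · have h1 : X = insert a (X.erase a) := (Finset.insert_erase haX).symm
      have h2 : X.erase a ⊆ s := by
        intro x hx
        have := hXY (Finset.mem_of_mem_erase hx)
        rcases Finset.mem_insert.mp this with h | h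
        · exact absurd h (Finset.ne_of_mem_erase hx)
        · exact h
      have h4 := h.submod X s
      have h5 : X ∪ s = insert a s := by
        ext x; simp only [mem_union, mem_insert]
        constructor
        · rintro (hx | hx)
          · exact Finset.mem_insert.mp (hXY hx)
          · exact Or.inr hx
        · rintro (hx | hx)
          · left; rw [hx]; exact haX
          · right; exact hx
      have h6 := ih h2
      have h7 := h.le_insert
      have h8 : X ∩ s = X.erase a := by
        ext x; simp only [mem_inter, mem_erase]
        constructor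
        · rintro ⟨hx, hs⟩
          exact ⟨fun hh => ha (hh ▸ hs), hx⟩
        · rintro ⟨hne, hx⟩
          exact ⟨hx, h2 (by simp [hne, hx])⟩
      -- use monotonicity under insertion along s \ X
      have key : ∀ T : Finset α, r X ≤ r (X ∪ T) := by
        intro T
        induction T using Finset.induction_on with
        | empty => simp
        | insert b t hb iht =>
          have : X ∪ insert b t = insert b (X ∪ t) := by
            ext x; simp only [mem_union, mem_insert]; tauto
          rw [this]
          exact iht.trans (h7 _ _)
      have := key s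
      rwa [h5] at this
    · have h2 : X ⊆ s := by
        intro x hx
        rcases Finset.mem_insert.mp (hXY hx) with h | h
        · exact absurd (h ▸ hx) haX
        · exact h
      exact (ih h2).trans (h.le_insert _ _)

theorem RankFn.le_card {r : Finset α → ℕ} (h : RankFn r) (X : Finset α) : r X ≤ X.card := by
  induction X using Finset.induction_on with
  | empty => simp [h.empty]
  | insert a s ha ih =>
    rw [card_insert_of_notMem ha]
    exact (h.insert_le s a).trans (by omega)

/-- If `e` does not increase the rank of `X`, it does not increase the rank of any superset. -/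
theorem RankFn.insert_eq_of_subset {r : Finset α → ℕ} (h : RankFn r) {X Y : Finset α}
    (hXY : X ⊆ Y) {e : α} (he : r (insert e X) = r X) : r (insert e Y) = r Y := by
  have h1 := h.submod (insert e X) Y
  have h2 : insert e X ∪ Y = insert e Y := by
    ext x; simp only [mem_union, mem_insert]
    constructor
    · rintro ((hx | hx) | hx)
      · exact Or.inl hx
      · exact Or.inr (hXY hx)
      · exact Or.inr hx
    · rintro (hx | hx)
      · exact Or.inl (Or.inl hx)
      · exact Or.inr hx
  have h3 : X ⊆ insert e X ∩ Y := by
    intro x hx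
    exact Finset.mem_inter.mpr ⟨Finset.mem_insert_of_mem hx, hXY hx⟩
  have h4 := h.mono h3
  rw [h2] at h1
  have h5 := h.le_insert Y e
  omega

/-- Alternating sum over a Boolean interval. -/
theorem sum_Icc_neg_one_pow (F Y : Finset α) (hFY : F ⊆ Y) :
    ∑ G ∈ Icc F Y, (-1 : ℤ) ^ (G.card + F.card) = if F = Y then 1 else 0 := by
  classical
  have h1 : Icc F Y = (Y \ F).powerset.image (fun S => F ∪ S) := by
    ext G
    simp only [mem_Icc, Finset.le_eq_subset, mem_image, mem_powerset]
    constructor
    · rintro ⟨h1, h2⟩
      refine ⟨G \ F, Finset.sdiff_subset_sdiff h2 (le_refl _), ?_⟩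
      exact Finset.union_sdiff_of_subset h1
    · rintro ⟨S, hS, rfl⟩
      refine ⟨Finset.subset_union_left, ?_⟩
      intro x hx
      rcases Finset.mem_union.mp hx with h | h
      · exact hFY h
      · exact (Finset.mem_sdiff.mp (hS h)).1
  rw [h1, Finset.sum_image]
  · have h2 : ∀ S ∈ (Y \ F).powerset, (-1 : ℤ) ^ ((F ∪ S).card + F.card) = (-1 : ℤ) ^ S.card := by
      intro S hS
      have hdis : Disjoint F S := by
        rw [Finset.disjoint_left]
        intro x hx hxS
        exact (Finset.mem_sdiff.mp ((Finset.mem_powerset.mp hS) hxS)).2 hx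
      rw [Finset.card_union_of_disjoint hdis]
      have : F.card + S.card + F.card = S.card + 2 * F.card := by ring
      rw [this, pow_add, pow_mul]; simp
    rw [Finset.sum_congr rfl h2, Finset.sum_powerset_neg_one_pow_card]
    by_cases hF : F = Y
    · subst hF; simp
    · rw [if_neg hF, if_neg]
      intro h
      apply hF
      exact Finset.Subset.antisymm hFY (Finset.sdiff_eq_empty_iff_subset.mp h)
  · intro S hS T hT hST
    have hS' := Finset.mem_powerset.mp (Finset.mem_coe.mp hS)
    have hT' := Finset.mem_powerset.mp (Finset.mem_coe.mp hT)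
    have e1 : (F ∪ S) \ F = S := by
      ext x
      simp only [mem_sdiff, mem_union]
      constructor
      · rintro ⟨h1 | h1, h2⟩
        · exact absurd h1 h2
        · exact h1
      · intro h1
        exact ⟨Or.inr h1, (Finset.mem_sdiff.mp (hS' h1)).2⟩
    have e2 : (F ∪ T) \ F = T := by
      ext x
      simp only [mem_sdiff, mem_union]
      constructor
      · rintro ⟨h1 | h1, h2⟩
        · exact absurd h1 h2
        · exact h1
      · intro h1
        exact ⟨Or.inr h1, (Finset.mem_sdiff.mp (hT' h1)).2⟩
    rw [← e1, ← e2]
    simp only at hST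
    rw [hST]

/-- `K f G = ∑_{Y ⊇ G} (-1)^{|Y|+|G|} f Y`. -/
def K (f : Finset α → ℤ) (G : Finset α) : ℤ :=
  ∑ Y ∈ Icc G univ, (-1 : ℤ) ^ (Y.card + G.card) * f Y

/-- Boolean Moebius inversion. -/
theorem sum_K (f : Finset α → ℤ) (F : Finset α) : ∑ G ∈ Icc F univ, K f G = f F := by
  classical
  unfold K
  have h1 : ∑ G ∈ Icc F univ, ∑ Y ∈ Icc G univ, (-1 : ℤ) ^ (Y.card + G.card) * f Y
      = ∑ Y ∈ Icc F univ, ∑ G ∈ Icc F Y, (-1 : ℤ) ^ (Y.card + G.card) * f Y := by
    apply Finset.sum_comm'
    intro G Y
    simp only [mem_Icc, Finset.le_eq_subset, Finset.subset_univ, and_true]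
    constructor
    · rintro ⟨h1, h2⟩; exact ⟨⟨h1, h2⟩, h1.trans h2⟩
    · rintro ⟨⟨h1, h2⟩, _⟩; exact ⟨h1, h2⟩
  rw [h1]
  have h2 : ∀ Y ∈ Icc F univ, ∑ G ∈ Icc F Y, (-1 : ℤ) ^ (Y.card + G.card) * f Y
      = if F = Y then f F else 0 := by
    intro Y hY
    have hFY : F ⊆ Y := (Finset.mem_Icc.mp hY).1
    have h3 : ∀ G ∈ Icc F Y, (-1 : ℤ) ^ (Y.card + G.card) * f Y
        = ((-1 : ℤ) ^ (G.card + F.card)) * ((-1 : ℤ) ^ (Y.card + F.card) * f Y) := by
      intro G _
      have : (-1 : ℤ) ^ (Y.card + G.card) = (-1 : ℤ) ^ (G.card + F.card) * (-1 : ℤ) ^ (Y.card + F.card) := by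
        have h4 : (-1 : ℤ) ^ (G.card + F.card) * (-1 : ℤ) ^ (Y.card + F.card)
            = (-1 : ℤ) ^ (Y.card + G.card) * ((-1 : ℤ) ^ F.card * (-1 : ℤ) ^ F.card) := by
          simp only [pow_add]; ring
        rw [h4, ← pow_add, ← two_mul, pow_mul]; simp
      rw [this]; ring
    rw [Finset.sum_congr rfl h3, ← Finset.sum_mul, sum_Icc_neg_one_pow F Y hFY]
    by_cases h : F = Y
    · subst h
      simp only [if_true, one_mul]
      rw [← two_mul, pow_mul]; simp
    · simp [h]
  rw [Finset.sum_congr rfl h2, Finset.sum_ite_eq]
  simp

/-- `c r S T = ∑_{S ⊆ X ⊆ T} (-1)^{|X|+|S|} r X`. -/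
def c (r : Finset α → ℕ) (S T : Finset α) : ℤ :=
  ∑ X ∈ Icc S T, (-1 : ℤ) ^ (X.card + S.card) * (r X : ℤ)

/-- Splitting a Boolean interval at an element. -/
theorem sum_Icc_split (g : Finset α → ℤ) {S T : Finset α} {e : α} (heT : e ∈ T) (heS : e ∉ S) :
    ∑ X ∈ Icc S T, g X = ∑ X ∈ Icc S (T.erase e), (g X + g (insert e X)) := by
  classical
  rw [Finset.sum_add_distrib]
  have h1 : ∑ X ∈ Icc S (T.erase e), g (insert e X) = ∑ X ∈ (Icc S T).filter (fun X => e ∈ X), g X := by
    refine Finset.sum_bij (fun X _ => insert e X) ?_ ?_ ?_ ?_
    · intro X hX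
      rw [Finset.mem_Icc] at hX
      rw [Finset.mem_filter, Finset.mem_Icc]
      refine ⟨⟨hX.1.trans (Finset.subset_insert _ _), ?_⟩, Finset.mem_insert_self _ _⟩
      intro x hx
      rcases Finset.mem_insert.mp hx with h | h
      · rw [h]; exact heT
      · exact Finset.mem_of_mem_erase (hX.2 h)
    · intro X hX Y hY hXY
      rw [Finset.mem_Icc] at hX hY
      have hX' : e ∉ X := fun h => (Finset.notMem_erase e T) (hX.2 h)
      have hY' : e ∉ Y := fun h => (Finset.notMem_erase e T) (hY.2 h)
      rw [← Finset.erase_insert hX', ← Finset.erase_insert hY', hXY]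
    · intro Y hY
      rw [Finset.mem_filter, Finset.mem_Icc] at hY
      refine ⟨Y.erase e, ?_, Finset.insert_erase hY.2⟩
      rw [Finset.mem_Icc]
      refine ⟨?_, Finset.erase_subset_erase _ hY.1.2⟩
      intro x hx
      exact Finset.mem_erase.mpr ⟨fun h => heS (h ▸ hx), hY.1.1 hx⟩
    · intro X _; rfl
  have h2 : Icc S (T.erase e) = (Icc S T).filter (fun X => ¬ e ∈ X) := by
    ext X
    rw [Finset.mem_filter, Finset.mem_Icc, Finset.mem_Icc]
    constructor
    · rintro ⟨h1, h2⟩
      exact ⟨⟨h1, h2.trans (Finset.erase_subset _ _)⟩, fun h => (Finset.notMem_erase e T) (h2 h)⟩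
    · rintro ⟨⟨h1, h2⟩, h3⟩
      refine ⟨h1, ?_⟩
      intro x hx
      exact Finset.mem_erase.mpr ⟨fun h => h3 (h ▸ hx), h2 hx⟩
  rw [h1, h2, add_comm, Finset.sum_filter_add_sum_filter_not]

/-- Nonnegativity of the beta invariant of every minor. -/
theorem beta_nonneg {r : Finset α → ℕ} (h : RankFn r) :
    ∀ (m : ℕ) (S T : Finset α), S ⊆ T → S ≠ T → (T \ S).card = m →
      0 ≤ (-1 : ℤ) ^ (r T + r S) * c r S T := by
  intro m
  induction m with
  | zero =>
    intro S T hST hne hcard
    exfalso
    apply hne
    exact Finset.Subset.antisymm hST (Finset.sdiff_eq_empty_iff_subset.mp (Finset.card_eq_zero.mp hcard))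
  | succ m ih =>
    intro S T hST hne hcard
    obtain ⟨e, he⟩ : (T \ S).Nonempty := by
      rw [← Finset.card_pos, hcard]; omega
    have heT : e ∈ T := (Finset.mem_sdiff.mp he).1
    have heS : e ∉ S := (Finset.mem_sdiff.mp he).2
    have hsplit : c r S T = ∑ X ∈ Icc S (T.erase e),
        ((-1 : ℤ) ^ (X.card + S.card) * (r X : ℤ)
          + (-1 : ℤ) ^ ((insert e X).card + S.card) * (r (insert e X) : ℤ)) := by
      unfold c
      exact sum_Icc_split (fun X => (-1 : ℤ) ^ (X.card + S.card) * (r X : ℤ)) heT heS
    have hcardX : ∀ X ∈ Icc S (T.erase e), (insert e X).card = X.card + 1 := by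
      intro X hX
      apply Finset.card_insert_of_notMem
      intro h'
      exact (Finset.notMem_erase e T) ((Finset.mem_Icc.mp hX).2 h')
    have hsplit2 : c r S T = ∑ X ∈ Icc S (T.erase e),
        (-1 : ℤ) ^ (X.card + S.card) * ((r X : ℤ) - (r (insert e X) : ℤ)) := by
      rw [hsplit]
      apply Finset.sum_congr rfl
      intro X hX
      rw [hcardX X hX]
      ring
    by_cases hloop : r (insert e S) = r S
    · -- loop: the sum vanishes
      have : c r S T = 0 := by
        rw [hsplit2]
        apply Finset.sum_eq_zero
        intro X hX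
        rw [h.insert_eq_of_subset (Finset.mem_Icc.mp hX).1 hloop]
        ring
      rw [this]; simp
    · by_cases hcoloop : r (T.erase e) = r T
      · -- neither loop nor coloop
        have hSe : S ⊆ T.erase e := by
          intro x hx
          exact Finset.mem_erase.mpr ⟨fun hh => heS (hh ▸ hx), hST hx⟩
        have hdc : c r S T = c r S (T.erase e) - c r (insert e S) T := by
          unfold c
          rw [sum_Icc_split (fun X => (-1 : ℤ) ^ (X.card + S.card) * (r X : ℤ)) heT heS,
            Finset.sum_add_distrib, sub_eq_add_neg]
          congr 1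
          have h1 : ∑ X ∈ Icc S (T.erase e),
              (-1 : ℤ) ^ ((insert e X).card + S.card) * (r (insert e X) : ℤ)
              = ∑ Y ∈ Icc (insert e S) T, (-1 : ℤ) ^ (Y.card + S.card) * (r Y : ℤ) := by
            refine Finset.sum_bij (fun X _ => insert e X) ?_ ?_ ?_ ?_
            · intro X hX
              rw [Finset.mem_Icc] at hX ⊢
              refine ⟨Finset.insert_subset_insert _ hX.1, ?_⟩
              intro x hx
              rcases Finset.mem_insert.mp hx with h | h
              · rw [h]; exact heT
              · exact Finset.mem_of_mem_erase (hX.2 h)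
            · intro X hX Y hY hXY
              rw [Finset.mem_Icc] at hX hY
              have hX' : e ∉ X := fun h => (Finset.notMem_erase e T) (hX.2 h)
              have hY' : e ∉ Y := fun h => (Finset.notMem_erase e T) (hY.2 h)
              rw [← Finset.erase_insert hX', ← Finset.erase_insert hY', hXY]
            · intro Y hY
              rw [Finset.mem_Icc] at hY
              have heY : e ∈ Y := hY.1 (Finset.mem_insert_self _ _)
              refine ⟨Y.erase e, ?_, Finset.insert_erase heY⟩
              rw [Finset.mem_Icc]
              refine ⟨?_, Finset.erase_subset_erase _ hY.2⟩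
              intro x hx
              exact Finset.mem_erase.mpr ⟨fun h => heS (h ▸ hx), hY.1 (Finset.mem_insert_of_mem hx)⟩
            · intro X _; rfl
          rw [h1, ← Finset.sum_neg_distrib]
          apply Finset.sum_congr rfl
          intro Y _
          rw [Finset.card_insert_of_notMem heS]
          ring
        have hr1 : r (insert e S) = r S + 1 := by
          have := h.le_insert S e
          have := h.insert_le S e
          omega
        by_cases hSeq : S = T.erase e
        · -- then T = insert e S, a coloop; contradiction with hcoloop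
          exfalso
          have : insert e S = T := by rw [hSeq]; exact Finset.insert_erase heT
          rw [← hSeq, ← this] at hcoloop
          omega
        · have hc1 : (T.erase e \ S).card = m := by
            have : T.erase e \ S = (T \ S).erase e := by
              ext x; simp only [mem_sdiff, mem_erase]; tauto
            rw [this, Finset.card_erase_of_mem he, hcard]; rfl
          have i1 := ih S (T.erase e) hSe hSeq hc1
          rw [hcoloop] at i1
          have hSinsT : insert e S ⊆ T := by
            intro x hx
            rcases Finset.mem_insert.mp hx with h | h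
            · rw [h]; exact heT
            · exact hST h
          have i2 : 0 ≤ (-1 : ℤ) ^ (r T + r (insert e S)) * c r (insert e S) T := by
            by_cases hne2 : insert e S = T
            · exfalso
              apply hSeq
              rw [← hne2, Finset.erase_insert heS]
            · apply ih (insert e S) T hSinsT hne2
              have : T \ insert e S = (T \ S).erase e := by
                ext x; simp only [mem_sdiff, mem_erase, mem_insert]; tauto
              rw [this, Finset.card_erase_of_mem he, hcard]; rfl
          rw [hr1] at i2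
          rw [hdc]
          have : (-1 : ℤ) ^ (r T + (r S + 1)) = - (-1 : ℤ) ^ (r T + r S) := by
            rw [← add_assoc, pow_succ]; ring
          rw [this] at i2
          linarith
      · -- coloop
        have hrT : r T = r (T.erase e) + 1 := by
          have h1 := h.insert_le (T.erase e) e
          have h2 := h.le_insert (T.erase e) e
          rw [Finset.insert_erase heT] at h1 h2
          omega
        have hco : ∀ X ∈ Icc S (T.erase e), (r X : ℤ) - (r (insert e X) : ℤ) = -1 := by
          intro X hX
          have h3 : r (insert e X) ≠ r X := by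
            intro heq
            have := h.insert_eq_of_subset (Finset.mem_Icc.mp hX).2 heq
            rw [Finset.insert_erase heT] at this
            omega
          have h4 := h.le_insert X e
          have h5 := h.insert_le X e
          have : r (insert e X) = r X + 1 := by omega
          rw [this]; push_cast; ring
        have hSe : S ⊆ T.erase e := by
          intro x hx
          exact Finset.mem_erase.mpr ⟨fun hh => heS (hh ▸ hx), hST hx⟩
        have hc : c r S T = - (if S = T.erase e then 1 else 0) := by
          rw [hsplit2, Finset.sum_congr rfl (fun X hX => by rw [hco X hX]), ← Finset.sum_mul,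
            sum_Icc_neg_one_pow S (T.erase e) hSe]
          ring
        rw [hc]
        by_cases hSeq : S = T.erase e
        · rw [if_pos hSeq]
          have : r T = r S + 1 := by rw [hSeq]; exact hrT
          rw [this]
          have : r S + 1 + r S = 2 * r S + 1 := by ring
          rw [this, pow_succ, pow_mul]; simp
        · rw [if_neg hSeq]; simp

end Pool.Agent.Helper46.FF
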