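import Pool.Agent.Helper46.FF.Final

set_option autoImplicit false
set_option linter.unusedSectionVars false
set_option linter.unusedSimpArgs false
set_option linter.deprecated false

namespace Pool.Agent.Helper46.FF

open Finset

variable {α : Type} [Fintype α] [DecidableEq α] {M : Matroid α} {r : Finset α → ℕ}

/-- The hypothesis that counts of functionals over the two element field are given by the
rank function. -/
structure BinCount (r : Finset α → ℕ) (D : Type) [AddCommGroup D] [Fintype D]
    (ev : D → α → ZMod 2) : Prop where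
  add : ∀ (φ ψ : D) (a : α), ev (φ + ψ) a = ev φ a + ev ψ a
  zero : ∀ a : α, ev 0 a = 0
  ne : ∀ φ : D, (∀ a, ev φ a = 0) → φ = 0
  two : ∀ φ : D, φ + φ = 0
  count : ∀ Y : Finset α, (Nat.card {φ : D // ∀ y ∈ Y, ev φ y = 0} : ℤ) = 2 ^ (r univ - r Y)

section

variable {D : Type} [AddCommGroup D] [Fintype D] {ev : D → α → ZMod 2}

open Classical in
/-- Zero set. -/
noncomputable def zs (ev : D → α → ZMod 2) (φ : D) : Finset α := univ.filter (fun a => ev φ a = 0)

theorem mem_zs {φ : D} {a : α} : a ∈ zs ev φ ↔ ev φ a = 0 := by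
  simp [zs]

open Classical in
theorem BinCount.card_filter (b : BinCount r D ev) (Y : Finset α) :
    (((univ : Finset D).filter (fun φ => Y ⊆ zs ev φ)).card : ℤ) = 2 ^ (r univ - r Y) := by
  rw [← b.count Y, Nat.card_eq_fintype_card, Fintype.card_subtype]
  congr 2
  ext φ
  simp only [mem_filter, mem_univ, true_and]
  constructor
  · intro h y hy; exact mem_zs.mp (h hy)
  · intro h y hy; exact mem_zs.mpr (h y hy)

open Classical in
theorem BinCount.k_eq (b : BinCount r D ev) (F : Finset α) :
    k r F = (((univ : Finset D).filter (fun φ => zs ev φ = F)).card : ℤ) := by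
  unfold k K f2
  have h1 : ∀ Y ∈ Icc F univ, (-1 : ℤ) ^ (Y.card + F.card) * 2 ^ (r univ - r Y)
      = ∑ φ : D, if Y ⊆ zs ev φ then (-1 : ℤ) ^ (Y.card + F.card) else 0 := by
    intro Y _
    rw [← b.card_filter Y, Finset.card_filter]
    push_cast
    rw [Finset.mul_sum]
    apply Finset.sum_congr rfl
    intro φ _
    split_ifs <;> simp
  rw [Finset.sum_congr rfl h1, Finset.sum_comm, Finset.card_filter]
  push_cast
  apply Finset.sum_congr rfl
  intro φ _
  rw [← Finset.sum_filter]
  have h2 : (Icc F univ).filter (fun Y => Y ⊆ zs ev φ) = Icc F (zs ev φ) := by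
    ext Y
    simp only [mem_filter, mem_Icc, Finset.le_eq_subset, Finset.subset_univ, and_true]
  rw [h2]
  by_cases hF : F ⊆ zs ev φ
  · rw [sum_Icc_neg_one_pow F _ hF]
    by_cases h : F = zs ev φ
    · rw [if_pos h, if_pos h.symm]
    · rw [if_neg h, if_neg (fun hh => h hh.symm)]
  · rw [Finset.Icc_eq_empty (by simpa using hF)]
    rw [if_neg (fun hh : zs ev φ = F => hF (by rw [hh]))]
    simp

open Classical in
theorem BinCount.flat (b : BinCount r D ev) (h : RankFn r) (φ : D) : Flat r (zs ev φ) := by
  intro e he
  by_contra hcon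
  have h1 := h.le_insert (zs ev φ) e
  have h2 : r (insert e (zs ev φ)) = r (zs ev φ) := by omega
  have h3 := b.card_filter (zs ev φ)
  have h4 := b.card_filter (insert e (zs ev φ))
  rw [h2, ← h3] at h4
  have h5 : ((univ : Finset D).filter (fun ψ => insert e (zs ev φ) ⊆ zs ev ψ))
      ⊂ ((univ : Finset D).filter (fun ψ => zs ev φ ⊆ zs ev ψ)) := by
    rw [Finset.ssubset_iff_of_subset]
    · refine ⟨φ, ?_, ?_⟩
      · simp
      · simp only [mem_filter, mem_univ, true_and]
        intro hh
        exact he (hh (Finset.mem_insert_self _ _))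
    · intro ψ hψ
      simp only [mem_filter, mem_univ, true_and] at hψ ⊢
      exact (Finset.subset_insert _ _).trans hψ
  have h6 := Finset.card_lt_card h5
  omega

open Classical in
/-- Over the two element field the nonnegativity condition holds for round matroids. -/
theorem BinCount.tcond (b : BinCount r D ev) (h : RankFn r)
    (hround : ∀ F₁ F₂ : Finset α, Flat r F₁ → Flat r F₂ → F₁ ≠ univ → F₂ ≠ univ →
      F₁ ∪ F₂ ≠ univ) : TCond r := by
  intro F _ _ hcor _
  have hk : k r F = 0 := by
    rw [b.k_eq F]
    norm_cast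
    rw [Finset.card_eq_zero, Finset.filter_eq_empty_iff]
    intro φ _ hφ
    -- another functional vanishing on `F`
    have h4 : (4 : ℤ) ≤ (((univ : Finset D).filter (fun ψ => F ⊆ zs ev ψ)).card : ℤ) := by
      rw [b.card_filter F]
      obtain ⟨d, hd⟩ : ∃ d, r univ - r F = d + 2 := ⟨r univ - r F - 2, by omega⟩
      rw [hd, pow_add]
      have : (1 : ℤ) ≤ 2 ^ d := one_le_pow₀ (by norm_num)
      linarith
    obtain ⟨ψ, hψ, hψn⟩ : ∃ ψ ∈ ((univ : Finset D).filter (fun ψ => F ⊆ zs ev ψ)),
        ψ ∉ ({0, φ} : Finset D) := by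
      apply Finset.exists_mem_notMem_of_card_lt_card
      have h5 : ({0, φ} : Finset D).card ≤ 2 := Finset.card_le_two
      have h6 : 4 ≤ ((univ : Finset D).filter (fun ψ => F ⊆ zs ev ψ)).card := by exact_mod_cast h4
      omega
    simp only [mem_filter, mem_univ, true_and] at hψ
    simp only [mem_insert, mem_singleton, not_or] at hψn
    have hne : ∀ χ : D, χ ≠ 0 → zs ev χ ≠ univ := by
      intro χ hχ hz
      apply hχ
      apply b.ne
      intro a
      exact mem_zs.mp (hz ▸ Finset.mem_univ a)
    apply hround (zs ev ψ) (zs ev (φ + ψ)) (b.flat h ψ) (b.flat h (φ + ψ)) (hne ψ hψn.1)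
    · apply hne
      intro hz
      apply hψn.2
      have h7 := b.two φ
      have h8 : φ + ψ = φ + φ := by rw [hz, h7]
      exact add_left_cancel h8
    · rw [Finset.eq_univ_iff_forall]
      intro a
      rw [Finset.mem_union, mem_zs, mem_zs, b.add]
      by_cases h9 : ev ψ a = 0
      · exact Or.inl h9
      · right
        have h10 : ev φ a ≠ 0 := by
          intro hh
          apply h9
          have h11 : a ∈ F := by rw [← hφ]; exact mem_zs.mpr hh
          exact mem_zs.mp (hψ h11)
        generalize ev φ a = x at *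
        generalize ev ψ a = y at *
        revert x y
        decide
  rw [hk]; simp

end

section repr

variable {W : Type} [AddCommGroup W] [Module (ZMod 2) W]

theorem rank_eq_finrank (hr : IsRank M r) (v : α → W)
    (hv : ∀ I : Finset α, M.Indep (I : Set α) ↔ LinearIndepOn (ZMod 2) v (I : Set α))
    (Y : Finset α) : r Y = Module.finrank (ZMod 2) (Submodule.span (ZMod 2) (v '' (Y : Set α))) := by
  classical
  have key : ∀ I : Finset α, M.Indep (I : Set α) →
      Module.finrank (ZMod 2) (Submodule.span (ZMod 2) (v '' (I : Set α))) = I.card := by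
    intro I hI
    have h1 := (hv I).mp hI
    have h2 := finrank_span_eq_card h1
    have h3 : (Set.range fun x : (I : Set α) => v ↑x) = v '' (I : Set α) := by
      ext y; simp
    rw [h3] at h2
    rw [h2]
    simp
  haveI hfin : ∀ Z : Finset α, FiniteDimensional (ZMod 2)
      (Submodule.span (ZMod 2) (v '' (Z : Set α))) := fun Z =>
    FiniteDimensional.span_of_finite (ZMod 2) (Z.finite_toSet.image v)
  apply le_antisymm
  · obtain ⟨I, hIY, hI, hc⟩ := (hr Y).1
    rw [← hc, ← key I hI]
    haveI := hfin Y
    apply Submodule.finrank_mono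
    exact Submodule.span_mono (Set.image_mono (by exact_mod_cast hIY))
  · obtain ⟨b, hbY, _, hspan, hli⟩ := exists_linearIndepOn_extension
      (K := ZMod 2) (v := v) (s := ∅) (t := (Y : Set α)) (linearIndepOn_empty _ _)
      (Set.empty_subset _)
    obtain ⟨J, rfl⟩ := (Y.finite_toSet.subset hbY).exists_finset_coe
    have hJ := (hv J).mpr hli
    have h3 : J.card ≤ r Y := (hr Y).2 ⟨J, by exact_mod_cast hbY, hJ, rfl⟩
    rw [← key J hJ] at h3
    refine le_trans ?_ h3
    haveI := hfin J
    apply Submodule.finrank_mono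
    rw [Submodule.span_le]
    exact hspan

/-- The functionals on the span give the count. -/
theorem binCount_of_repr (hr : IsRank M r) (v : α → W)
    (hv : ∀ I : Finset α, M.Indep (I : Set α) ↔ LinearIndepOn (ZMod 2) v (I : Set α)) :
    ∃ (D : Type) (_ : AddCommGroup D) (_ : Fintype D) (ev : D → α → ZMod 2), BinCount r D ev := by
  classical
  let V := Submodule.span (ZMod 2) (Set.range v)
  haveI : FiniteDimensional (ZMod 2) V :=
    FiniteDimensional.span_of_finite (ZMod 2) (Set.finite_range v)
  let w : α → V := fun a => ⟨v a, Submodule.subset_span ⟨a, rfl⟩⟩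
  haveI : Finite (Module.Dual (ZMod 2) V) := Module.finite_of_finite (ZMod 2)
  haveI := Fintype.ofFinite (Module.Dual (ZMod 2) V)
  have hspan : ∀ φ : Module.Dual (ZMod 2) V, (∀ a, φ (w a) = 0) → φ = 0 := by
    intro φ hφ
    have h1 : Submodule.span (ZMod 2) (Set.range w) = ⊤ := by
      have h2 := Submodule.span_span_coe_preimage (R := ZMod 2) (s := Set.range v)
      rw [← h2]
      congr 1
      ext x
      simp only [Set.mem_range, Set.mem_preimage]
      constructor
      · rintro ⟨a, rfl⟩; exact ⟨a, rfl⟩
      · rintro ⟨a, ha⟩; exact ⟨a, Subtype.ext ha⟩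
    apply LinearMap.ext_on_range (v := w) h1
    intro a
    simp [hφ a]
  refine ⟨Module.Dual (ZMod 2) V, inferInstance, inferInstance, fun φ a => φ (w a), ?_⟩
  refine ⟨fun φ ψ a => rfl, fun a => rfl, hspan, ?_, ?_⟩
  · intro φ
    have : (2 : ZMod 2) • φ = 0 := by
      have h2 : (2 : ZMod 2) = 0 := by decide
      rw [h2, zero_smul]
    rwa [two_smul] at this
  · intro Y
    -- the annihilator
    let A : Submodule (ZMod 2) V := Submodule.span (ZMod 2) (w '' (Y : Set α))
    have hset : ∀ φ : Module.Dual (ZMod 2) V,
        (∀ y ∈ Y, φ (w y) = 0) ↔ φ ∈ A.dualAnnihilator := by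
      intro φ
      rw [Submodule.mem_dualAnnihilator]
      constructor
      · intro h x hx
        induction hx using Submodule.span_induction with
        | mem x hx =>
          obtain ⟨y, hy, rfl⟩ := hx
          exact h y (by exact_mod_cast hy)
        | zero => simp
        | add x y _ _ h1 h2 => rw [map_add, h1, h2, add_zero]
        | smul c x _ h1 => rw [map_smul, h1, smul_zero]
      · intro h y hy
        exact h _ (Submodule.subset_span ⟨y, by exact_mod_cast hy, rfl⟩)
    have hcard : Nat.card {φ : Module.Dual (ZMod 2) V // ∀ y ∈ Y, φ (w y) = 0}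
        = Nat.card A.dualAnnihilator := by
      apply Nat.card_congr
      exact Equiv.subtypeEquivRight hset
    have h3 := Subspace.finrank_add_finrank_dualAnnihilator_eq A
    have h4 : Nat.card A.dualAnnihilator = 2 ^ (Module.finrank (ZMod 2) A.dualAnnihilator) := by
      rw [Module.natCard_eq_pow_finrank (K := ZMod 2)]
      simp
    have h5 : Module.finrank (ZMod 2) A = r Y := by
      rw [rank_eq_finrank hr v hv Y]
      have h6 : (A.map V.subtype) = Submodule.span (ZMod 2) (v '' (Y : Set α)) := by
        rw [Submodule.map_span]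
        congr 1
        ext x
        simp [w]
      rw [← h6]
      exact (LinearEquiv.finrank_eq (Submodule.equivMapOfInjective V.subtype
        V.injective_subtype A))
    have h7 : Module.finrank (ZMod 2) V = r univ := by
      rw [rank_eq_finrank hr v hv univ, Finset.coe_univ, Set.image_univ]
    rw [hcard, h4]
    have h8 : Module.finrank (ZMod 2) A.dualAnnihilator = r univ - r Y := by omega
    rw [h8]
    push_cast
    rfl

/-- The nonnegativity condition for non-splitting binary matroids. -/
theorem tcond_of_repr (hr : IsRank M r) (v : α → W)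
    (hv : ∀ I : Finset α, M.Indep (I : Set α) ↔ LinearIndepOn (ZMod 2) v (I : Set α))
    (hround : ∀ F₁ F₂ : Finset α, Flat r F₁ → Flat r F₂ → F₁ ≠ univ → F₂ ≠ univ →
      F₁ ∪ F₂ ≠ univ) : TCond r := by
  obtain ⟨D, _, _, ev, b⟩ := binCount_of_repr hr v hv
  exact b.tcond hr.rankFn hround

end repr

end Pool.Agent.Helper46.FF
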