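import Pool.Agent.Helper46.FF.Graph

set_option autoImplicit false
set_option linter.unusedSectionVars false
set_option linter.unusedSimpArgs false
set_option linter.deprecated false

namespace Pool.Agent.Helper46.FF

open Finset

variable {α : Type} [Fintype α] [DecidableEq α] {r : Finset α → ℕ} {m : ℕ}

/-- Enumerated basis complement with third points. -/
structure Star (r : Finset α → ℕ) (m : ℕ) (F : Finset α) (σ : Fin (m + 2) → α)
    (th : Fin (m + 2) → Fin (m + 2) → α) : Prop where
  inj : Function.Injective σ
  notMem : ∀ i, σ i ∉ F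
  mem : ∀ i j, i ≠ j → th i j ∈ F
  line : ∀ i j, i ≠ j → r {σ i, σ j, th i j} ≤ 2

theorem exists_star (g : Geo r (m + 2)) (hchi : chiPoly r = ffp (m + 2)) (hB : AllBC r (m + 2))
    {F : Finset α} (hF : BC r (m + 2) F) :
    ∃ (σ : Fin (m + 2) → α) (th : Fin (m + 2) → Fin (m + 2) → α), Star r m F σ th := by
  classical
  let E := (Finset.equivFinOfCardEq hF.card).symm
  let σ : Fin (m + 2) → α := fun i => (E i).1
  have hσF : ∀ i, σ i ∉ F := fun i => Finset.mem_compl.mp (E i).2
  have hσ : Function.Injective σ := fun i j h => E.injective (Subtype.ext h)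
  have hex : ∀ i j : Fin (m + 2), ∃ p, i ≠ j → p ∈ F ∧ r {σ i, σ j, p} ≤ 2 := by
    intro i j
    by_cases hij : i = j
    · exact ⟨σ i, fun h => absurd hij h⟩
    · obtain ⟨p, hp, hr⟩ := exists_third g hchi hB hF (hσF i) (hσF j) (fun h => hij (hσ h))
      exact ⟨p, fun _ => ⟨hp, hr⟩⟩
  choose th hth using hex
  exact ⟨σ, th, hσ, hσF, fun i j h => (hth i j h).1, fun i j h => (hth i j h).2⟩

variable {F : Finset α} {σ : Fin (m + 2) → α} {th : Fin (m + 2) → Fin (m + 2) → α}

theorem Star.th_symm (g : Geo r (m + 2)) (hF : BC r (m + 2) F) (s : Star r m F σ th)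
    (i j : Fin (m + 2)) : th i j = th j i := by
  by_cases hij : i = j
  · rw [hij]
  · have h1 := s.line i j hij
    have h2 := s.line j i (Ne.symm hij)
    have h3 : ({σ j, σ i, th j i} : Finset α) = {σ i, σ j, th j i} := by
      ext x; simp only [mem_insert, mem_singleton]; tauto
    rw [h3] at h2
    exact triple_inj g hF (s.notMem i) (fun h => hij (s.inj h).symm) (s.mem i j hij)
      (s.mem j i (Ne.symm hij)) h1 h2

theorem Star.th_inj (g : Geo r (m + 2)) (hF : BC r (m + 2) F) (s : Star r m F σ th)
    {i j i' j' : Fin (m + 2)} (hij : i ≠ j) (hij' : i' ≠ j') (h : th i j = th i' j') :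
    s(i, j) = s(i', j') := by
  classical
  set p := th i j with hp
  have hX := s.line i j hij
  have hY := s.line i' j' hij'
  rw [← hp] at hX
  rw [← h] at hY
  have hsub := g.rk.submod {σ i, σ j, p} {σ i', σ j', p}
  -- independence of the four sigma values
  have hind : ∀ Z : Finset (Fin (m + 2)), r (Z.image σ) = Z.card := by
    intro Z
    have h1 : r (Z.image σ) = (Z.image σ).card := by
      apply indep_subset g.rk (C := Fᶜ) (by rw [hF.rank, hF.card])
      intro x hx
      obtain ⟨z, _, rfl⟩ := Finset.mem_image.mp hx
      exact Finset.mem_compl.mpr (s.notMem z)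
    rw [h1, Finset.card_image_of_injective _ s.inj]
  have hU : ({i, j} ∪ {i', j'} : Finset (Fin (m + 2))).card
      ≤ r ({σ i, σ j, p} ∪ {σ i', σ j', p}) := by
    rw [← hind]
    apply g.rk.mono
    intro x hx
    obtain ⟨z, hz, rfl⟩ := Finset.mem_image.mp hx
    simp only [mem_union, mem_insert, mem_singleton] at hz ⊢
    rcases hz with (h | h) | (h | h) <;> simp [h]
  have hcardU := Finset.card_union_add_card_inter ({i, j} : Finset (Fin (m + 2))) {i', j'}
  rw [Finset.card_pair hij, Finset.card_pair hij'] at hcardU
  have hp1 : 1 ≤ r ({σ i, σ j, p} ∩ {σ i', σ j', p}) := by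
    rw [← g.single p]
    apply g.rk.mono
    intro x hx
    rw [Finset.mem_singleton] at hx
    rw [hx]; simp
  by_cases hI : ({i, j} ∩ {i', j'} : Finset (Fin (m + 2))).card = 2
  · -- then the pairs coincide
    have h1 : ({i, j} ∩ {i', j'} : Finset (Fin (m + 2))) = {i, j} := by
      apply Finset.eq_of_subset_of_card_le Finset.inter_subset_left
      rw [hI, Finset.card_pair hij]
    have h2 : ({i, j} ∩ {i', j'} : Finset (Fin (m + 2))) = {i', j'} := by
      apply Finset.eq_of_subset_of_card_le Finset.inter_subset_right
      rw [hI, Finset.card_pair hij']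
    have h3 : ({i, j} : Finset (Fin (m + 2))) = {i', j'} := h1.symm.trans h2
    have hi : i ∈ ({i', j'} : Finset (Fin (m + 2))) := by rw [← h3]; simp
    have hj : j ∈ ({i', j'} : Finset (Fin (m + 2))) := by rw [← h3]; simp
    simp only [mem_insert, mem_singleton] at hi hj
    rw [Sym2.eq_iff]
    rcases hi with hi | hi
    · rcases hj with hj | hj
      · exact absurd (hi.trans hj.symm) hij
      · exact Or.inl ⟨hi, hj⟩
    · rcases hj with hj | hj
      · exact Or.inr ⟨hi, hj⟩
      · exact absurd (hi.trans hj.symm) hij
  · exfalso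
    rcases Nat.eq_zero_or_pos ({i, j} ∩ {i', j'} : Finset (Fin (m + 2))).card with h0 | h0
    · omega
    · obtain ⟨z, hz⟩ := Finset.card_pos.mp h0
      have hzX : σ z ∈ ({σ i, σ j, p} ∩ {σ i', σ j', p} : Finset α) := by
        rw [Finset.mem_inter] at hz ⊢
        simp only [mem_insert, mem_singleton] at hz ⊢
        constructor
        · rcases hz.1 with h | h <;> simp [h]
        · rcases hz.2 with h | h <;> simp [h]
      have hpF : p ∈ F := s.mem i j hij
      have hzp : σ z ≠ p := fun hh => s.notMem z (hh ▸ hpF)
      have h2 : 2 ≤ r ({σ i, σ j, p} ∩ {σ i', σ j', p}) := by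
        rw [← g.pair _ _ hzp]
        apply g.rk.mono
        intro x hx
        simp only [mem_insert, mem_singleton] at hx
        rcases hx with h | h
        · rw [h]; exact hzX
        · rw [h]; simp
      have h3 : ({i, j} ∩ {i', j'} : Finset (Fin (m + 2))).card ≤ 2 := by
        have := Finset.card_le_card (Finset.inter_subset_left (s₁ := ({i, j} : Finset (Fin (m + 2)))) (s₂ := {i', j'}))
        rwa [Finset.card_pair hij] at this
      omega

theorem Star.tri (g : Geo r (m + 2)) (hF : BC r (m + 2) F) (s : Star r m F σ th)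
    {i j k : Fin (m + 2)} (hij : i ≠ j) (hjk : j ≠ k) (hik : i ≠ k) :
    r {th i j, th j k, th i k} ≤ 2 := by
  classical
  let B : Finset α := {σ i, σ j, σ k}
  let P : Finset α := cl r B
  have hP : r P ≤ 3 := by
    have h1 := g.rk.cl_rank B
    have h2 := g.rk.le_card B
    have h3 : B.card ≤ 3 := Finset.card_le_three
    change r (cl r B) ≤ 3
    omega
  have hmem : ∀ {a b : Fin (m + 2)}, a ≠ b → σ a ∈ B → σ b ∈ B → th a b ∈ P := by
    intro a b hab ha hb
    apply cl_trans g.rk (Y := {σ a, σ b})
    · intro x hx
      simp only [mem_insert, mem_singleton] at hx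
      rcases hx with h | h
      · rw [h]; exact subset_cl r B ha
      · rw [h]; exact subset_cl r B hb
    · rw [mem_cl]
      have h3 := g.pair _ _ (fun h => hab (s.inj h))
      have h4 := s.line a b hab
      have h5 : insert (th a b) ({σ a, σ b} : Finset α) = {σ a, σ b, th a b} := by
        ext x; simp only [mem_insert, mem_singleton]; tauto
      have h6 := g.rk.le_insert {σ a, σ b} (th a b)
      rw [h5] at h6 ⊢
      omega
  have hi : σ i ∈ B := by simp [B]
  have hj : σ j ∈ B := by simp [B]
  have hk : σ k ∈ B := by simp [B]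
  have h1 := g.rk.submod F P
  have h2 : r F + 1 ≤ r (F ∪ P) := by
    have h3 := hF.flat (σ i) (s.notMem i)
    have h4 : r (insert (σ i) F) ≤ r (F ∪ P) := by
      apply g.rk.mono
      intro x hx
      rcases Finset.mem_insert.mp hx with h | h
      · rw [h]; exact Finset.mem_union_right _ (subset_cl r B hi)
      · exact Finset.mem_union_left _ h
    omega
  have h3 : r {th i j, th j k, th i k} ≤ r (F ∩ P) := by
    apply g.rk.mono
    intro x hx
    simp only [mem_insert, mem_singleton] at hx
    rw [Finset.mem_inter]
    rcases hx with h | h | h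
    · rw [h]; exact ⟨s.mem i j hij, hmem hij hi hj⟩
    · rw [h]; exact ⟨s.mem j k hjk, hmem hjk hj hk⟩
    · rw [h]; exact ⟨s.mem i k hik, hmem hik hi hk⟩
  omega

/-- The labelling of the edges of the complete graph on `Fin (m+3)`. -/
def ptf (σ : Fin (m + 2) → α) (th : Fin (m + 2) → Fin (m + 2) → α) (u v : Fin (m + 3)) : α :=
  Fin.cases (Fin.cases (σ 0) (fun j => σ j) v) (fun i => Fin.cases (σ i) (fun j => th i j) v) u

theorem ptf_zero_succ (σ : Fin (m + 2) → α) (th : Fin (m + 2) → Fin (m + 2) → α)
    (j : Fin (m + 2)) : ptf σ th 0 j.succ = σ j := rfl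

theorem ptf_succ_zero (σ : Fin (m + 2) → α) (th : Fin (m + 2) → Fin (m + 2) → α)
    (i : Fin (m + 2)) : ptf σ th i.succ 0 = σ i := rfl

theorem ptf_succ_succ (σ : Fin (m + 2) → α) (th : Fin (m + 2) → Fin (m + 2) → α)
    (i j : Fin (m + 2)) : ptf σ th i.succ j.succ = th i j := rfl

theorem Star.ptf_symm (g : Geo r (m + 2)) (hF : BC r (m + 2) F) (s : Star r m F σ th)
    (u v : Fin (m + 3)) : ptf σ th u v = ptf σ th v u := by
  cases u using Fin.cases with
  | zero =>
    cases v using Fin.cases with
    | zero => rfl
    | succ j => rfl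
  | succ i =>
    cases v using Fin.cases with
    | zero => rfl
    | succ j => exact s.th_symm g hF i j

theorem Star.ptf_inj (g : Geo r (m + 2)) (hF : BC r (m + 2) F) (s : Star r m F σ th)
    (u v u' v' : Fin (m + 3)) (huv : u ≠ v) (huv' : u' ≠ v')
    (h : ptf σ th u v = ptf σ th u' v') : s(u, v) = s(u', v') := by
  have key : ∀ (j : Fin (m + 2)) (u' v' : Fin (m + 3)), u' ≠ v' → σ j = ptf σ th u' v' →
      s((0 : Fin (m + 3)), j.succ) = s(u', v') := by
    intro j u' v' huv' h
    cases u' using Fin.cases with
    | zero =>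
      cases v' using Fin.cases with
      | zero => exact absurd rfl huv'
      | succ j' =>
        rw [ptf_zero_succ] at h
        rw [s.inj h]
    | succ i' =>
      cases v' using Fin.cases with
      | zero =>
        rw [ptf_succ_zero] at h
        rw [s.inj h]
        exact Sym2.eq_swap
      | succ j' =>
        rw [ptf_succ_succ] at h
        exfalso
        have hij : i' ≠ j' := fun hh => huv' (by rw [hh])
        exact s.notMem j (h ▸ s.mem i' j' hij)
  cases u using Fin.cases with
  | zero =>
    cases v using Fin.cases with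
    | zero => exact absurd rfl huv
    | succ j => exact key j u' v' huv' h
  | succ i =>
    cases v using Fin.cases with
    | zero =>
      have := key i u' v' huv' h
      rw [← this]
      exact Sym2.eq_swap
    | succ j =>
      have hij : i ≠ j := fun hh => huv (by rw [hh])
      cases u' using Fin.cases with
      | zero =>
        cases v' using Fin.cases with
        | zero => exact absurd rfl huv'
        | succ j' => exact (key j' i.succ j.succ huv h.symm).symm
      | succ i' =>
        cases v' using Fin.cases with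
        | zero =>
          have := key i' i.succ j.succ huv h.symm
          rw [← this]
          exact Sym2.eq_swap
        | succ j' =>
          have hij' : i' ≠ j' := fun hh => huv' (by rw [hh])
          rw [ptf_succ_succ, ptf_succ_succ] at h
          have h1 := s.th_inj g hF hij hij' h
          have h2 := congrArg (Sym2.map Fin.succ) h1
          simpa using h2

theorem Star.ptf_tri (g : Geo r (m + 2)) (hF : BC r (m + 2) F) (s : Star r m F σ th)
    (u v w : Fin (m + 3)) (huv : u ≠ v) (hvw : v ≠ w) (huw : u ≠ w) :
    r {ptf σ th u v, ptf σ th v w, ptf σ th u w} ≤ 2 := by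
  have hset : ∀ (a b c' a' b' c'' : α), ({a, b, c'} : Finset α) = {a', b', c''} →
      r {a', b', c''} ≤ 2 → r {a, b, c'} ≤ 2 := by
    intro a b c' a' b' c'' h1 h2
    rw [h1]; exact h2
  cases u using Fin.cases with
  | zero =>
    cases v using Fin.cases with
    | zero => exact absurd rfl huv
    | succ j =>
      cases w using Fin.cases with
      | zero => exact absurd rfl huw
      | succ k =>
        have hjk : j ≠ k := fun hh => hvw (by rw [hh])
        rw [ptf_zero_succ, ptf_succ_succ, ptf_zero_succ]
        apply hset _ _ _ (σ j) (σ k) (th j k) _ (s.line j k hjk)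
        ext x; simp only [mem_insert, mem_singleton]; tauto
  | succ i =>
    cases v using Fin.cases with
    | zero =>
      cases w using Fin.cases with
      | zero => exact absurd rfl hvw
      | succ k =>
        have hik : i ≠ k := fun hh => huw (by rw [hh])
        rw [ptf_succ_zero, ptf_zero_succ, ptf_succ_succ]
        exact s.line i k hik
    | succ j =>
      have hij : i ≠ j := fun hh => huv (by rw [hh])
      cases w using Fin.cases with
      | zero =>
        rw [ptf_succ_succ, ptf_succ_zero, ptf_succ_zero]
        apply hset _ _ _ (σ i) (σ j) (th i j) _ (s.line i j hij)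
        ext x; simp only [mem_insert, mem_singleton]; tauto
      | succ k =>
        have hjk : j ≠ k := fun hh => hvw (by rw [hh])
        have hik : i ≠ k := fun hh => huw (by rw [hh])
        rw [ptf_succ_succ, ptf_succ_succ, ptf_succ_succ]
        exact s.tri g hF hij hjk hik

/-- The points are labelled by the edges of the complete graph. -/
theorem Star.ptf_surj (g : Geo r (m + 2)) (hchi : chiPoly r = ffp (m + 2)) (hF : BC r (m + 2) F)
    (s : Star r m F σ th) :
    Function.Bijective (fun e : {e : Sym2 (Fin (m + 3)) // ¬ e.IsDiag} =>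
      Sym2.lift ⟨ptf σ th, s.ptf_symm g hF⟩ e.1) := by
  rw [Fintype.bijective_iff_injective_and_card]
  constructor
  · rintro ⟨e, he⟩ ⟨e', he'⟩ h
    induction e using Sym2.inductionOn with
    | _ u v =>
      induction e' using Sym2.inductionOn with
      | _ u' v' =>
        apply Subtype.ext
        exact s.ptf_inj g hF u v u' v' (by simpa using he) (by simpa using he') h
  · rw [Sym2.card_subtype_not_diag, Fintype.card_fin]
    have h1 := card_univ_eq g hchi
    have h2 : 2 * Fintype.card α = (m + 2) * (m + 3) := by exact_mod_cast h1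
    rw [Nat.choose_two_right]
    have h3 : (m + 3) * (m + 3 - 1) = 2 * Fintype.card α := by
      rw [h2]
      have : m + 3 - 1 = m + 2 := by omega
      rw [this]; ring
    rw [h3]
    omega

theorem Star.lab (g : Geo r (m + 2)) (hchi : chiPoly r = ffp (m + 2)) (hF : BC r (m + 2) F)
    (s : Star r m F σ th) : Lab r (ptf σ th) where
  rk := g.rk
  pair := g.pair
  symm := s.ptf_symm g hF
  ne := by
    intro u v w huv hvw huw h
    have h1 := s.ptf_inj g hF u v v w huv hvw h
    rcases Sym2.eq_iff.mp h1 with ⟨h2, _⟩ | ⟨h2, _⟩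
    · exact huv h2
    · exact huw h2
  tri := s.ptf_tri g hF
  surj := by
    intro x
    obtain ⟨⟨e, he⟩, hx⟩ := (s.ptf_surj g hchi hF).2 x
    induction e using Sym2.inductionOn with
    | _ u v => exact ⟨u, v, by simpa using he, hx.symm⟩
  card := by rw [g.univ_eq, Fintype.card_fin]

end Pool.Agent.Helper46.FF
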