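import Pool.Agent.Helper46.FF.Poly

set_option autoImplicit false
set_option linter.unusedSectionVars false
set_option linter.unusedSimpArgs false
set_option linter.deprecated false

namespace Pool.Agent.Helper46.FF

open Finset

variable {α : Type} [Fintype α] [DecidableEq α]

/-- Flats of a rank function. -/
def Flat (r : Finset α → ℕ) (F : Finset α) : Prop := ∀ e, e ∉ F → r F < r (insert e F)

/-- Closure. -/
def cl (r : Finset α → ℕ) (X : Finset α) : Finset α := univ.filter (fun e => r (insert e X) = r X)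

theorem mem_cl {r : Finset α → ℕ} {X : Finset α} {e : α} :
    e ∈ cl r X ↔ r (insert e X) = r X := by
  simp [cl]

theorem subset_cl (r : Finset α → ℕ) (X : Finset α) : X ⊆ cl r X := by
  intro x hx
  rw [mem_cl, Finset.insert_eq_of_mem hx]

theorem RankFn.union_eq {r : Finset α → ℕ} (h : RankFn r) (X S : Finset α)
    (hS : ∀ e ∈ S, r (insert e X) = r X) : r (X ∪ S) = r X := by
  induction S using Finset.induction_on with
  | empty => simp
  | insert a s ha ih =>
    have h1 : X ∪ insert a s = insert a (X ∪ s) := by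
      ext x; simp only [mem_union, mem_insert]; tauto
    rw [h1, h.insert_eq_of_subset Finset.subset_union_left (hS a (Finset.mem_insert_self _ _))]
    exact ih (fun e he => hS e (Finset.mem_insert_of_mem he))

theorem RankFn.cl_rank {r : Finset α → ℕ} (h : RankFn r) (X : Finset α) : r (cl r X) = r X := by
  have h1 := h.union_eq X (cl r X) (fun e he => mem_cl.mp he)
  rwa [Finset.union_eq_right.mpr (subset_cl r X)] at h1

theorem RankFn.cl_flat {r : Finset α → ℕ} (h : RankFn r) (X : Finset α) : Flat r (cl r X) := by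
  intro e he
  rw [h.cl_rank]
  have h1 : r (insert e X) ≠ r X := fun hh => he (mem_cl.mpr hh)
  have h2 := h.le_insert X e
  have h3 : r (insert e X) ≤ r (insert e (cl r X)) :=
    h.mono (Finset.insert_subset_insert _ (subset_cl r X))
  omega

theorem RankFn.flat_ne_univ_lt {r : Finset α → ℕ} (h : RankFn r) {F : Finset α}
    (hF : Flat r F) (hne : F ≠ univ) : r F < r univ := by
  obtain ⟨e, he⟩ : ∃ e, e ∉ F := by
    by_contra hcon
    push Not at hcon
    exact hne (Finset.eq_univ_iff_forall.mpr hcon)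
  exact lt_of_lt_of_le (hF e he) (h.mono (Finset.subset_univ _))

/-- A simple, non-splitting rank function of rank `n`. -/
structure Geo (r : Finset α → ℕ) (n : ℕ) : Prop where
  rk : RankFn r
  univ_eq : r univ = n
  pair : ∀ a b : α, a ≠ b → r {a, b} = 2
  single : ∀ a : α, r {a} = 1
  round : ∀ F₁ F₂ : Finset α, Flat r F₁ → Flat r F₂ → F₁ ≠ univ → F₂ ≠ univ → F₁ ∪ F₂ ≠ univ

theorem Geo.compl_rank {r : Finset α → ℕ} {n : ℕ} (g : Geo r n) {F : Finset α}
    (hF : Flat r F) (hne : F ≠ univ) : r Fᶜ = n := by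
  by_contra hcon
  have h1 : r Fᶜ ≤ n := by
    rw [← g.univ_eq]; exact g.rk.mono (Finset.subset_univ _)
  have h2 : cl r Fᶜ ≠ univ := by
    intro hh
    apply hcon
    rw [← g.rk.cl_rank, hh, g.univ_eq]
  apply g.round F (cl r Fᶜ) hF (g.rk.cl_flat _) hne h2
  rw [Finset.eq_univ_iff_forall]
  intro x
  by_cases hx : x ∈ F
  · exact Finset.mem_union_left _ hx
  · exact Finset.mem_union_right _ (subset_cl r _ (Finset.mem_compl.mpr hx))

theorem Geo.compl_card {r : Finset α → ℕ} {n : ℕ} (g : Geo r n) {F : Finset α}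
    (hF : Flat r F) (hne : F ≠ univ) : n ≤ Fᶜ.card := by
  rw [← g.compl_rank hF hne]
  exact g.rk.le_card _

/-- The nonnegativity hypothesis for the contractions `M / F` by the nonempty flats whose
complement has more than `r univ` points. -/
def TCond (r : Finset α → ℕ) : Prop :=
  ∀ F : Finset α, F.Nonempty → Flat r F → r F + 2 ≤ r univ → r univ < Fᶜ.card →
    0 ≤ (-1 : ℤ) ^ (r univ + r F + 1) * k r F

/-- The signed contribution of a flat. -/
def nu (r : Finset α → ℕ) (F : Finset α) : ℤ := (-1 : ℤ) ^ (r univ + 1) * (c r ∅ F * k r F)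

theorem nu_nonneg {r : Finset α → ℕ} (h : RankFn r) (hT : TCond r) {F : Finset α}
    (hne : F ≠ univ) (hc : r univ < Fᶜ.card) : 0 ≤ nu r F := by
  by_cases hflat : Flat r F
  · rcases Finset.eq_empty_or_nonempty F with hE | hE
    · subst hE
      unfold nu c
      simp [h.empty]
    · have hlt := h.flat_ne_univ_lt hflat hne
      have hb := beta_nonneg h (F \ ∅).card ∅ F (Finset.empty_subset _) (Ne.symm hE.ne_empty) rfl
      rw [h.empty, Nat.add_zero] at hb
      have key : 0 ≤ (-1 : ℤ) ^ (r univ + r F + 1) * k r F := by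
        by_cases h2 : r F + 2 ≤ r univ
        · exact hT F hE hflat h2 hc
        · have h3 : r univ = r F + 1 := by omega
          rw [k_hyperplane h h3 hflat, h3]
          have : r F + 1 + r F + 1 = 2 * (r F + 1) := by ring
          rw [this, pow_mul]; simp
      have h4 : nu r F = ((-1 : ℤ) ^ r F * c r ∅ F) * ((-1 : ℤ) ^ (r univ + r F + 1) * k r F) := by
        unfold nu
        have h5 : (-1 : ℤ) ^ r F * (-1 : ℤ) ^ r F = 1 := by
          rw [← pow_add, ← two_mul, pow_mul]; simp
        have h6 : (-1 : ℤ) ^ (r univ + r F + 1) = (-1 : ℤ) ^ (r univ + 1) * (-1 : ℤ) ^ r F := by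
          rw [← pow_add]; congr 1; ring
        rw [h6]
        linear_combination (-(-1 : ℤ) ^ (r univ + 1) * (c r ∅ F * k r F)) * h5
      rw [h4]
      exact mul_nonneg hb key
  · unfold Flat at hflat
    push Not at hflat
    obtain ⟨e, he, hle⟩ := hflat
    have h1 := h.le_insert F e
    have : r (insert e F) = r F := by omega
    unfold nu
    rw [k_eq_zero h he this]; simp

section target

variable {r : Finset α → ℕ} {m : ℕ}

theorem chi2_eq_zero (hchi : chiPoly r = ffp (m + 2)) : chi2 r = 0 := by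
  have h1 := chiPoly_eval r 2
  rw [hchi] at h1
  have h2 : (ffp (m + 2)).eval (2 : ℤ) = 0 := by
    unfold ffp
    rw [Polynomial.eval_prod]
    apply Finset.prod_eq_zero (i := 2)
    · simp
    · simp
  unfold chi2 f2
  rw [← h1, h2]

theorem sum_nu_mem (g : RankFn r) (hchi : chiPoly r = ffp (m + 2)) (e : α) :
    ∑ F ∈ (univ : Finset (Finset α)).filter (fun F => e ∈ F), nu r F = 0 := by
  unfold nu
  rw [← Finset.mul_sum, sum_c_k_mem_eq g e, chi2_eq_zero hchi]
  simp

theorem sum_nu (g : RankFn r) (hr : r univ = m + 2) (hchi : chiPoly r = ffp (m + 2)) :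
    ∑ F : Finset α, nu r F = 2 * (m.factorial : ℤ) := by
  unfold nu
  rw [← Finset.mul_sum, sum_c_k]
  have h0 := chi2_eq_zero hchi
  have h1 := chiPoly_derivative_eval r 2
  rw [hchi] at h1
  have h2 := derivative_eval_of_factor (m + 2) 2 (by simp)
  have h2' := prod_two m
  push_cast at h2
  rw [h2'] at h2
  rw [h2] at h1
  unfold chi2 at h0
  have h3 : ∑ X : Finset α, (-1 : ℤ) ^ X.card * (r X : ℤ) * f2 r X
      = (r univ : ℤ) * ∑ X : Finset α, (-1 : ℤ) ^ X.card * f2 r X
        - ∑ X : Finset α, (-1 : ℤ) ^ X.card * (((r univ - r X : ℕ) : ℤ) * 2 ^ (r univ - r X)) := by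
    rw [Finset.mul_sum, ← Finset.sum_sub_distrib]
    apply Finset.sum_congr rfl
    intro X _
    have h4 : r X ≤ r univ := g.mono (Finset.subset_univ _)
    rw [Nat.cast_sub h4]
    unfold f2
    ring
  rw [h3, h0, ← h1, hr]
  have h5 : (-1 : ℤ) ^ (m + 2 + 1) * (-1 : ℤ) ^ m = -1 := by
    rw [← pow_add]
    have : m + 2 + 1 + m = 2 * (m + 1) + 1 := by ring
    rw [this, pow_succ, pow_mul]; simp
  linear_combination (-2 * (m.factorial : ℤ)) * h5

theorem nu_univ (g : RankFn r) (hr : r univ = m + 2) (hchi : chiPoly r = ffp (m + 2)) :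
    nu r univ = -((m + 1).factorial : ℤ) := by
  unfold nu
  rw [k_univ]
  have h1 := chiPoly_derivative_eval r 1
  rw [hchi] at h1
  have h2 := derivative_eval_of_factor (m + 2) 1 (by simp)
  have h2' := prod_one (m + 1)
  push_cast at h2
  rw [h2'] at h2
  rw [h2] at h1
  have h0 : ∑ X : Finset α, (-1 : ℤ) ^ X.card = 0 := by
    have h3 := chiPoly_eval r 1
    rw [hchi] at h3
    have h4 : (ffp (m + 2)).eval (1 : ℤ) = 0 := by
      unfold ffp
      rw [Polynomial.eval_prod]
      apply Finset.prod_eq_zero (i := 1)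
      · simp
      · simp
    rw [h4] at h3
    simpa using h3.symm
  have h3 : c r ∅ univ = (r univ : ℤ) * ∑ X : Finset α, (-1 : ℤ) ^ X.card
        - ∑ X : Finset α, (-1 : ℤ) ^ X.card * (((r univ - r X : ℕ) : ℤ) * 1 ^ (r univ - r X)) := by
    unfold c
    have h5 : (Icc ∅ univ : Finset (Finset α)) = univ := by
      ext X; simp
    rw [h5, Finset.mul_sum, ← Finset.sum_sub_distrib]
    apply Finset.sum_congr rfl
    intro X _
    have h4 : r X ≤ r univ := g.mono (Finset.subset_univ _)
    rw [Nat.cast_sub h4]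
    simp
    ring
  rw [h3, h0, ← h1, hr]
  have h5 : (-1 : ℤ) ^ (m + 2 + 1) * (-1 : ℤ) ^ (m + 1) = 1 := by
    rw [← pow_add]
    have : m + 2 + 1 + (m + 1) = 2 * (m + 2) := by ring
    rw [this, pow_mul]; simp
  linear_combination (-((m + 1).factorial : ℤ)) * h5

theorem sum_nu_notMem (g : RankFn r) (hr : r univ = m + 2) (hchi : chiPoly r = ffp (m + 2))
    (e : α) :
    ∑ F ∈ (univ : Finset (Finset α)).filter (fun F => ¬ e ∈ F), nu r F = 2 * (m.factorial : ℤ) := by
  have h1 := Finset.sum_filter_add_sum_filter_not (univ : Finset (Finset α)) (fun F => e ∈ F) (nu r)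
  rw [sum_nu_mem g hchi, sum_nu g hr hchi, zero_add] at h1
  exact h1

theorem sum_nu_card (g : RankFn r) (hr : r univ = m + 2) (hchi : chiPoly r = ffp (m + 2)) :
    ∑ F : Finset α, nu r F * (Fᶜ.card : ℤ) = (Fintype.card α : ℤ) * (2 * (m.factorial : ℤ)) := by
  have h1 : ∀ F : Finset α, nu r F * (Fᶜ.card : ℤ) = ∑ _e ∈ Fᶜ, nu r F := by
    intro F
    rw [Finset.sum_const, nsmul_eq_mul]
    ring
  rw [Finset.sum_congr rfl (fun F _ => h1 F)]
  rw [Finset.sum_comm' (s' := fun e => (univ : Finset (Finset α)).filter (fun F => ¬ e ∈ F))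
    (t' := univ)]
  · rw [Finset.sum_congr rfl (fun e _ => sum_nu_notMem g hr hchi e)]
    simp
  · intro F e
    simp

theorem rank_eq_one_iff {n : ℕ} (g : Geo r n) (X : Finset α) : r X = 1 ↔ X.card = 1 := by
  constructor
  · intro h
    by_contra hcon
    rcases Nat.lt_or_ge X.card 1 with h1 | h1
    · have : X = ∅ := Finset.card_eq_zero.mp (by omega)
      rw [this, g.rk.empty] at h; omega
    · have h2 : 1 < X.card := by omega
      obtain ⟨a, ha, b, hb, hab⟩ := Finset.one_lt_card.mp h2
      have h3 : r {a, b} ≤ r X := g.rk.mono (by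
        intro x hx
        rcases Finset.mem_insert.mp hx with h' | h'
        · rw [h']; exact ha
        · rw [Finset.mem_singleton.mp h']; exact hb)
      rw [g.pair a b hab] at h3
      omega
  · intro h
    obtain ⟨a, rfl⟩ := Finset.card_eq_one.mp h
    exact g.single a

theorem card_univ_eq (g : Geo r (m + 2)) (hchi : chiPoly r = ffp (m + 2)) :
    2 * (Fintype.card α : ℤ) = ((m : ℤ) + 2) * ((m : ℤ) + 3) := by
  have h1 := chiPoly_coeff r (m + 1)
  have h2 := ffp_coeff_one (m + 1)
  rw [hchi] at h1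
  have h3 : ∑ X ∈ (univ : Finset (Finset α)).filter (fun X => r univ - r X = m + 1), (-1 : ℤ) ^ X.card
      = - (Fintype.card α : ℤ) := by
    have h4 : (univ : Finset (Finset α)).filter (fun X => r univ - r X = m + 1)
        = (univ : Finset α).powersetCard 1 := by
      ext X
      simp only [mem_filter, mem_univ, true_and, Finset.mem_powersetCard, Finset.subset_univ]
      rw [← rank_eq_one_iff g X, g.univ_eq]
      have : r X ≤ m + 2 := by
        rw [← g.univ_eq]; exact g.rk.mono (Finset.subset_univ _)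
      omega
    rw [h4]
    have h5 : ∀ X ∈ (univ : Finset α).powersetCard 1, (-1 : ℤ) ^ X.card = -1 := by
      intro X hX
      rw [(Finset.mem_powersetCard.mp hX).2]; simp
    rw [Finset.sum_congr rfl h5]
    simp
  rw [h3] at h1
  rw [h1] at h2
  push_cast at h2
  linarith

/-- Every element avoids a flat whose complement is a basis. -/
theorem exists_basis_complement (g : Geo r (m + 2)) (hchi : chiPoly r = ffp (m + 2))
    (hT : TCond r) (e : α) :
    ∃ F : Finset α, Flat r F ∧ e ∉ F ∧ Fᶜ.card = m + 2 ∧ r Fᶜ = m + 2 := by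
  have hr := g.univ_eq
  have hcard := card_univ_eq g hchi
  -- the weighted sum over proper flats vanishes
  have h1 := sum_nu_card g.rk hr hchi
  have h2 := sum_nu g.rk hr hchi
  have h3 := nu_univ g.rk hr hchi
  have hzero : ∑ F ∈ (univ : Finset (Finset α)).erase univ,
      nu r F * ((Fᶜ.card : ℤ) - ((m : ℤ) + 2)) = 0 := by
    have e1 : ∑ F ∈ (univ : Finset (Finset α)).erase univ, nu r F * ((Fᶜ.card : ℤ) - ((m : ℤ) + 2))
        = ∑ F : Finset α, nu r F * ((Fᶜ.card : ℤ) - ((m : ℤ) + 2))
          - nu r univ * (((univ : Finset α)ᶜ.card : ℤ) - ((m : ℤ) + 2)) := by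
      rw [← Finset.add_sum_erase _ _ (Finset.mem_univ (univ : Finset α))]
      ring
    rw [e1]
    have e2 : ∑ F : Finset α, nu r F * ((Fᶜ.card : ℤ) - ((m : ℤ) + 2))
        = ∑ F : Finset α, nu r F * (Fᶜ.card : ℤ) - (∑ F : Finset α, nu r F) * ((m : ℤ) + 2) := by
      rw [Finset.sum_mul, ← Finset.sum_sub_distrib]
      apply Finset.sum_congr rfl
      intro F _
      ring
    rw [e2, h1, h2, h3, Nat.factorial_succ]
    simp only [Finset.compl_univ, Finset.card_empty]
    push_cast
    linear_combination (m.factorial : ℤ) * hcard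
  have hnonneg : ∀ F ∈ (univ : Finset (Finset α)).erase univ,
      0 ≤ nu r F * ((Fᶜ.card : ℤ) - ((m : ℤ) + 2)) := by
    intro F hF
    have hne := Finset.ne_of_mem_erase hF
    by_cases hflat : Flat r F
    · have h7 := g.compl_card hflat hne
      have h8 : ((m + 2 : ℕ) : ℤ) ≤ (Fᶜ.card : ℤ) := by exact_mod_cast h7
      push_cast at h8
      rcases Nat.lt_or_ge (m + 2) Fᶜ.card with h9 | h9
      · apply mul_nonneg (nu_nonneg g.rk hT hne (by rw [hr]; exact h9))
        linarith
      · have h10 : (Fᶜ.card : ℤ) = (m : ℤ) + 2 := by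
          have : (Fᶜ.card : ℤ) ≤ ((m + 2 : ℕ) : ℤ) := by exact_mod_cast h9
          push_cast at this
          linarith
        rw [h10]; simp
    · unfold Flat at hflat
      push Not at hflat
      obtain ⟨x, hx, hle⟩ := hflat
      have h4 := g.rk.le_insert F x
      have h5 : r (insert x F) = r F := by omega
      unfold nu
      rw [k_eq_zero g.rk hx h5]; simp
  have heach := (Finset.sum_eq_zero_iff_of_nonneg hnonneg).mp hzero
  -- choose a flat avoiding `e` with positive contribution
  have h6 := sum_nu_notMem g.rk hr hchi e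
  have hpos : 0 < ∑ F ∈ (univ : Finset (Finset α)).filter (fun F => ¬ e ∈ F), nu r F := by
    rw [h6]
    have := Nat.factorial_pos m
    positivity
  obtain ⟨F, hF, hFpos⟩ := Finset.exists_lt_of_sum_lt (s := (univ : Finset (Finset α)).filter (fun F => ¬ e ∈ F))
    (f := fun _ => (0 : ℤ)) (g := nu r) (by simpa using hpos)
  have heF : e ∉ F := (Finset.mem_filter.mp hF).2
  have hne : F ≠ univ := fun hh => heF (hh ▸ Finset.mem_univ e)
  have hflat : Flat r F := by
    intro x hx
    by_contra hcon
    have h4 := g.rk.le_insert F x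
    have h5 : r (insert x F) = r F := by omega
    have h7 : nu r F = 0 := by
      unfold nu
      rw [k_eq_zero g.rk hx h5]; simp
    simp only [h7] at hFpos
    exact lt_irrefl _ hFpos
  have h8 := heach F (Finset.mem_erase.mpr ⟨hne, Finset.mem_univ _⟩)
  have h9 : (Fᶜ.card : ℤ) - ((m : ℤ) + 2) = 0 := by
    rcases mul_eq_zero.mp h8 with h | h
    · exact absurd h (ne_of_gt hFpos)
    · exact h
  refine ⟨F, hflat, heF, ?_, g.compl_rank hflat hne⟩
  have : (Fᶜ.card : ℤ) = ((m + 2 : ℕ) : ℤ) := by push_cast; linarith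
  exact_mod_cast this

end target

end Pool.Agent.Helper46.FF
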