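import Pool.Agent.Helper46.FF.Final

set_option autoImplicit false
set_option linter.unusedSectionVars false
set_option linter.unusedSimpArgs false
set_option linter.deprecated false

/-! Minimally round simple matroids with the number of points and of collinear triples of
`M(K_{n+1})` (theorem A of helper83): every element avoids a basis complement. -/

namespace Pool.Agent.Helper46.FF

open Finset

variable {α : Type} [Fintype α] [DecidableEq α] {r : Finset α → ℕ} {m n : ℕ}

/-- No two proper flats cover. -/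
def Round {β : Type} [Fintype β] [DecidableEq β] (ρ : Finset β → ℕ) : Prop :=
  ∀ F₁ F₂ : Finset β, Flat ρ F₁ → Flat ρ F₂ → F₁ ≠ univ → F₂ ≠ univ → F₁ ∪ F₂ ≠ univ

/-- Every deletion splits. -/
def Crit (r : Finset α → ℕ) : Prop :=
  ∀ e : α, ∃ F₁ F₂ : Finset α, Flat r F₁ ∧ Flat r F₂ ∧ F₁ ≠ univ ∧ F₂ ≠ univ ∧
    e ∉ F₁ ∧ e ∉ F₂ ∧ ∀ x, x ≠ e → x ∈ F₁ ∨ x ∈ F₂

theorem inter_flat_card' (g : Geo r n) {F : Finset α} (hF : Flat r F) {X : Finset α} {e : α}
    (heX : e ∈ X) (heF : e ∉ F) (hX : r X ≤ 2) : (X ∩ F).card ≤ 1 := by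
  by_contra hcon
  obtain ⟨a, ha, b, hb, hab⟩ := Finset.one_lt_card.mp (by omega : 1 < (X ∩ F).card)
  rw [Finset.mem_inter] at ha hb
  exact heF (mem_flat_of_line g hF hab ha.2 hb.2 ha.1 hb.1 heX hX)

/-- Lines have at most three points. -/
theorem line_card_le_of_crit (g : Geo r n) (hC : Crit r) (X : Finset α) (hX : r X ≤ 2) :
    X.card ≤ 3 := by
  rcases Finset.eq_empty_or_nonempty X with h | ⟨e, he⟩
  · rw [h]; simp
  · obtain ⟨F₁, F₂, h1, h2, _, _, he1, he2, hcov⟩ := hC e
    have h5 := inter_flat_card' g h1 he he1 hX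
    have h6 := inter_flat_card' g h2 he he2 hX
    have h7 : X ⊆ {e} ∪ ((X ∩ F₁) ∪ (X ∩ F₂)) := by
      intro x hx
      by_cases hxe : x = e
      · rw [hxe]; simp
      · rcases hcov x hxe with h | h
        · simp [hx, h]
        · simp [hx, h]
    have h8 := Finset.card_le_card h7
    have h9 := Finset.card_union_le {e} ((X ∩ F₁) ∪ (X ∩ F₂))
    have h10 := Finset.card_union_le (X ∩ F₁) (X ∩ F₂)
    simp only [Finset.card_singleton] at h9
    omega

theorem exists_third_elem {X : Finset α} (hX : X.card = 3) (a b : α) :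
    ∃ z ∈ X, z ≠ a ∧ z ≠ b := by
  have h1 : ({a, b} : Finset α).card < X.card := by
    have := Finset.card_le_two (a := a) (b := b)
    omega
  obtain ⟨z, hz, hz2⟩ := Finset.exists_mem_notMem_of_card_lt_card h1
  simp only [mem_insert, mem_singleton, not_or] at hz2
  exact ⟨z, hz, hz2.1, hz2.2⟩

/-- Two triples through `e` sharing another point coincide. -/
theorem triple_unique (g : Geo r n) (hL : ∀ X : Finset α, r X ≤ 2 → X.card ≤ 3) {e x : α}
    {T T' : Finset α} (hT : T ∈ triplesAt r e) (hT' : T' ∈ triplesAt r e) (hxe : x ≠ e)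
    (hx : x ∈ T) (hx' : x ∈ T') : T = T' := by
  rw [mem_triplesAt] at hT hT'
  have h1 := union_rank_two g hxe hx hT.2 hx' hT'.2 hT.1.2.le hT'.1.2.le
  have h2 := hL _ h1
  have h3 : T = T ∪ T' := by
    apply Finset.eq_of_subset_of_card_le Finset.subset_union_left
    rw [hT.1.1]; exact h2
  have h4 : T' = T ∪ T' := by
    apply Finset.eq_of_subset_of_card_le Finset.subset_union_right
    rw [hT'.1.1]; exact h2
  rw [h3, ← h4]

/-- A family of elements each outside a flat containing `e` and the others has full rank. -/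
theorem rank_insert_family (h : RankFn r) {e : α} (he : r {e} = 1) {A : Finset α}
    (hA : ∀ x ∈ A, ∃ H : Finset α, Flat r H ∧ x ∉ H ∧ e ∈ H ∧ ∀ y ∈ A, y ≠ x → y ∈ H) :
    r (insert e A) = A.card + 1 := by
  have key : ∀ B : Finset α, B ⊆ A → r (insert e B) = B.card + 1 := by
    intro B
    induction B using Finset.induction_on with
    | empty => intro _; simpa using he
    | insert x s hx ih =>
      intro hs
      have h1 := ih ((Finset.subset_insert _ _).trans hs)
      obtain ⟨H, hH, hxH, heH, hy⟩ := hA x (hs (Finset.mem_insert_self _ _))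
      have h2 : insert e s ⊆ H := by
        intro y hy'
        rcases Finset.mem_insert.mp hy' with h' | h'
        · rw [h']; exact heH
        · exact hy y (hs (Finset.mem_insert_of_mem h')) (fun hh => hx (hh ▸ h'))
      have h3 : insert e (insert x s) = insert x (insert e s) := Finset.insert_comm e x s
      rw [h3, Finset.card_insert_of_notMem hx]
      have h4 := h.le_insert (insert e s) x
      have h5 := h.insert_le (insert e s) x
      have h6 : r (insert x (insert e s)) ≠ r (insert e s) := by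
        intro heq
        have h7 := h.insert_eq_of_subset h2 heq
        have h8 := hH x hxH
        omega
      omega
  exact key A (subset_refl A)

theorem crit_aux (g : Geo r n) (hL : ∀ X : Finset α, r X ≤ 2 → X.card ≤ 3)
    {H₁ H₂ : Finset α} {e f : α} (hH₁ : Flat r H₁) (hH₂ : Flat r H₂) (hf₁ : f ∉ H₁)
    (hf₂ : f ∉ H₂) (hcov : ∀ x, x ≠ f → x ∈ H₁ ∨ x ∈ H₂) (he : e ∈ H₁)
    {T : Finset α} (hT : T ∈ triplesAt r e) (hfT : f ∈ T)
    {T' : Finset α} (hT' : T' ∈ triplesAt r e) (hne : T' ≠ T) : ∀ x ∈ T', x ∈ H₁ := by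
  have hfe : f ≠ e := fun hh => hf₁ (hh ▸ he)
  have hfT' : f ∉ T' := fun hh => hne (triple_unique g hL hT' hT hfe hh hfT)
  rw [mem_triplesAt] at hT hT'
  -- the third point of `T`
  obtain ⟨b, hb, hbe, hbf⟩ := exists_third_elem hT.1.1 e f
  have hb1 : b ∉ H₁ := fun hh => hf₁ (mem_flat_of_line g hH₁ hbe hh he hb hT.2 hfT hT.1.2.le)
  have hb2 : b ∈ H₂ := (hcov b hbf).resolve_left hb1
  have he2 : e ∉ H₂ := fun hh => hf₂ (mem_flat_of_line g hH₂ hbe hb2 hh hb hT.2 hfT hT.1.2.le)
  intro x hx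
  by_contra hx1
  have hxe : x ≠ e := fun hh => hx1 (hh ▸ he)
  have hxf : x ≠ f := fun hh => hfT' (hh ▸ hx)
  have hx2 : x ∈ H₂ := (hcov x hxf).resolve_left hx1
  obtain ⟨y, hy, hye, hyx⟩ := exists_third_elem hT'.1.1 e x
  have hyf : y ≠ f := fun hh => hfT' (hh ▸ hy)
  rcases hcov y hyf with hy1 | hy2
  · exact hx1 (mem_flat_of_line g hH₁ hye hy1 he hy hT'.2 hx hT'.1.2.le)
  · exact he2 (mem_flat_of_line g hH₂ hyx hy2 hx2 hy hx hT'.2 hT'.1.2.le)

/-- The long lines through `e` are independent modulo `e`. -/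
theorem triples_family (g : Geo r n) (hC : Crit r) (e : α) (a : Finset α → α)
    (ha : ∀ T ∈ triplesAt r e, a T ∈ T ∧ a T ≠ e) :
    r (insert e ((triplesAt r e).image a)) = (triplesAt r e).card + 1 := by
  have hL := line_card_le_of_crit g hC
  have hinj : Set.InjOn a (triplesAt r e : Set (Finset α)) := by
    intro T hT T' hT' hTT
    have hT1 := Finset.mem_coe.mp hT
    have hT1' := Finset.mem_coe.mp hT'
    exact triple_unique g hL hT1 hT1' (ha T hT1).2 (ha T hT1).1 (hTT ▸ (ha T' hT1').1)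
  rw [← Finset.card_image_of_injOn hinj]
  apply rank_insert_family g.rk (g.single e)
  intro x hx
  obtain ⟨T, hT, rfl⟩ := Finset.mem_image.mp hx
  obtain ⟨H₁, H₂, h1, h2, _, _, hf1, hf2, hcov⟩ := hC (a T)
  have hTe := (ha T hT).2
  rcases hcov e (Ne.symm hTe) with he | he
  · refine ⟨H₁, h1, hf1, he, ?_⟩
    intro y hy hyx
    obtain ⟨T', hT', rfl⟩ := Finset.mem_image.mp hy
    have hne : T' ≠ T := fun hh => hyx (by rw [hh])
    exact crit_aux g hL h1 h2 hf1 hf2 hcov he hT (ha T hT).1 hT' hne _ (ha T' hT').1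
  · refine ⟨H₂, h2, hf2, he, ?_⟩
    intro y hy hyx
    obtain ⟨T', hT', rfl⟩ := Finset.mem_image.mp hy
    have hne : T' ≠ T := fun hh => hyx (by rw [hh])
    exact crit_aux g hL h2 h1 hf2 hf1 (fun x hx => (hcov x hx).symm) he hT (ha T hT).1 hT' hne _
      (ha T' hT').1

theorem exists_choice (e : α) :
    ∃ a : Finset α → α, ∀ T ∈ triplesAt r e, a T ∈ T ∧ a T ≠ e := by
  classical
  have h : ∀ T : Finset α, ∃ z : α, T ∈ triplesAt r e → z ∈ T ∧ z ≠ e := by
    intro T
    by_cases hT : T ∈ triplesAt r e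
    · obtain ⟨z, hz, hze, _⟩ := exists_third_elem (mem_triplesAt.mp hT).1.1 e e
      exact ⟨z, fun _ => ⟨hz, hze⟩⟩
    · exact ⟨e, fun hh => absurd hh hT⟩
  choose a ha using h
  exact ⟨a, ha⟩

theorem triplesAt_card_le_of_crit (g : Geo r (m + 2)) (hC : Crit r) (e : α) :
    (triplesAt r e).card ≤ m + 1 := by
  obtain ⟨a, ha⟩ := exists_choice (r := r) e
  have h1 := triples_family g hC e a ha
  have h2 := g.rk.mono (Finset.subset_univ (insert e ((triplesAt r e).image a)))
  rw [h1, g.univ_eq] at h2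
  omega

/-- Theorem A of helper83: in a minimally round target every element avoids a basis
complement. -/
theorem allBC_of_crit (g : Geo r (m + 2)) (hchi : chiPoly r = ffp (m + 2)) (hC : Crit r) :
    AllBC r (m + 2) := by
  classical
  have hL := line_card_le_of_crit g hC
  have hat : ∀ x : α, (triplesAt r x).card = m + 1 :=
    triplesAt_card_of_le g hchi hL (triplesAt_card_le_of_crit g hC)
  intro f
  obtain ⟨H₁, H₂, h1, h2, hu1, hu2, hf1, hf2, hcov⟩ := hC f
  refine ⟨H₂, ⟨h2, ?_, g.compl_rank h2 hu2⟩, hf2⟩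
  have hlow := g.compl_card h2 hu2
  apply le_antisymm _ hlow
  -- every point off `H₂` is on a long line with `f`
  have hline : ∀ x ∈ H₂ᶜ.erase f, ∃ T ∈ triplesAt r f, x ∈ T := by
    intro x hx
    rw [Finset.mem_erase, Finset.mem_compl] at hx
    by_contra hcon
    push Not at hcon
    have hx1 : x ∈ H₁ := (hcov x hx.1).resolve_right hx.2
    have hsub : ∀ T ∈ triplesAt r x, ∀ y ∈ T, y ∈ H₁ := by
      intro T hT
      rw [mem_triplesAt] at hT
      have hfT : f ∉ T := by
        intro hfT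
        exact hcon T (mem_triplesAt.mpr ⟨hT.1, hfT⟩) hT.2
      intro y hy
      by_contra hy1
      have hyx : y ≠ x := fun hh => hy1 (hh ▸ hx1)
      have hyf : y ≠ f := fun hh => hfT (hh ▸ hy)
      have hy2 : y ∈ H₂ := (hcov y hyf).resolve_left hy1
      obtain ⟨z, hz, hzx, hzy⟩ := exists_third_elem hT.1.1 x y
      have hzf : z ≠ f := fun hh => hfT (hh ▸ hz)
      rcases hcov z hzf with hz1 | hz2
      · exact hy1 (mem_flat_of_line g h1 hzx hz1 hx1 hz hT.2 hy hT.1.2.le)
      · exact hx.2 (mem_flat_of_line g h2 hzy hz2 hy2 hz hy hT.2 hT.1.2.le)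
    obtain ⟨a, ha⟩ := exists_choice (r := r) x
    have h5 := triples_family g hC x a ha
    have h6 : r (insert x ((triplesAt r x).image a)) ≤ r H₁ := by
      apply g.rk.mono
      intro y hy
      rcases Finset.mem_insert.mp hy with h | h
      · rw [h]; exact hx1
      · obtain ⟨T, hT, rfl⟩ := Finset.mem_image.mp h
        exact hsub T hT _ (ha T hT).1
    have h7 := g.rk.flat_ne_univ_lt h1 hu1
    rw [h5, hat x] at h6
    rw [g.univ_eq] at h7
    omega
  -- each long line through `f` has at most one point off `H₂`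
  have hcount : (H₂ᶜ.erase f).card ≤ (triplesAt r f).card := by
    apply Finset.card_le_card_of_forall_subsingleton (fun x T => x ∈ T)
    · intro x hx
      obtain ⟨T, hT, hxT⟩ := hline x hx
      exact ⟨T, hT, hxT⟩
    · intro T hT x hx y hy
      obtain ⟨hx0, hxT⟩ := hx
      obtain ⟨hy0, hyT⟩ := hy
      have hx' := Finset.mem_erase.mp (Finset.mem_coe.mp hx0)
      have hy' := Finset.mem_erase.mp (Finset.mem_coe.mp hy0)
      rw [Finset.mem_compl] at hx' hy'
      rw [mem_triplesAt] at hT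
      by_contra hxy
      have hx1 : x ∈ H₁ := (hcov x hx'.1).resolve_right hx'.2
      have hy1 : y ∈ H₁ := (hcov y hy'.1).resolve_right hy'.2
      exact hf1 (mem_flat_of_line g h1 hxy hx1 hy1 hxT hyT hT.2 hT.1.2.le)
  rw [hat f, Finset.card_erase_of_mem (Finset.mem_compl.mpr hf2)] at hcount
  omega

end Pool.Agent.Helper46.FF
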