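import Pool.Agent.Helper46.FF.MatRank

set_option autoImplicit false
set_option linter.unusedSectionVars false
set_option linter.unusedSimpArgs false
set_option linter.deprecated false

namespace Pool.Agent.Helper46.FF

open Finset

variable {α : Type} [Fintype α] [DecidableEq α] {M : Matroid α} {r : Finset α → ℕ}

/-- The conclusion of the question. -/
def IsKn (M : Matroid α) (n : ℕ) : Prop :=
  ∃ e : α ≃ {s : Sym2 (Fin (n + 1)) // ¬ s.IsDiag},
        ∀ I : Set α, M.Indep I ↔
          (SimpleGraph.fromEdgeSet (Subtype.val '' (e '' I))).IsAcyclic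

theorem isKn_zero (hE : M.E = Set.univ) (hcard : Fintype.card α = 0) : IsKn M 0 := by
  haveI : IsEmpty α := Fintype.card_eq_zero_iff.mp hcard
  haveI : IsEmpty {s : Sym2 (Fin (0 + 1)) // ¬ s.IsDiag} := by
    rw [← Fintype.card_eq_zero_iff, Sym2.card_subtype_not_diag]
    simp
  refine ⟨Equiv.equivOfIsEmpty _ _, ?_⟩
  intro I
  have hI : I = ∅ := Set.eq_empty_of_isEmpty I
  subst hI
  simp

theorem isKn_one (hp : ∀ a b : α, M.Indep ({a, b} : Set α)) (hcard : Fintype.card α = 1) :
    IsKn M 1 := by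
  classical
  have hc : Fintype.card α = Fintype.card {s : Sym2 (Fin (1 + 1)) // ¬ s.IsDiag} := by
    rw [hcard, Sym2.card_subtype_not_diag]
    simp
  refine ⟨Fintype.equivOfCardEq hc, ?_⟩
  intro I
  constructor
  · intro _ u c hc
    have h1 := hc.three_le_length
    have h2 := hc.support_nodup.length_le_card
    rw [List.length_tail, SimpleGraph.Walk.length_support, Fintype.card_fin] at h2
    omega
  · intro _
    haveI : Subsingleton α := Fintype.card_le_one_iff_subsingleton.mp (by omega)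
    obtain ⟨a⟩ : Nonempty α := Fintype.card_pos_iff.mp (by omega)
    apply (hp a a).subset
    intro x _
    rw [Subsingleton.elim x a]; simp

theorem isKn_of_lab {m : ℕ} (g : Geo r (m + 2)) (hr : IsRank M r)
    (hchi : chiPoly r = ffp (m + 2)) {F : Finset α} (hF : BC r (m + 2) F)
    {σ : Fin (m + 2) → α} {th : Fin (m + 2) → Fin (m + 2) → α} (s : Star r m F σ th) :
    IsKn M (m + 2) := by
  classical
  have hl := s.lab g hchi hF
  let f := Equiv.ofBijective _ (s.ptf_surj g hchi hF)
  have hf : ∀ (u v : Fin (m + 3)) (huv : ¬ (s(u, v) : Sym2 (Fin (m + 3))).IsDiag),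
      f ⟨s(u, v), huv⟩ = ptf σ th u v := fun u v huv => rfl
  refine ⟨f.symm, ?_⟩
  intro I
  obtain ⟨J, rfl⟩ := (Set.toFinite I).exists_finset_coe
  rw [hr.indep_iff]
  have hgr : (SimpleGraph.fromEdgeSet (Subtype.val '' (f.symm '' (J : Set α))))
      = gr (ptf σ th) hl.symm J := by
    ext u v
    rw [SimpleGraph.fromEdgeSet_adj]
    constructor
    · rintro ⟨⟨x, ⟨y, hy, rfl⟩, hx⟩, huv⟩
      refine ⟨huv, ?_⟩
      have h1 : f.symm y = ⟨s(u, v), by simpa using huv⟩ := Subtype.ext hx
      have h2 : y = ptf σ th u v := by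
        rw [← hf u v (by simpa using huv), ← h1, Equiv.apply_symm_apply]
      rw [← h2]; exact_mod_cast hy
    · rintro ⟨huv, hy⟩
      refine ⟨⟨⟨s(u, v), by simpa using huv⟩, ⟨ptf σ th u v, by exact_mod_cast hy, ?_⟩, rfl⟩, huv⟩
      rw [← hf u v (by simpa using huv), Equiv.symm_apply_apply]
  rw [hgr]
  exact ⟨fun h => hl.forest_of_indep (s.ptf_inj g hF) h, fun h => hl.indep_of_forest (s.ptf_inj g hF) h⟩

/-- The geometry data of the statement. -/
theorem geo_of_hyps (hp : ∀ a b : α, M.Indep ({a, b} : Set α)) (hr : IsRank M r)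
    (hround : ¬ ∃ F₁ F₂ : Finset α,
          (∀ e, e ∉ F₁ → r F₁ < r (insert e F₁)) ∧
          (∀ e, e ∉ F₂ → r F₂ < r (insert e F₂)) ∧
          F₁ ≠ Finset.univ ∧ F₂ ≠ Finset.univ ∧ F₁ ∪ F₂ = Finset.univ) {n : ℕ}
    (hchi : chiPoly r = ffp n) : Geo r n where
  rk := hr.rankFn
  univ_eq := rank_eq hr.rankFn (hr.single hp) hchi
  pair := hr.pair hp
  single := hr.single hp
  round := by
    intro F₁ F₂ h1 h2 h3 h4 h5
    exact hround ⟨F₁, F₂, h1, h2, h3, h4, h5⟩

/-- The whole question, if in rank at least two every element avoids a basis complement. -/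
theorem isKn_of_allBC (n : ℕ) (hE : M.E = Set.univ) (hp : ∀ a b : α, M.Indep ({a, b} : Set α))
    (hr : IsRank M r) (g : Geo r n) (hchi : chiPoly r = ffp n)
    (hB : ∀ m, n = m + 2 → AllBC r n) : IsKn M n := by
  have hrk := hr.rankFn
  have hs := hr.single hp
  have hn := g.univ_eq
  rcases n with _ | _ | m
  · apply isKn_zero hE
    by_contra hcon
    obtain ⟨a⟩ : Nonempty α := Fintype.card_pos_iff.mp (by omega)
    have h1 := hrk.mono (Finset.subset_univ {a})
    rw [hs a, hn] at h1
    omega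
  · apply isKn_one hp
    have h1 := (rank_eq_one_iff g univ).mp hn
    rwa [Finset.card_univ] at h1
  · have hcard2 := card_univ_eq g hchi
    obtain ⟨e⟩ : Nonempty α := by
      apply Fintype.card_pos_iff.mp
      by_contra hcon
      have h0 : Fintype.card α = 0 := by omega
      rw [h0] at hcard2
      push_cast at hcard2
      have : (0 : ℤ) < ((m : ℤ) + 2) * ((m : ℤ) + 3) := by positivity
      omega
    have hB' : AllBC r (m + 2) := hB m rfl
    obtain ⟨F, hBC, _⟩ := hB' e
    obtain ⟨σ, th, s⟩ := exists_star g hchi hB' hBC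
    exact isKn_of_lab g hr hchi hBC s

/-- The whole question under the nonnegativity condition for the proper contractions. -/
theorem isKn_of_TCond (n : ℕ) (hE : M.E = Set.univ) (hp : ∀ a b : α, M.Indep ({a, b} : Set α))
    (hr : IsRank M r)
    (hround : ¬ ∃ F₁ F₂ : Finset α,
          (∀ e, e ∉ F₁ → r F₁ < r (insert e F₁)) ∧
          (∀ e, e ∉ F₂ → r F₂ < r (insert e F₂)) ∧
          F₁ ≠ Finset.univ ∧ F₂ ≠ Finset.univ ∧ F₁ ∪ F₂ = Finset.univ)
    (hchi : chiPoly r = ffp n) (hT : TCond r) : IsKn M n := by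
  have g := geo_of_hyps hp hr hround hchi
  apply isKn_of_allBC n hE hp hr g hchi
  rintro m rfl
  exact allBC_of_TCond g hchi hT

end Pool.Agent.Helper46.FF
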