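import Pool.Agent.Helper46.FF.Triples

set_option autoImplicit false
set_option linter.unusedSectionVars false
set_option linter.unusedSimpArgs false
set_option linter.deprecated false

namespace Pool.Agent.Helper46.FF

open Finset

variable {α : Type} [Fintype α] [DecidableEq α] {r : Finset α → ℕ}
variable {V : Type} [Fintype V] [DecidableEq V]

theorem cl_trans (h : RankFn r) {X Y : Finset α} (hY : Y ⊆ cl r X) {x : α} (hx : x ∈ cl r Y) :
    x ∈ cl r X := by
  rw [mem_cl] at hx ⊢
  have h1 := h.insert_eq_of_subset hY hx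
  have h2 : r (insert x X) ≤ r (insert x (cl r X)) :=
    h.mono (Finset.insert_subset_insert _ (subset_cl r X))
  have h3 := h.cl_rank X
  have h4 := h.le_insert X x
  omega

theorem cl_mono (h : RankFn r) {X Y : Finset α} (hXY : X ⊆ Y) : cl r X ⊆ cl r Y := by
  intro x hx
  exact cl_trans h (hXY.trans (subset_cl r Y)) hx

/-- Data: a labelling of the edges of the complete graph on `V` by the points. -/
structure Lab (r : Finset α → ℕ) (pt : V → V → α) : Prop where
  rk : RankFn r
  pair : ∀ a b : α, a ≠ b → r {a, b} = 2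
  symm : ∀ u v, pt u v = pt v u
  ne : ∀ u v w, u ≠ v → v ≠ w → u ≠ w → pt u v ≠ pt v w
  tri : ∀ u v w, u ≠ v → v ≠ w → u ≠ w → r {pt u v, pt v w, pt u w} ≤ 2
  surj : ∀ x : α, ∃ u v, u ≠ v ∧ x = pt u v
  card : Fintype.card V = r univ + 1

/-- The graph of a set of points. -/
def gr (pt : V → V → α) (hs : ∀ u v, pt u v = pt v u) (J : Finset α) : SimpleGraph V where
  Adj u v := u ≠ v ∧ pt u v ∈ J
  symm := ⟨by
    intro u v h
    refine ⟨h.1.symm, ?_⟩
    rw [hs v u]; exact h.2⟩
  loopless := ⟨by
    intro u h
    exact h.1 rfl⟩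

theorem Lab.tri_cl {pt : V → V → α} (l : Lab r pt) {X : Finset α} {u v w : V}
    (huv : u ≠ v) (hvw : v ≠ w) (huw : u ≠ w) (h1 : pt u v ∈ cl r X) (h2 : pt v w ∈ cl r X) :
    pt u w ∈ cl r X := by
  apply cl_trans l.rk (Y := {pt u v, pt v w})
  · intro x hx
    simp only [mem_insert, mem_singleton] at hx
    rcases hx with h | h
    · rw [h]; exact h1
    · rw [h]; exact h2
  · rw [mem_cl]
    have h3 := l.pair _ _ (l.ne u v w huv hvw huw)
    have h4 := l.tri u v w huv hvw huw
    have h5 : insert (pt u w) ({pt u v, pt v w} : Finset α) = {pt u v, pt v w, pt u w} := by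
      ext x; simp only [mem_insert, mem_singleton]; tauto
    have h6 := l.rk.le_insert {pt u v, pt v w} (pt u w)
    rw [h5] at h6 ⊢
    omega

theorem Lab.walk_cl {pt : V → V → α} (l : Lab r pt) {J X : Finset α} (hJ : J ⊆ cl r X) {u v : V}
    (p : (gr pt l.symm J).Walk u v) : u = v ∨ pt u v ∈ cl r X := by
  induction p with
  | nil => exact Or.inl rfl
  | @cons a b c hab q ih =>
    by_cases hac : a = c
    · exact Or.inl hac
    · right
      have h1 : pt a b ∈ cl r X := hJ hab.2
      rcases ih with h | h
      · rw [← h]; exact h1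
      · by_cases hbc : b = c
        · rw [← hbc]; exact h1
        · exact l.tri_cl hab.1 hbc hac h1 h

theorem Lab.reach_cl {pt : V → V → α} (l : Lab r pt) {J X : Finset α} (hJ : J ⊆ cl r X) {u v : V}
    (hr : (gr pt l.symm J).Reachable u v) : u = v ∨ pt u v ∈ cl r X := by
  obtain ⟨p⟩ := hr
  exact l.walk_cl hJ p

/-- If no element is in the closure of the others, the set is independent. -/
theorem indep_of_forall (h : RankFn r) {I : Finset α}
    (hI : ∀ x ∈ I, r (I.erase x) < r I) : r I = I.card := by
  have key : ∀ X : Finset α, X ⊆ I → r X = X.card := by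
    intro X
    induction X using Finset.induction_on with
    | empty => intro _; rw [h.empty]; simp
    | insert a s ha ih =>
      intro hs
      have h1 : s ⊆ I := (Finset.subset_insert _ _).trans hs
      have h2 : a ∈ I := hs (Finset.mem_insert_self _ _)
      rw [Finset.card_insert_of_notMem ha, ← ih h1]
      have h3 := h.le_insert s a
      have h4 := h.insert_le s a
      by_contra hcon
      have h5 : r (insert a s) = r s := by omega
      have h6 : s ⊆ I.erase a := by
        intro x hx
        exact Finset.mem_erase.mpr ⟨fun hh => ha (hh ▸ hx), h1 hx⟩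
      have h7 := h.insert_eq_of_subset h6 h5
      rw [Finset.insert_erase h2] at h7
      have h8 := hI a h2
      omega
  exact key I (le_refl _)

theorem Lab.forest_of_indep {pt : V → V → α} (l : Lab r pt) 
    (hinj : ∀ u v u' v', u ≠ v → u' ≠ v' → pt u v = pt u' v' → s(u, v) = s(u', v'))
    {I : Finset α} (hI : r I = I.card) : (gr pt l.symm I).IsAcyclic := by
  rw [SimpleGraph.isAcyclic_iff_forall_adj_isBridge]
  intro u v huv
  rw [SimpleGraph.isBridge_iff]
  intro hreach
  have hsub : (gr pt l.symm I).deleteEdges {s(u, v)} ≤ gr pt l.symm (I.erase (pt u v)) := by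
    intro a b hab
    rw [SimpleGraph.deleteEdges_adj] at hab
    refine ⟨hab.1.1, Finset.mem_erase.mpr ⟨?_, hab.1.2⟩⟩
    intro heq
    exact hab.2 (by simpa using hinj a b u v hab.1.1 huv.1 heq)
  have h1 := l.reach_cl (subset_cl r (I.erase (pt u v))) (hreach.mono hsub)
  rcases h1 with h | h
  · exact huv.1 h
  · rw [mem_cl, Finset.insert_erase huv.2] at h
    have h2 := l.rk.le_card (I.erase (pt u v))
    rw [Finset.card_erase_of_mem huv.2] at h2
    have h3 : 0 < I.card := Finset.card_pos.mpr ⟨_, huv.2⟩
    omega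

theorem Lab.indep_of_forest {pt : V → V → α} (l : Lab r pt)
    (hinj : ∀ u v u' v', u ≠ v → u' ≠ v' → pt u v = pt u' v' → s(u, v) = s(u', v'))
    {I : Finset α} (hI : (gr pt l.symm I).IsAcyclic) : r I = I.card := by
  classical
  apply indep_of_forall l.rk
  intro x hx
  by_contra hcon
  have hle := l.rk.mono (Finset.erase_subset x I)
  have heq : r (I.erase x) = r I := by omega
  obtain ⟨u, v, huv, rfl⟩ := l.surj x
  -- `u` and `v` are not connected without the edge
  have hbr := (SimpleGraph.isAcyclic_iff_forall_adj_isBridge.mp hI) (v := u) (w := v) ⟨huv, hx⟩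
  rw [SimpleGraph.isBridge_iff] at hbr
  have hsub : gr pt l.symm (I.erase (pt u v)) ≤ (gr pt l.symm I).deleteEdges {s(u, v)} := by
    intro a b hab
    rw [SimpleGraph.deleteEdges_adj]
    refine ⟨⟨hab.1, Finset.mem_of_mem_erase hab.2⟩, ?_⟩
    intro hmem
    have h1 : s(a, b) = s(u, v) := by simpa using hmem
    have h2 : pt a b = pt u v := by
      rcases Sym2.eq_iff.mp h1 with ⟨h, h'⟩ | ⟨h, h'⟩
      · rw [h, h']
      · rw [h, h', l.symm]
    exact (Finset.ne_of_mem_erase hab.2) h2
  have hnr : ¬ (gr pt l.symm (I.erase (pt u v))).Reachable u v := fun h => hbr (h.mono hsub)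
  -- the component of `u`
  let S : Finset V := univ.filter (fun w => (gr pt l.symm (I.erase (pt u v))).Reachable u w)
  have huS : u ∈ S := by simp [S]
  have hvS : v ∉ S := by simpa [S] using hnr
  let B : Finset α := ((S.erase u).image (fun w => pt u w)) ∪ ((Sᶜ.erase v).image (fun w => pt v w))
  have hBcard : B.card + 1 ≤ r univ := by
    have h1 : B.card ≤ (S.erase u).card + (Sᶜ.erase v).card :=
      (Finset.card_union_le _ _).trans (Nat.add_le_add Finset.card_image_le Finset.card_image_le)
    rw [Finset.card_erase_of_mem huS, Finset.card_erase_of_mem (Finset.mem_compl.mpr hvS)] at h1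
    have h2 : S.card + Sᶜ.card = Fintype.card V := Finset.card_add_card_compl S
    have h3 := l.card
    have h4 : 0 < S.card := Finset.card_pos.mpr ⟨u, huS⟩
    have h5 : 0 < Sᶜ.card := Finset.card_pos.mpr ⟨v, Finset.mem_compl.mpr hvS⟩
    omega
  have hB1 : ∀ w ∈ S, w ≠ u → pt u w ∈ cl r B := by
    intro w hw hwu
    apply subset_cl
    exact Finset.mem_union_left _ (Finset.mem_image_of_mem _ (Finset.mem_erase.mpr ⟨hwu, hw⟩))
  have hB2 : ∀ w ∉ S, w ≠ v → pt v w ∈ cl r B := by
    intro w hw hwv
    apply subset_cl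
    exact Finset.mem_union_right _
      (Finset.mem_image_of_mem _ (Finset.mem_erase.mpr ⟨hwv, Finset.mem_compl.mpr hw⟩))
  -- the remaining edges are in the closure of `B`
  have hJ : I.erase (pt u v) ⊆ cl r B := by
    intro y hy
    obtain ⟨a, b, hab, rfl⟩ := l.surj y
    have hadj : (gr pt l.symm (I.erase (pt u v))).Adj a b := ⟨hab, hy⟩
    by_cases ha : a ∈ S
    · have hb : b ∈ S := by
        simp only [S, mem_filter, mem_univ, true_and] at ha ⊢
        exact ha.trans hadj.reachable
      by_cases hau : a = u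
      · subst hau; exact hB1 b hb (Ne.symm hab)
      · by_cases hbu : b = u
        · subst hbu; rw [l.symm]; exact hB1 a ha hab
        · refine l.tri_cl (v := u) hau (Ne.symm hbu) hab ?_ (hB1 b hb hbu)
          rw [l.symm]; exact hB1 a ha hau
    · have hb : b ∉ S := by
        intro hb
        apply ha
        simp only [S, mem_filter, mem_univ, true_and] at hb ⊢
        exact hb.trans hadj.symm.reachable
      by_cases hav : a = v
      · subst hav; exact hB2 b hb (Ne.symm hab)
      · by_cases hbv : b = v
        · subst hbv; rw [l.symm]; exact hB2 a ha hab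
        · refine l.tri_cl (v := v) hav (Ne.symm hbv) hab ?_ (hB2 b hb hbv)
          rw [l.symm]; exact hB2 a ha hav
  -- hence so is the edge `uv`
  have huvB : pt u v ∈ cl r B := by
    apply cl_trans l.rk hJ
    rw [mem_cl, Finset.insert_erase hx, heq]
  -- and then everything
  have hall : ∀ w, w ≠ u → pt u w ∈ cl r B := by
    intro w hw
    by_cases hwS : w ∈ S
    · exact hB1 w hwS hw
    · by_cases hwv : w = v
      · rw [hwv]; exact huvB
      · exact l.tri_cl (v := v) huv (Ne.symm hwv) (Ne.symm hw) huvB (hB2 w hwS hwv)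
  have huniv : cl r B = univ := by
    rw [Finset.eq_univ_iff_forall]
    intro y
    obtain ⟨a, b, hab, rfl⟩ := l.surj y
    by_cases hau : a = u
    · subst hau; exact hall b (Ne.symm hab)
    · by_cases hbu : b = u
      · subst hbu; rw [l.symm]; exact hall a hab
      · refine l.tri_cl (v := u) hau (Ne.symm hbu) hab ?_ (hall b hbu)
        rw [l.symm]; exact hall a hau
  have h1 := l.rk.cl_rank B
  rw [huniv] at h1
  have h2 := l.rk.le_card B
  omega

end Pool.Agent.Helper46.FF
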