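import Pool.Agent.Helper46.FF.Basic

set_option autoImplicit false
set_option linter.unusedSectionVars false
set_option linter.unusedSimpArgs false
set_option linter.deprecated false

namespace Pool.Agent.Helper46.FF

open Finset

variable {α : Type} [Fintype α] [DecidableEq α]

/-- `2` to the corank. -/
def f2 (r : Finset α → ℕ) (Y : Finset α) : ℤ := 2 ^ (r univ - r Y)

/-- The value at `2` of the characteristic polynomial of the contraction `M / F`
(zero when `F` is not a flat). -/
def k (r : Finset α → ℕ) (F : Finset α) : ℤ := K (f2 r) F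

/-- The value at `2` of the characteristic polynomial. -/
def chi2 (r : Finset α → ℕ) : ℤ := ∑ X : Finset α, (-1 : ℤ) ^ X.card * f2 r X

theorem k_univ (r : Finset α → ℕ) : k r univ = 1 := by
  unfold k K f2
  simp only [Finset.Icc_self, Finset.sum_singleton, Nat.sub_self, pow_zero, mul_one]
  rw [← two_mul, pow_mul]; simp

/-- `k` vanishes on sets that are not flats. -/
theorem k_eq_zero {r : Finset α → ℕ} (h : RankFn r) {F : Finset α} {e : α} (he : e ∉ F)
    (hF : r (insert e F) = r F) : k r F = 0 := by
  unfold k K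
  rw [sum_Icc_split (fun Y => (-1 : ℤ) ^ (Y.card + F.card) * f2 r Y) (Finset.mem_univ e) he]
  apply Finset.sum_eq_zero
  intro X hX
  have hX' : e ∉ X := fun h' => (Finset.notMem_erase e univ) ((Finset.mem_Icc.mp hX).2 h')
  rw [Finset.card_insert_of_notMem hX']
  have : f2 r (insert e X) = f2 r X := by
    unfold f2
    rw [h.insert_eq_of_subset (Finset.mem_Icc.mp hX).1 hF]
  rw [this]; ring

/-- Hyperplanes: `k = 1`. -/
theorem k_hyperplane {r : Finset α → ℕ} (h : RankFn r) {F : Finset α}
    (hr : r univ = r F + 1) (hflat : ∀ e, e ∉ F → r F < r (insert e F)) : k r F = 1 := by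
  have hne : F ≠ univ := by
    intro hh; rw [hh] at hr; omega
  unfold k K
  have h1 : ∀ Y ∈ Icc F univ, (-1 : ℤ) ^ (Y.card + F.card) * f2 r Y
      = (-1 : ℤ) ^ (Y.card + F.card) + (if Y = F then 1 else 0) := by
    intro Y hY
    by_cases hYF : Y = F
    · rw [if_pos hYF, hYF]
      unfold f2
      rw [hr]
      have : r F + 1 - r F = 1 := by omega
      rw [this, ← two_mul, pow_mul]; norm_num
    · rw [if_neg hYF]
      have hsub := (Finset.mem_Icc.mp hY).1
      obtain ⟨e, heY, heF⟩ : ∃ e, e ∈ Y ∧ e ∉ F := by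
        by_contra hcon
        push Not at hcon
        exact hYF (Finset.Subset.antisymm hcon hsub)
      have h2 := hflat e heF
      have h3 : r (insert e F) ≤ r Y := by
        apply h.mono
        intro x hx
        rcases Finset.mem_insert.mp hx with h' | h'
        · rw [h']; exact heY
        · exact hsub h'
      have h4 : r Y ≤ r univ := h.mono (Finset.subset_univ _)
      unfold f2
      have : r univ - r Y = 0 := by omega
      rw [this]; ring
  rw [Finset.sum_congr rfl h1, Finset.sum_add_distrib,
    sum_Icc_neg_one_pow F univ (Finset.subset_univ _), if_neg hne, Finset.sum_ite_eq']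
  simp

theorem sum_k (r : Finset α → ℕ) (F : Finset α) : ∑ G ∈ Icc F univ, k r G = f2 r F :=
  sum_K (f2 r) F

/-- Identity (B). -/
theorem sum_c_k (r : Finset α → ℕ) :
    ∑ F : Finset α, c r ∅ F * k r F = ∑ X : Finset α, (-1 : ℤ) ^ X.card * (r X : ℤ) * f2 r X := by
  have h1 : ∑ F : Finset α, c r ∅ F * k r F
      = ∑ F : Finset α, ∑ X ∈ Icc ∅ F, (-1 : ℤ) ^ X.card * (r X : ℤ) * k r F := by
    apply Finset.sum_congr rfl
    intro F _
    unfold c
    rw [Finset.sum_mul]
    simp
  rw [h1]
  rw [Finset.sum_comm' (s' := fun X => Icc X univ) (t' := univ)]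
  · apply Finset.sum_congr rfl
    intro X _
    rw [← Finset.mul_sum, sum_k]
  · intro F X
    simp only [mem_univ, mem_Icc, true_and, Finset.empty_subset, Finset.subset_univ, and_true]

/-- Identity (A), raw form. -/
theorem sum_c_k_mem (r : Finset α → ℕ) (e : α) :
    ∑ F ∈ (univ : Finset (Finset α)).filter (fun F => e ∈ F), c r ∅ F * k r F
      = ∑ X : Finset α, (-1 : ℤ) ^ X.card * (r X : ℤ) * f2 r (insert e X) := by
  have h1 : ∑ F ∈ (univ : Finset (Finset α)).filter (fun F => e ∈ F), c r ∅ F * k r F
      = ∑ F ∈ (univ : Finset (Finset α)).filter (fun F => e ∈ F),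
          ∑ X ∈ Icc ∅ F, (-1 : ℤ) ^ X.card * (r X : ℤ) * k r F := by
    apply Finset.sum_congr rfl
    intro F _
    unfold c
    rw [Finset.sum_mul]
    simp
  rw [h1]
  rw [Finset.sum_comm' (s' := fun X => Icc (insert e X) univ) (t' := univ)]
  · apply Finset.sum_congr rfl
    intro X _
    rw [← Finset.mul_sum, sum_k]
  · intro F X
    simp only [mem_univ, mem_Icc, true_and, Finset.empty_subset, Finset.subset_univ, and_true,
      mem_filter]
    constructor
    · rintro ⟨h1, h2⟩
      exact Finset.insert_subset h1 h2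
    · intro h1
      exact ⟨h1 (Finset.mem_insert_self _ _), (Finset.subset_insert _ _).trans h1⟩

theorem sum_univ_split (g : Finset α → ℤ) (e : α) :
    ∑ X : Finset α, g X = ∑ X ∈ Icc ∅ ((univ : Finset α).erase e), (g X + g (insert e X)) := by
  have := sum_Icc_split g (S := ∅) (T := univ) (e := e) (Finset.mem_univ e) (Finset.notMem_empty e)
  rw [← this]
  apply Finset.sum_congr _ (fun _ _ => rfl)
  ext X
  simp

/-- Identity (A). -/
theorem sum_c_k_mem_eq {r : Finset α → ℕ} (h : RankFn r) (e : α) :
    ∑ F ∈ (univ : Finset (Finset α)).filter (fun F => e ∈ F), c r ∅ F * k r F = - chi2 r := by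
  rw [sum_c_k_mem]
  unfold chi2
  rw [sum_univ_split (fun X => (-1 : ℤ) ^ X.card * (r X : ℤ) * f2 r (insert e X)) e,
    sum_univ_split (fun X => (-1 : ℤ) ^ X.card * f2 r X) e, ← Finset.sum_neg_distrib]
  apply Finset.sum_congr rfl
  intro X hX
  have hX' : e ∉ X := fun h' => (Finset.notMem_erase e univ) ((Finset.mem_Icc.mp hX).2 h')
  rw [Finset.card_insert_of_notMem hX', Finset.insert_idem]
  have h1 := h.le_insert X e
  have h2 := h.insert_le X e
  have h3 : r (insert e X) ≤ r univ := h.mono (Finset.subset_univ _)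
  by_cases heq : r (insert e X) = r X
  · unfold f2
    rw [heq]; ring
  · have h4 : r (insert e X) = r X + 1 := by omega
    unfold f2
    rw [h4]
    have h5 : r univ - r X = (r univ - (r X + 1)) + 1 := by omega
    rw [h5]
    push_cast
    ring

end Pool.Agent.Helper46.FF
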