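import Pool.Agent.Helper46.FF.Crit

set_option autoImplicit false
set_option linter.unusedSectionVars false
set_option linter.unusedSimpArgs false
set_option linter.deprecated false

namespace Pool.Agent.Helper46.FF

open Finset

/-- Statement T for all finite matroids (given by rank functions). -/
def TStatement : Prop :=
  ∀ (β : Type) [Fintype β] [DecidableEq β] (ρ : Finset β → ℕ), RankFn ρ → 2 ≤ ρ univ →
    Round ρ → 0 ≤ (-1 : ℤ) ^ (ρ univ + 1) * chi2 ρ

variable {α : Type} [Fintype α] [DecidableEq α]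

/-- The underlying set of a subset of the contraction. -/
def up (F : Finset α) (X : Finset {x // x ∉ F}) : Finset α :=
  F ∪ X.map (Function.Embedding.subtype _)

/-- The rank function of the contraction `M / F`. -/
def contr (r : Finset α → ℕ) (F : Finset α) (X : Finset {x // x ∉ F}) : ℕ := r (up F X) - r F

theorem mem_up {F : Finset α} {X : Finset {x // x ∉ F}} {a : α} :
    a ∈ up F X ↔ a ∈ F ∨ ∃ h : a ∉ F, (⟨a, h⟩ : {x // x ∉ F}) ∈ X := by
  unfold up
  rw [Finset.mem_union, Finset.mem_map]
  constructor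
  · rintro (h | ⟨⟨x, hx⟩, hxX, rfl⟩)
    · exact Or.inl h
    · exact Or.inr ⟨hx, hxX⟩
  · rintro (h | ⟨h, hX⟩)
    · exact Or.inl h
    · exact Or.inr ⟨⟨a, h⟩, hX, rfl⟩

theorem up_insert (F : Finset α) (X : Finset {x // x ∉ F}) (e : {x // x ∉ F}) :
    up F (insert e X) = insert e.1 (up F X) := by
  ext a
  rw [Finset.mem_insert, mem_up, mem_up]
  constructor
  · rintro (h | ⟨h, hX⟩)
    · exact Or.inr (Or.inl h)
    · rcases Finset.mem_insert.mp hX with h' | h'
      · left; rw [← h']
      · exact Or.inr (Or.inr ⟨h, h'⟩)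
  · rintro (h | h | ⟨h, hX⟩)
    · right
      subst h
      exact ⟨e.2, Finset.mem_insert_self _ _⟩
    · exact Or.inl h
    · exact Or.inr ⟨h, Finset.mem_insert_of_mem hX⟩

theorem up_empty (F : Finset α) : up F ∅ = F := by
  unfold up; simp

theorem up_univ (F : Finset α) : up F univ = univ := by
  ext a
  rw [mem_up]
  by_cases h : a ∈ F
  · simp [h]
  · simp [h]

theorem up_inter (F : Finset α) (X Y : Finset {x // x ∉ F}) :
    up F (X ∩ Y) = up F X ∩ up F Y := by
  ext a
  rw [Finset.mem_inter, mem_up, mem_up, mem_up]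
  constructor
  · rintro (h | ⟨h, hX⟩)
    · exact ⟨Or.inl h, Or.inl h⟩
    · rw [Finset.mem_inter] at hX
      exact ⟨Or.inr ⟨h, hX.1⟩, Or.inr ⟨h, hX.2⟩⟩
  · rintro ⟨h1, h2⟩
    rcases h1 with h | ⟨h, hX⟩
    · exact Or.inl h
    · rcases h2 with h' | ⟨h', hY⟩
      · exact Or.inl h'
      · exact Or.inr ⟨h, Finset.mem_inter.mpr ⟨hX, hY⟩⟩

theorem up_union (F : Finset α) (X Y : Finset {x // x ∉ F}) :
    up F (X ∪ Y) = up F X ∪ up F Y := by
  ext a
  rw [Finset.mem_union, mem_up, mem_up, mem_up]
  constructor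
  · rintro (h | ⟨h, hX⟩)
    · exact Or.inl (Or.inl h)
    · rw [Finset.mem_union] at hX
      rcases hX with h' | h'
      · exact Or.inl (Or.inr ⟨h, h'⟩)
      · exact Or.inr (Or.inr ⟨h, h'⟩)
  · rintro ((h | ⟨h, hX⟩) | (h | ⟨h, hX⟩))
    · exact Or.inl h
    · exact Or.inr ⟨h, Finset.mem_union_left _ hX⟩
    · exact Or.inl h
    · exact Or.inr ⟨h, Finset.mem_union_right _ hX⟩

theorem subset_up (F : Finset α) (X : Finset {x // x ∉ F}) : F ⊆ up F X :=
  Finset.subset_union_left

theorem card_up (F : Finset α) (X : Finset {x // x ∉ F}) : (up F X).card = F.card + X.card := by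
  unfold up
  rw [Finset.card_union_of_disjoint, Finset.card_map]
  rw [Finset.disjoint_left]
  intro a ha ha'
  obtain ⟨⟨x, hx⟩, _, rfl⟩ := Finset.mem_map.mp ha'
  exact hx ha

theorem contr_rankFn {r : Finset α → ℕ} (h : RankFn r) (F : Finset α) : RankFn (contr r F) where
  empty := by unfold contr; rw [up_empty]; omega
  le_insert := by
    intro X e
    unfold contr
    rw [up_insert]
    have := h.le_insert (up F X) e.1
    omega
  insert_le := by
    intro X e
    unfold contr
    rw [up_insert]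
    have := h.insert_le (up F X) e.1
    omega
  submod := by
    intro X Y
    unfold contr
    rw [up_inter, up_union]
    have h1 := h.submod (up F X) (up F Y)
    have h2 := h.mono (subset_up F X)
    have h3 := h.mono (subset_up F Y)
    have h4 : r F ≤ r (up F X ∩ up F Y) :=
      h.mono (Finset.subset_inter (subset_up F X) (subset_up F Y))
    have h5 : r F ≤ r (up F X ∪ up F Y) := h.mono ((subset_up F X).trans Finset.subset_union_left)
    omega

theorem contr_univ {r : Finset α → ℕ} (F : Finset α) : contr r F univ = r univ - r F := by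
  unfold contr; rw [up_univ]

theorem up_flat {r : Finset α → ℕ} (h : RankFn r) {F : Finset α} {X : Finset {x // x ∉ F}}
    (hX : Flat (contr r F) X) : Flat r (up F X) := by
  intro e he
  have heF : e ∉ F := fun hh => he (subset_up F X hh)
  have heX : (⟨e, heF⟩ : {x // x ∉ F}) ∉ X := fun hh => he (mem_up.mpr (Or.inr ⟨heF, hh⟩))
  have h1 := hX ⟨e, heF⟩ heX
  unfold contr at h1
  rw [up_insert] at h1
  have h2 := h.mono (subset_up F X)
  simp only at h1
  omega

theorem contr_round {r : Finset α → ℕ} (h : RankFn r) (hr : Round r) (F : Finset α) :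
    Round (contr r F) := by
  intro X Y hX hY hXu hYu hU
  have hne : ∀ Z : Finset {x // x ∉ F}, Z ≠ univ → up F Z ≠ univ := by
    intro Z hZ hh
    apply hZ
    rw [Finset.eq_univ_iff_forall]
    rintro ⟨a, ha⟩
    have h1 : a ∈ up F Z := by rw [hh]; exact Finset.mem_univ a
    rcases mem_up.mp h1 with h2 | ⟨_, h2⟩
    · exact absurd h2 ha
    · exact h2
  apply hr (up F X) (up F Y) (up_flat h hX) (up_flat h hY) (hne X hXu) (hne Y hYu)
  rw [← up_union, hU, up_univ]

theorem chi2_contr {r : Finset α → ℕ} (h : RankFn r) (F : Finset α) :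
    chi2 (contr r F) = k r F := by
  unfold chi2 k K f2
  rw [contr_univ]
  apply Finset.sum_nbij' (fun X => up F X) (fun Y => Y.subtype (fun a => a ∉ F))
  · intro X _
    simp [subset_up F X]
  · intro Y _; simp
  · intro X _
    ext ⟨a, ha⟩
    rw [Finset.mem_subtype, mem_up]
    constructor
    · rintro (h' | ⟨_, h'⟩)
      · exact absurd h' ha
      · exact h'
    · intro h'; exact Or.inr ⟨ha, h'⟩
  · intro Y hY
    have hFY : F ⊆ Y := (Finset.mem_Icc.mp hY).1
    ext a
    rw [mem_up]
    constructor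
    · rintro (h' | ⟨h', h''⟩)
      · exact hFY h'
      · rw [Finset.mem_subtype] at h''; exact h''
    · intro h'
      by_cases ha : a ∈ F
      · exact Or.inl ha
      · exact Or.inr ⟨ha, by rw [Finset.mem_subtype]; exact h'⟩
  · intro X _
    rw [card_up]
    have h1 : F.card + X.card + F.card = X.card + 2 * F.card := by ring
    rw [h1, pow_add, pow_mul]
    have h2 : r univ - r F - contr r F X = r univ - r (up F X) := by
      unfold contr
      have := h.mono (subset_up F X)
      omega
    rw [h2]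
    simp

theorem tCond_of_tStatement (hT : TStatement) {r : Finset α → ℕ} (h : RankFn r) (hr : Round r) :
    TCond r := by
  intro F _ _ h2 _
  have h3 := hT {x // x ∉ F} (contr r F) (contr_rankFn h F) (by rw [contr_univ]; omega)
    (contr_round h hr F)
  rw [chi2_contr h F, contr_univ] at h3
  have h4 : (-1 : ℤ) ^ (r univ + r F + 1) = (-1 : ℤ) ^ (r univ - r F + 1) := by
    have h5 : r univ + r F + 1 = (r univ - r F + 1) + 2 * r F := by
      have := h.mono (Finset.subset_univ F)
      omega
    rw [h5, pow_add, pow_mul]; simp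
  rw [h4]; exact h3

/-- Statement T implies the whole question, in the form of the frozen statement. -/
theorem main_of_tStatement (hT : TStatement) :
    ∀ (α : Type) [Fintype α] [DecidableEq α] (M : Matroid α) (n : ℕ) (r : Finset α → ℕ),
      M.E = Set.univ →
      (∀ a b : α, M.Indep ({a, b} : Set α)) →
      (∀ X : Finset α, IsGreatest
          {k : ℕ | ∃ I : Finset α, I ⊆ X ∧ M.Indep (↑I : Set α) ∧ I.card = k} (r X)) →
      (¬ ∃ F₁ F₂ : Finset α,
          (∀ e, e ∉ F₁ → r F₁ < r (insert e F₁)) ∧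
          (∀ e, e ∉ F₂ → r F₂ < r (insert e F₂)) ∧
          F₁ ≠ Finset.univ ∧ F₂ ≠ Finset.univ ∧ F₁ ∪ F₂ = Finset.univ) →
      (∑ X : Finset α, (-1 : Polynomial ℤ) ^ X.card * Polynomial.X ^ (r Finset.univ - r X))
        = ∏ i ∈ Finset.Icc 1 n, (Polynomial.X - Polynomial.C (i : ℤ)) →
      ∃ e : α ≃ {s : Sym2 (Fin (n + 1)) // ¬ s.IsDiag},
        ∀ I : Set α, M.Indep I ↔
          (SimpleGraph.fromEdgeSet (Subtype.val '' (e '' I))).IsAcyclic := by
  intro α _ _ M n r hE hp hr hround hchi
  have hrr : IsRank M r := hr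
  refine isKn_of_TCond n hE hp hrr hround hchi (tCond_of_tStatement hT hrr.rankFn ?_)
  intro F₁ F₂ h1 h2 h3 h4 h5
  exact hround ⟨F₁, F₂, h1, h2, h3, h4, h5⟩

end Pool.Agent.Helper46.FF
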