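import Pool.Agent.Helper46.FF.Count

set_option autoImplicit false
set_option linter.unusedSectionVars false
set_option linter.unusedSimpArgs false
set_option linter.deprecated false

namespace Pool.Agent.Helper46.FF

open Finset

variable {α : Type} [Fintype α] [DecidableEq α] {r : Finset α → ℕ} {m n : ℕ}

/-- A subset of an independent set is independent. -/
theorem indep_subset (h : RankFn r) {C X : Finset α} (hC : r C = C.card) (hX : X ⊆ C) :
    r X = X.card := by
  have h1 : ∀ S : Finset α, r (X ∪ S) ≤ r X + S.card := by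
    intro S
    induction S using Finset.induction_on with
    | empty => simp
    | insert a s ha ih =>
      have h2 : X ∪ insert a s = insert a (X ∪ s) := by
        ext x; simp only [mem_union, mem_insert]; tauto
      rw [h2, Finset.card_insert_of_notMem ha]
      have := h.insert_le (X ∪ s) a
      omega
  have h2 := h1 (C \ X)
  rw [Finset.union_sdiff_of_subset hX, hC, Finset.card_sdiff_of_subset hX] at h2
  have h3 := h.le_card X
  have h4 := Finset.card_le_card hX
  omega

/-- If two distinct points of a flat span a line through `e`, then `e` is in the flat. -/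
theorem mem_flat_of_line (g : Geo r n) {F : Finset α} (hF : Flat r F) {a b e : α} (hab : a ≠ b)
    (ha : a ∈ F) (hb : b ∈ F) {X : Finset α} (haX : a ∈ X) (hbX : b ∈ X) (heX : e ∈ X)
    (hX : r X ≤ 2) : e ∈ F := by
  by_contra he
  have h1 : r (insert e ({a, b} : Finset α)) ≤ r X := by
    apply g.rk.mono
    intro x hx
    simp only [mem_insert, mem_singleton] at hx
    rcases hx with h | h | h
    · rw [h]; exact heX
    · rw [h]; exact haX
    · rw [h]; exact hbX
  have h2 := g.pair a b hab
  have h3 := g.rk.le_insert {a, b} e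
  have h4 : r (insert e ({a, b} : Finset α)) = r {a, b} := by omega
  have h5 : r (insert e F) = r F := by
    apply g.rk.insert_eq_of_subset _ h4
    intro x hx
    simp only [mem_insert, mem_singleton] at hx
    rcases hx with h | h
    · rw [h]; exact ha
    · rw [h]; exact hb
  have h6 := hF e he
  omega

/-- A basis-complement flat. -/
structure BC (r : Finset α → ℕ) (n : ℕ) (F : Finset α) : Prop where
  flat : Flat r F
  card : Fᶜ.card = n
  rank : r Fᶜ = n

theorem inter_flat_card (g : Geo r n) {F : Finset α} (hF : BC r n F) {X : Finset α} {e : α}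
    (heX : e ∈ X) (heF : e ∉ F) (hX : r X ≤ 2) : (X ∩ F).card ≤ 1 := by
  by_contra hcon
  obtain ⟨a, ha, b, hb, hab⟩ := Finset.one_lt_card.mp (by omega : 1 < (X ∩ F).card)
  rw [Finset.mem_inter] at ha hb
  exact heF (mem_flat_of_line g hF.flat hab ha.2 hb.2 ha.1 hb.1 heX hX)

theorem inter_compl_card (g : Geo r n) {F : Finset α} (hF : BC r n F) {X : Finset α}
    (hX : r X ≤ 2) : (X ∩ Fᶜ).card ≤ 2 := by
  have h1 : r (X ∩ Fᶜ) = (X ∩ Fᶜ).card :=
    indep_subset g.rk (by rw [hF.rank, hF.card]) Finset.inter_subset_right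
  rw [← h1]
  exact (g.rk.mono Finset.inter_subset_left).trans hX

theorem card_split (X F : Finset α) : X.card = (X ∩ F).card + (X ∩ Fᶜ).card := by
  rw [← Finset.card_union_of_disjoint]
  · congr 1
    ext x; simp only [mem_union, mem_inter, mem_compl]; tauto
  · rw [Finset.disjoint_left]
    intro x hx hx'
    simp only [mem_inter, mem_compl] at hx hx'
    exact hx'.2 hx.2

/-- Every element avoids a basis complement. -/
def AllBC (r : Finset α → ℕ) (n : ℕ) : Prop := ∀ e : α, ∃ F : Finset α, BC r n F ∧ e ∉ F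

theorem allBC_of_TCond (g : Geo r (m + 2)) (hchi : chiPoly r = ffp (m + 2)) (hT : TCond r) :
    AllBC r (m + 2) := by
  intro e
  obtain ⟨F, h1, h2, h3, h4⟩ := exists_basis_complement g hchi hT e
  exact ⟨F, ⟨h1, h3, h4⟩, h2⟩

theorem line_card_le (g : Geo r n) (hB : AllBC r n)
    (X : Finset α) (hX : r X ≤ 2) : X.card ≤ 3 := by
  rcases Finset.eq_empty_or_nonempty X with h | ⟨e, he⟩
  · rw [h]; simp
  · obtain ⟨F, hF, h2⟩ := hB e
    have h5 := inter_flat_card g hF he h2 hX
    have h6 := inter_compl_card g hF hX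
    rw [card_split X F]; omega

/-- Collinear triples. -/
def triples (r : Finset α → ℕ) : Finset (Finset α) :=
  ((univ : Finset α).powersetCard 3).filter (fun X => r X = 2)

/-- Collinear triples through `e`. -/
def triplesAt (r : Finset α → ℕ) (e : α) : Finset (Finset α) :=
  (triples r).filter (fun X => e ∈ X)

theorem mem_triples {X : Finset α} : X ∈ triples r ↔ X.card = 3 ∧ r X = 2 := by
  simp [triples, Finset.mem_powersetCard]

theorem mem_triplesAt {X : Finset α} {e : α} :
    X ∈ triplesAt r e ↔ (X.card = 3 ∧ r X = 2) ∧ e ∈ X := by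
  simp [triplesAt, mem_triples]

theorem union_rank_two (g : Geo r n) {X Y : Finset α} {a b : α} (hab : a ≠ b) (haX : a ∈ X)
    (hbX : b ∈ X) (haY : a ∈ Y) (hbY : b ∈ Y) (hX : r X ≤ 2) (hY : r Y ≤ 2) : r (X ∪ Y) ≤ 2 := by
  have h1 := g.rk.submod X Y
  have h2 : r {a, b} ≤ r (X ∩ Y) := by
    apply g.rk.mono
    intro x hx
    simp only [mem_insert, mem_singleton] at hx
    rcases hx with h | h
    · rw [h]; exact Finset.mem_inter.mpr ⟨haX, haY⟩
    · rw [h]; exact Finset.mem_inter.mpr ⟨hbX, hbY⟩
  rw [g.pair a b hab] at h2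
  omega

/-- With respect to a basis complement, a collinear triple through `e ∉ F` consists of `e`, one
other element of `Fᶜ`, and one element of `F`. -/
theorem triple_structure (g : Geo r n) {F : Finset α} (hF : BC r n F) {X : Finset α} {e : α}
    (hX : X ∈ triplesAt r e) (heF : e ∉ F) :
    ∃ x p, x ∉ F ∧ p ∈ F ∧ x ≠ e ∧ X = {e, x, p} := by
  rw [mem_triplesAt] at hX
  obtain ⟨⟨h3, h2⟩, heX⟩ := hX
  have h5 := inter_flat_card g hF heX heF h2.le
  have h6 := inter_compl_card g hF h2.le
  have h7 := card_split X F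
  have h8 : (X ∩ F).card = 1 := by omega
  have h9 : (X ∩ Fᶜ).card = 2 := by omega
  obtain ⟨p, hp⟩ := Finset.card_eq_one.mp h8
  have heXF : e ∈ X ∩ Fᶜ := Finset.mem_inter.mpr ⟨heX, Finset.mem_compl.mpr heF⟩
  have h10 : ((X ∩ Fᶜ).erase e).card = 1 := by
    rw [Finset.card_erase_of_mem heXF, h9]
  obtain ⟨x, hx⟩ := Finset.card_eq_one.mp h10
  have hx' : x ∈ (X ∩ Fᶜ).erase e := by rw [hx]; simp
  have hp' : p ∈ X ∩ F := by rw [hp]; simp
  rw [Finset.mem_erase, Finset.mem_inter, Finset.mem_compl] at hx'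
  rw [Finset.mem_inter] at hp'
  refine ⟨x, p, hx'.2.2, hp'.2, hx'.1, ?_⟩
  ext y
  simp only [mem_insert, mem_singleton]
  constructor
  · intro hy
    by_cases hyF : y ∈ F
    · right; right
      have : y ∈ X ∩ F := Finset.mem_inter.mpr ⟨hy, hyF⟩
      rw [hp] at this
      exact Finset.mem_singleton.mp this
    · by_cases hye : y = e
      · left; exact hye
      · right; left
        have : y ∈ (X ∩ Fᶜ).erase e :=
          Finset.mem_erase.mpr ⟨hye, Finset.mem_inter.mpr ⟨hy, Finset.mem_compl.mpr hyF⟩⟩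
        rw [hx] at this
        exact Finset.mem_singleton.mp this
  · rintro (h | h | h)
    · rw [h]; exact heX
    · rw [h]; exact hx'.2.1
    · rw [h]; exact hp'.1

/-- The element of `Fᶜ` other than `e` determines the triple. -/
theorem triple_inj (g : Geo r n) {F : Finset α} (hF : BC r n F) {e x p p' : α}
    (heF : e ∉ F) (hxe : x ≠ e) (hp : p ∈ F) (hp' : p' ∈ F)
    (h : r {e, x, p} ≤ 2) (h' : r {e, x, p'} ≤ 2) : p = p' := by
  by_contra hne
  have h1 := union_rank_two g (Ne.symm hxe) (X := {e, x, p}) (Y := {e, x, p'}) (by simp) (by simp)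
    (by simp) (by simp) h h'
  exact heF (mem_flat_of_line g hF.flat hne hp hp' (X := {e, x, p} ∪ {e, x, p'}) (by simp) (by simp)
    (by simp) h1)

theorem triplesAt_card_le (g : Geo r n) {F : Finset α} (hF : BC r n F) {e : α} (heF : e ∉ F) :
    (triplesAt r e).card ≤ n - 1 := by
  have h1 : (Fᶜ.erase e).card = n - 1 := by
    rw [Finset.card_erase_of_mem (Finset.mem_compl.mpr heF), hF.card]
  rw [← h1]
  have h2 : ∀ X ∈ triplesAt r e, ∃ x p, x ∉ F ∧ p ∈ F ∧ x ≠ e ∧ X = {e, x, p} :=
    fun X hX => triple_structure g hF hX heF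
  apply Finset.card_le_card_of_forall_subsingleton (fun X x => x ∉ F ∧ x ≠ e ∧ ∃ p ∈ F, X = {e, x, p})
  · intro X hX
    obtain ⟨x, p, hx, hp, hxe, hXe⟩ := h2 X hX
    exact ⟨x, Finset.mem_erase.mpr ⟨hxe, Finset.mem_compl.mpr hx⟩, hx, hxe, p, hp, hXe⟩
  · intro x _ X hX Y hY
    obtain ⟨hX1, hx, hxe, p, hp, rfl⟩ := hX
    obtain ⟨hY1, _, _, p', hp', rfl⟩ := hY
    have h3 := (mem_triplesAt.mp hX1).1.2
    have h4 := (mem_triplesAt.mp hY1).1.2
    rw [triple_inj g hF heF hxe hp hp' h3.le h4.le]

end Pool.Agent.Helper46.FF
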