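import Pool.Agent.Helper46.FF.Interface

set_option autoImplicit false
set_option linter.unusedSectionVars false
set_option linter.unusedSimpArgs false
set_option linter.deprecated false

/-! The inequality `|mu| ≤ rank * beta` for the deletions and contractions by one element
implies that a target is minimally round. -/

namespace Pool.Agent.Helper46.FF

open Finset

variable {α : Type} [Fintype α] [DecidableEq α] {r : Finset α → ℕ} {m n : ℕ}

/-- The Moebius invariant, with sign. -/
def mu0 {β : Type} [Fintype β] [DecidableEq β] (ρ : Finset β → ℕ) : ℤ :=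
  ∑ X : Finset β, (-1 : ℤ) ^ X.card * (if ρ X = ρ univ then 1 else 0)

/-- The beta invariant, with sign. -/
def be {β : Type} [Fintype β] [DecidableEq β] (ρ : Finset β → ℕ) : ℤ :=
  ∑ X : Finset β, (-1 : ℤ) ^ X.card * (ρ X : ℤ)

/-- The inequality `|mu| ≤ rank * beta`. -/
def MU {β : Type} [Fintype β] [DecidableEq β] (ρ : Finset β → ℕ) : Prop :=
  (-1 : ℤ) ^ (ρ univ) * mu0 ρ ≤ (ρ univ : ℤ) * ((-1 : ℤ) ^ (ρ univ) * be ρ)

/-- The rank function of the deletion of `F`. -/
def del (r : Finset α → ℕ) (F : Finset α) (X : Finset {x // x ∉ F}) : ℕ :=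
  r (X.map (Function.Embedding.subtype _))

/-- Alternating sum over a Boolean interval. -/
def alt (φ : Finset α → ℤ) (S T : Finset α) : ℤ :=
  ∑ X ∈ Icc S T, (-1 : ℤ) ^ (X.card + S.card) * φ X

theorem alt_congr {φ ψ : Finset α → ℤ} {S T : Finset α}
    (h : ∀ X, S ⊆ X → X ⊆ T → φ X = ψ X) : alt φ S T = alt ψ S T := by
  unfold alt
  apply Finset.sum_congr rfl
  intro X hX
  rw [Finset.mem_Icc] at hX
  rw [h X hX.1 hX.2]

theorem alt_split (φ : Finset α → ℤ) {S T : Finset α} {e : α} (heT : e ∈ T) (heS : e ∉ S) :
    alt φ S T = alt φ S (T.erase e) - alt φ (insert e S) T := by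
  unfold alt
  rw [sum_Icc_split (fun X => (-1 : ℤ) ^ (X.card + S.card) * φ X) heT heS,
    Finset.sum_add_distrib, sub_eq_add_neg]
  congr 1
  have h1 : ∑ X ∈ Icc S (T.erase e),
      (-1 : ℤ) ^ ((insert e X).card + S.card) * φ (insert e X)
      = ∑ Y ∈ Icc (insert e S) T, (-1 : ℤ) ^ (Y.card + S.card) * φ Y := by
    refine Finset.sum_bij (fun X _ => insert e X) ?_ ?_ ?_ ?_
    · intro X hX
      rw [Finset.mem_Icc] at hX ⊢
      refine ⟨Finset.insert_subset_insert _ hX.1, ?_⟩
      intro x hx
      rcases Finset.mem_insert.mp hx with h | h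
      · rw [h]; exact heT
      · exact Finset.mem_of_mem_erase (hX.2 h)
    · intro X hX Y hY hXY
      rw [Finset.mem_Icc] at hX hY
      have hX' : e ∉ X := fun h => (Finset.notMem_erase e T) (hX.2 h)
      have hY' : e ∉ Y := fun h => (Finset.notMem_erase e T) (hY.2 h)
      rw [← Finset.erase_insert hX', ← Finset.erase_insert hY', hXY]
    · intro Y hY
      rw [Finset.mem_Icc] at hY
      have heY : e ∈ Y := hY.1 (Finset.mem_insert_self _ _)
      refine ⟨Y.erase e, ?_, Finset.insert_erase heY⟩
      rw [Finset.mem_Icc]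
      refine ⟨?_, Finset.erase_subset_erase _ hY.2⟩
      intro x hx
      exact Finset.mem_erase.mpr ⟨fun hh => heS (hh ▸ hx), hY.1 (Finset.mem_insert_of_mem hx)⟩
    · intro X _; rfl
  rw [h1, ← Finset.sum_neg_distrib]
  apply Finset.sum_congr rfl
  intro Y _
  rw [Finset.card_insert_of_notMem heS]
  ring

/-- The Moebius sum of the minor `(M | T) / S`. -/
def w (r : Finset α → ℕ) (S T : Finset α) : ℤ := alt (fun X => if r X = r T then 1 else 0) S T

theorem w_nonneg {r : Finset α → ℕ} (h : RankFn r) :
    ∀ (m : ℕ) (S T : Finset α), S ⊆ T → (T \ S).card = m →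
      0 ≤ (-1 : ℤ) ^ (r T + r S) * w r S T ∧
      ((∀ e ∈ T \ S, r S < r (insert e S)) → 0 < (-1 : ℤ) ^ (r T + r S) * w r S T) := by
  intro m
  induction m with
  | zero =>
    intro S T hST hcard
    have hST' : S = T := by
      apply Finset.Subset.antisymm hST
      exact Finset.sdiff_eq_empty_iff_subset.mp (Finset.card_eq_zero.mp hcard)
    subst hST'
    have h1 : (-1 : ℤ) ^ (r S + r S) * w r S S = 1 := by
      unfold w alt
      rw [Finset.Icc_self, Finset.sum_singleton]
      simp only [if_true, mul_one]
      rw [← two_mul, ← two_mul, pow_mul, pow_mul]; simp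
    rw [h1]
    exact ⟨by norm_num, fun _ => by norm_num⟩
  | succ m ih =>
    intro S T hST hcard
    obtain ⟨e, he⟩ : (T \ S).Nonempty := by
      rw [← Finset.card_pos, hcard]; omega
    have heT : e ∈ T := (Finset.mem_sdiff.mp he).1
    have heS : e ∉ S := (Finset.mem_sdiff.mp he).2
    have hSe : S ⊆ T.erase e := by
      intro x hx
      exact Finset.mem_erase.mpr ⟨fun hh => heS (hh ▸ hx), hST hx⟩
    have hinsT : insert e S ⊆ T := by
      intro x hx
      rcases Finset.mem_insert.mp hx with h' | h'
      · rw [h']; exact heT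
      · exact hST h'
    have hc1 : (T.erase e \ S).card = m := by
      have : T.erase e \ S = (T \ S).erase e := by
        ext x; simp only [mem_sdiff, mem_erase]; tauto
      rw [this, Finset.card_erase_of_mem he, hcard]; rfl
    have hc2 : (T \ insert e S).card = m := by
      have : T \ insert e S = (T \ S).erase e := by
        ext x; simp only [mem_sdiff, mem_erase, mem_insert]; tauto
      rw [this, Finset.card_erase_of_mem he, hcard]; rfl
    have hsp : w r S T = alt (fun X => if r X = r T then 1 else 0) S (T.erase e)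
        - w r (insert e S) T := by
      unfold w
      exact alt_split _ heT heS
    obtain ⟨i1, i1'⟩ := ih S (T.erase e) hSe hc1
    obtain ⟨i2, _⟩ := ih (insert e S) T hinsT hc2
    by_cases hloop : r (insert e S) = r S
    · -- the sum vanishes
      have hz : w r S T = 0 := by
        unfold w alt
        rw [sum_Icc_split (fun X => (-1 : ℤ) ^ (X.card + S.card) * (if r X = r T then 1 else 0))
          heT heS]
        apply Finset.sum_eq_zero
        intro X hX
        rw [Finset.mem_Icc] at hX
        have heX : e ∉ X := fun h => (Finset.notMem_erase e T) (hX.2 h)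
        rw [h.insert_eq_of_subset hX.1 hloop, Finset.card_insert_of_notMem heX]
        ring
      rw [hz]
      refine ⟨by simp, ?_⟩
      intro hall
      exfalso
      have := hall e he
      omega
    · have hr1 : r (insert e S) = r S + 1 := by
        have := h.le_insert S e
        have := h.insert_le S e
        omega
      have hsign : (-1 : ℤ) ^ (r T + r (insert e S)) = - (-1 : ℤ) ^ (r T + r S) := by
        rw [hr1, ← add_assoc, pow_succ]; ring
      rw [hsign] at i2
      by_cases hcoloop : r (T.erase e) = r T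
      · have h1 : alt (fun X => if r X = r T then 1 else 0) S (T.erase e) = w r S (T.erase e) := by
          unfold w
          rw [hcoloop]
        rw [hcoloop] at i1 i1'
        rw [hsp, h1]
        constructor
        · linarith
        · intro hall
          have := i1' (by
            intro x hx
            apply hall
            rw [Finset.mem_sdiff] at hx ⊢
            exact ⟨Finset.mem_of_mem_erase hx.1, hx.2⟩)
          linarith
      · have hrT : r T = r (T.erase e) + 1 := by
          have h1 := h.insert_le (T.erase e) e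
          have h2 := h.le_insert (T.erase e) e
          rw [Finset.insert_erase heT] at h1 h2
          omega
        have h1 : alt (fun X => if r X = r T then 1 else 0) S (T.erase e) = 0 := by
          unfold alt
          apply Finset.sum_eq_zero
          intro X hX
          rw [Finset.mem_Icc] at hX
          have h3 := h.mono hX.2
          beta_reduce
          rw [if_neg (by omega)]
          ring
        -- `w (insert e S) T = w S (T.erase e)`
        have h2 : w r (insert e S) T = w r S (T.erase e) := by
          have hb : ∀ X, X ⊆ T.erase e → (r (insert e X) = r T ↔ r X = r (T.erase e)) := by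
            intro X hX
            have h3 := h.mono hX
            have h4 := h.le_insert X e
            have h5 := h.insert_le X e
            have h6 : r (insert e X) ≠ r X := by
              intro heq
              have := h.insert_eq_of_subset hX heq
              rw [Finset.insert_erase heT] at this
              omega
            omega
          have h3 : w r S T = - w r S (T.erase e) := by
            unfold w alt
            rw [sum_Icc_split (fun X => (-1 : ℤ) ^ (X.card + S.card) * (if r X = r T then 1 else 0))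
              heT heS, ← Finset.sum_neg_distrib]
            apply Finset.sum_congr rfl
            intro X hX
            rw [Finset.mem_Icc] at hX
            have heX : e ∉ X := fun h => (Finset.notMem_erase e T) (hX.2 h)
            have h7 := h.mono hX.2
            beta_reduce
            rw [if_neg (by omega), Finset.card_insert_of_notMem heX]
            by_cases h8 : r X = r (T.erase e)
            · rw [if_pos h8, if_pos ((hb X hX.2).mpr h8)]; ring
            · rw [if_neg h8, if_neg (fun hh => h8 ((hb X hX.2).mp hh))]; ring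
          rw [h1] at hsp
          linarith
        rw [hsp, h1, h2]
        have hs2 : (-1 : ℤ) ^ (r T + r S) = - (-1 : ℤ) ^ (r (T.erase e) + r S) := by
          rw [hrT]
          have : r (T.erase e) + 1 + r S = r (T.erase e) + r S + 1 := by ring
          rw [this, pow_succ]; ring
        rw [hs2]
        constructor
        · linarith
        · intro hall
          have := i1' (by
            intro x hx
            apply hall
            rw [Finset.mem_sdiff] at hx ⊢
            exact ⟨Finset.mem_of_mem_erase hx.1, hx.2⟩)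
          linarith

/-! ### Sums over the ground sets of minors -/

theorem sum_up (F : Finset α) (φ : Finset α → ℤ) :
    ∑ X : Finset {x // x ∉ F}, (-1 : ℤ) ^ X.card * φ (up F X) = alt φ F univ := by
  unfold alt
  apply Finset.sum_nbij' (fun X => up F X) (fun Y => Y.subtype (fun a => a ∉ F))
  · intro X _
    simp [subset_up F X]
  · intro Y _; simp
  · intro X _
    ext ⟨a, ha⟩
    rw [Finset.mem_subtype, mem_up]
    constructor
    · rintro (h' | ⟨_, h'⟩)
      · exact absurd h' ha
      · exact h'
    · intro h'; exact Or.inr ⟨ha, h'⟩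
  · intro Y hY
    have hFY : F ⊆ Y := (Finset.mem_Icc.mp hY).1
    ext a
    rw [mem_up]
    constructor
    · rintro (h' | ⟨h', h''⟩)
      · exact hFY h'
      · rw [Finset.mem_subtype] at h''; exact h''
    · intro h'
      by_cases ha : a ∈ F
      · exact Or.inl ha
      · exact Or.inr ⟨ha, by rw [Finset.mem_subtype]; exact h'⟩
  · intro X _
    rw [card_up]
    have h1 : F.card + X.card + F.card = X.card + 2 * F.card := by ring
    rw [h1, pow_add, pow_mul]
    simp

theorem mem_dn {F : Finset α} {X : Finset {x // x ∉ F}} {a : α} :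
    a ∈ X.map (Function.Embedding.subtype _) ↔ ∃ h : a ∉ F, (⟨a, h⟩ : {x // x ∉ F}) ∈ X := by
  rw [Finset.mem_map]
  constructor
  · rintro ⟨⟨x, hx⟩, hxX, rfl⟩
    exact ⟨hx, hxX⟩
  · rintro ⟨h, hX⟩
    exact ⟨⟨a, h⟩, hX, rfl⟩

theorem sum_dn (F : Finset α) (φ : Finset α → ℤ) :
    ∑ X : Finset {x // x ∉ F}, (-1 : ℤ) ^ X.card * φ (X.map (Function.Embedding.subtype _))
      = alt φ ∅ Fᶜ := by
  unfold alt
  apply Finset.sum_nbij' (fun X => X.map (Function.Embedding.subtype _))
    (fun Y => Y.subtype (fun a => a ∉ F))
  · intro X _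
    rw [Finset.mem_Icc]
    refine ⟨Finset.empty_subset _, ?_⟩
    intro a ha
    obtain ⟨h, _⟩ := mem_dn.mp ha
    exact Finset.mem_compl.mpr h
  · intro Y _; simp
  · intro X _
    ext ⟨a, ha⟩
    rw [Finset.mem_subtype, mem_dn]
    constructor
    · rintro ⟨_, h'⟩; exact h'
    · intro h'; exact ⟨ha, h'⟩
  · intro Y hY
    have hFY : Y ⊆ Fᶜ := (Finset.mem_Icc.mp hY).2
    ext a
    rw [mem_dn]
    constructor
    · rintro ⟨_, h'⟩
      rw [Finset.mem_subtype] at h'; exact h'
    · intro h'
      exact ⟨Finset.mem_compl.mp (hFY h'), by rw [Finset.mem_subtype]; exact h'⟩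
  · intro X _
    rw [Finset.card_map]
    simp

theorem map_univ_eq (F : Finset α) :
    (univ : Finset {x // x ∉ F}).map (Function.Embedding.subtype _) = Fᶜ := by
  ext a
  rw [mem_dn, Finset.mem_compl]
  simp

theorem del_univ (F : Finset α) : del r F univ = r Fᶜ := by
  unfold del; rw [map_univ_eq]

theorem mu0_contr (h : RankFn r) (F : Finset α) : mu0 (contr r F) = w r F univ := by
  unfold mu0 w
  rw [← sum_up]
  apply Finset.sum_congr rfl
  intro X _
  congr 1
  have h1 : contr r F X = contr r F univ ↔ r (up F X) = r univ := by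
    rw [contr_univ]
    unfold contr
    have h2 := h.mono (subset_up F X)
    have h3 := h.mono (Finset.subset_univ F)
    omega
  by_cases h2 : r (up F X) = r univ
  · rw [if_pos h2, if_pos (h1.mpr h2)]
  · rw [if_neg h2, if_neg (fun hh => h2 (h1.mp hh))]

theorem alt_const (a : ℤ) {S T : Finset α} (hST : S ⊆ T) (hne : S ≠ T) :
    alt (fun _ => a) S T = 0 := by
  unfold alt
  rw [← Finset.sum_mul, sum_Icc_neg_one_pow S T hST, if_neg hne, zero_mul]

theorem be_contr (h : RankFn r) {F : Finset α} (hF : F ≠ univ) :
    be (contr r F) = c r F univ := by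
  have h1 : be (contr r F) = alt (fun Y => (r Y : ℤ) - r F) F univ := by
    unfold be
    rw [← sum_up]
    apply Finset.sum_congr rfl
    intro X _
    congr 1
    unfold contr
    rw [Nat.cast_sub (h.mono (subset_up F X))]
  have h2 : alt (fun Y => (r Y : ℤ) - r F) F univ
      = alt (fun Y => (r Y : ℤ)) F univ - alt (fun _ => (r F : ℤ)) F univ := by
    unfold alt
    rw [← Finset.sum_sub_distrib]
    apply Finset.sum_congr rfl
    intro X _
    ring
  rw [h1, h2, alt_const _ (Finset.subset_univ F) hF, sub_zero]
  rfl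

theorem mu0_del (F : Finset α) : mu0 (del r F) = w r ∅ Fᶜ := by
  unfold mu0 w
  rw [← sum_dn]
  apply Finset.sum_congr rfl
  intro X _
  rw [del_univ]
  rfl

theorem be_del (F : Finset α) : be (del r F) = c r ∅ Fᶜ := by
  have h1 : c r ∅ Fᶜ = alt (fun X => (r X : ℤ)) ∅ Fᶜ := rfl
  unfold be
  rw [h1, ← sum_dn]
  rfl

theorem del_rankFn (h : RankFn r) (F : Finset α) : RankFn (del r F) where
  empty := by unfold del; simpa using h.empty
  le_insert := by
    intro X e
    unfold del
    rw [Finset.map_insert]
    exact h.le_insert _ _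
  insert_le := by
    intro X e
    unfold del
    rw [Finset.map_insert]
    exact h.insert_le _ _
  submod := by
    intro X Y
    unfold del
    rw [Finset.map_inter, Finset.map_union]
    exact h.submod _ _

/-- A deletion which does not split gives a round rank function. -/
theorem round_del (g : Geo r n) {e : α} (hcon : ¬ ∃ F₁ F₂ : Finset α, Flat r F₁ ∧ Flat r F₂ ∧
    F₁ ≠ univ ∧ F₂ ≠ univ ∧ e ∉ F₁ ∧ e ∉ F₂ ∧ ∀ x, x ≠ e → x ∈ F₁ ∨ x ∈ F₂) :
    Round (del r {e}) := by
  intro X Y hX hY hXu hYu hU
  have hd := del_rankFn g.rk {e}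
  have hlt : ∀ Z : Finset {x // x ∉ ({e} : Finset α)}, Flat (del r {e}) Z → Z ≠ univ →
      r (Z.map (Function.Embedding.subtype _)) < r univ := by
    intro Z hZ hZu
    have h1 := hd.flat_ne_univ_lt hZ hZu
    rw [del_univ] at h1
    exact lt_of_lt_of_le h1 (g.rk.mono (Finset.subset_univ _))
  set A := cl r (X.map (Function.Embedding.subtype _)) with hA
  set B := cl r (Y.map (Function.Embedding.subtype _)) with hB
  have hAf := g.rk.cl_flat (X.map (Function.Embedding.subtype _))
  have hBf := g.rk.cl_flat (Y.map (Function.Embedding.subtype _))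
  have hAu : A ≠ univ := by
    intro hh
    have h1 := g.rk.cl_rank (X.map (Function.Embedding.subtype _))
    rw [← hA, hh] at h1
    have := hlt X hX hXu
    omega
  have hBu : B ≠ univ := by
    intro hh
    have h1 := g.rk.cl_rank (Y.map (Function.Embedding.subtype _))
    rw [← hB, hh] at h1
    have := hlt Y hY hYu
    omega
  have hcov : ∀ x, x ≠ e → x ∈ A ∨ x ∈ B := by
    intro x hx
    have hx' : x ∉ ({e} : Finset α) := by simpa using hx
    have h1 : (⟨x, hx'⟩ : {x // x ∉ ({e} : Finset α)}) ∈ X ∪ Y := by rw [hU]; exact Finset.mem_univ _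
    rcases Finset.mem_union.mp h1 with h2 | h2
    · left
      exact subset_cl r _ (mem_dn.mpr ⟨hx', h2⟩)
    · right
      exact subset_cl r _ (mem_dn.mpr ⟨hx', h2⟩)
  have hcovall : ∀ (hh : e ∈ A ∨ e ∈ B), False := by
    intro hh
    apply g.round A B hAf hBf hAu hBu
    rw [Finset.eq_univ_iff_forall]
    intro x
    rw [Finset.mem_union]
    by_cases hxe : x = e
    · rw [hxe]; exact hh
    · exact hcov x hxe
  exact hcon ⟨A, B, hAf, hBf, hAu, hBu, fun hh => hcovall (Or.inl hh),
    fun hh => hcovall (Or.inr hh), hcov⟩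

/-- The inequality `|mu| ≤ rank * beta` for the non-splitting deletions and the contractions by
one element makes a target minimally round. -/
theorem crit_of_MU (g : Geo r (m + 2)) (hchi : chiPoly r = ffp (m + 2))
    (hdel : ∀ e : α, Round (del r {e}) → MU (del r {e}))
    (hcon : ∀ e : α, MU (contr r {e})) : Crit r := by
  classical
  intro e
  by_contra hsplit
  have hR := round_del g hsplit
  have h1 := hdel e hR
  have h2 := hcon e
  have hu : (univ : Finset α) ≠ {e} := by
    intro hh
    have h3 := g.univ_eq
    rw [hh, g.single e] at h3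
    omega
  -- the deletion has full rank
  have hrk : r ({e} : Finset α)ᶜ = m + 2 := by
    apply g.compl_rank _ (Ne.symm hu)
    intro x hx
    rw [g.single e]
    have : (insert x ({e} : Finset α)) = {x, e} := rfl
    rw [this, g.pair x e (by simpa using hx)]
    norm_num
  have hE : (univ : Finset α).erase e = ({e} : Finset α)ᶜ := by
    ext x; simp
  -- deletion-contraction
  have hw : w r ∅ univ = w r ∅ ({e} : Finset α)ᶜ - w r {e} univ := by
    unfold w
    rw [alt_split _ (Finset.mem_univ e) (Finset.notMem_empty e), hE, hrk, g.univ_eq]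
    simp
  have hc : c r ∅ univ = c r ∅ ({e} : Finset α)ᶜ - c r {e} univ := by
    have h3 := alt_split (fun X => (r X : ℤ)) (Finset.mem_univ e) (Finset.notMem_empty e)
    rw [hE] at h3
    simpa [alt, c] using h3
  -- values for the target
  have hval0 : (-1 : ℤ) ^ (m + 2) * w r ∅ univ = ((m + 2).factorial : ℤ) := by
    have h3 : w r ∅ univ = (chiPoly r).eval 0 := by
      rw [chiPoly_eval]
      unfold w alt
      have h5 : (Icc ∅ univ : Finset (Finset α)) = univ := by
        ext X; simp
      rw [h5]
      apply Finset.sum_congr rfl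
      intro X _
      have h4 : r X ≤ r univ := g.rk.mono (Finset.subset_univ _)
      beta_reduce
      by_cases h6 : r X = r univ
      · rw [if_pos h6, h6]; simp
      · rw [if_neg h6, zero_pow (by omega)]; simp
    rw [h3, hchi]
    have h7 : ∀ k : ℕ, (-1 : ℤ) ^ k * (ffp k).eval 0 = (k.factorial : ℤ) := by
      intro k
      induction k with
      | zero => simp [ffp]
      | succ k ih =>
        rw [ffp_succ, Polynomial.eval_mul, Nat.factorial_succ]
        simp only [Polynomial.eval_sub, Polynomial.eval_X, Polynomial.eval_C]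
        push_cast
        rw [pow_succ]
        linear_combination ((k : ℤ) + 1) * ih
    exact h7 (m + 2)
  have hval1 : (-1 : ℤ) ^ (m + 2) * c r ∅ univ = ((m + 1).factorial : ℤ) := by
    have h3 := nu_univ g.rk g.univ_eq hchi
    unfold nu at h3
    rw [k_univ, g.univ_eq] at h3
    have h4 : (-1 : ℤ) ^ (m + 2 + 1) = - (-1 : ℤ) ^ (m + 2) := by rw [pow_succ]; ring
    rw [h4] at h3
    linarith
  -- rewrite the two inequalities
  unfold MU at h1 h2
  rw [mu0_del, be_del, del_univ, hrk] at h1
  have hcr : contr r {e} univ = m + 1 := by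
    rw [contr_univ, g.univ_eq, g.single e]; rfl
  rw [mu0_contr g.rk, be_contr g.rk (Ne.symm hu), hcr] at h2
  have hs : (-1 : ℤ) ^ (m + 2) = - (-1 : ℤ) ^ (m + 1) := by rw [pow_succ]; ring
  -- positivity of the Moebius sum of the contraction
  have hpos : 0 < (-1 : ℤ) ^ (m + 1) * w r {e} univ := by
    have h3 := (w_nonneg g.rk _ {e} univ (Finset.subset_univ _) rfl).2 (by
      intro x hx
      rw [Finset.mem_sdiff, Finset.mem_singleton] at hx
      rw [g.single e]
      have : (insert x ({e} : Finset α)) = {x, e} := rfl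
      rw [this, g.pair x e hx.2]
      norm_num)
    rw [g.univ_eq, g.single e] at h3
    have h4 : (-1 : ℤ) ^ (m + 2 + 1) = (-1 : ℤ) ^ (m + 1) := by
      rw [pow_succ, hs]; ring
    rwa [h4] at h3
  push_cast at h1 h2
  rw [hw] at hval0
  rw [hc] at hval1
  rw [hs] at h1 hval0 hval1
  have hfac : ((m + 2).factorial : ℤ) = ((m : ℤ) + 2) * ((m + 1).factorial : ℤ) := by
    rw [Nat.factorial_succ]; push_cast; ring
  rw [hfac] at hval0
  set a := (-1 : ℤ) ^ (m + 1) * w r ∅ ({e} : Finset α)ᶜ with ha
  set b := (-1 : ℤ) ^ (m + 1) * w r {e} univ with hb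
  set p := (-1 : ℤ) ^ (m + 1) * c r ∅ ({e} : Finset α)ᶜ with hp
  set q := (-1 : ℤ) ^ (m + 1) * c r {e} univ with hq
  have e0 : -a + b = ((m : ℤ) + 2) * ((m + 1).factorial : ℤ) := by
    rw [ha, hb]; linear_combination hval0
  have e1 : -p + q = ((m + 1).factorial : ℤ) := by
    rw [hp, hq]; linear_combination hval1
  have i1 : -a ≤ ((m : ℤ) + 2) * (-p) := by
    rw [ha, hp]; linarith
  have i2 : b ≤ ((m : ℤ) + 1) * q := h2
  have hqpos : 0 < q := by
    by_contra hq0
    push Not at hq0
    have : ((m : ℤ) + 1) * q ≤ 0 := by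
      apply mul_nonpos_of_nonneg_of_nonpos _ hq0
      positivity
    linarith
  nlinarith

/-- The inequality `|mu| ≤ rank * beta` for all non-splitting finite matroids of positive rank. -/
def MUStatement : Prop :=
  ∀ (β : Type) [Fintype β] [DecidableEq β] (ρ : Finset β → ℕ), RankFn ρ → 1 ≤ ρ univ →
    Round ρ → MU ρ

/-- The target question for one geometry from the inequality for its minors. -/
theorem isKn_of_MU {M : Matroid α} (n : ℕ) (hE : M.E = Set.univ)
    (hp : ∀ a b : α, M.Indep ({a, b} : Set α)) (hr : IsRank M r)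
    (hround : ¬ ∃ F₁ F₂ : Finset α,
          (∀ e, e ∉ F₁ → r F₁ < r (insert e F₁)) ∧
          (∀ e, e ∉ F₂ → r F₂ < r (insert e F₂)) ∧
          F₁ ≠ Finset.univ ∧ F₂ ≠ Finset.univ ∧ F₁ ∪ F₂ = Finset.univ)
    (hchi : chiPoly r = ffp n)
    (hdel : 2 ≤ n → ∀ e : α, Round (del r {e}) → MU (del r {e}))
    (hcon : 2 ≤ n → ∀ e : α, MU (contr r {e})) : IsKn M n := by
  have g := geo_of_hyps hp hr hround hchi
  apply isKn_of_allBC n hE hp hr g hchi
  rintro m rfl
  exact allBC_of_crit g hchi (crit_of_MU g hchi (hdel (by omega)) (hcon (by omega)))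

/-- The general inequality implies the whole question, in the form of the frozen statement. -/
theorem main_of_MUStatement (hMU : MUStatement) :
    ∀ (α : Type) [Fintype α] [DecidableEq α] (M : Matroid α) (n : ℕ) (r : Finset α → ℕ),
      M.E = Set.univ →
      (∀ a b : α, M.Indep ({a, b} : Set α)) →
      (∀ X : Finset α, IsGreatest
          {k : ℕ | ∃ I : Finset α, I ⊆ X ∧ M.Indep (↑I : Set α) ∧ I.card = k} (r X)) →
      (¬ ∃ F₁ F₂ : Finset α,
          (∀ e, e ∉ F₁ → r F₁ < r (insert e F₁)) ∧
          (∀ e, e ∉ F₂ → r F₂ < r (insert e F₂)) ∧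
          F₁ ≠ Finset.univ ∧ F₂ ≠ Finset.univ ∧ F₁ ∪ F₂ = Finset.univ) →
      (∑ X : Finset α, (-1 : Polynomial ℤ) ^ X.card * Polynomial.X ^ (r Finset.univ - r X))
        = ∏ i ∈ Finset.Icc 1 n, (Polynomial.X - Polynomial.C (i : ℤ)) →
      ∃ e : α ≃ {s : Sym2 (Fin (n + 1)) // ¬ s.IsDiag},
        ∀ I : Set α, M.Indep I ↔
          (SimpleGraph.fromEdgeSet (Subtype.val '' (e '' I))).IsAcyclic := by
  intro α _ _ M n r hE hp hr hround hchi
  have hrr : IsRank M r := hr
  have g := geo_of_hyps hp hrr hround hchi
  have hR : Round r := fun F₁ F₂ h1 h2 h3 h4 h5 => hround ⟨F₁, F₂, h1, h2, h3, h4, h5⟩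
  refine isKn_of_MU n hE hp hrr hround hchi ?_ ?_
  · intro hn e hRd
    refine hMU _ _ (del_rankFn g.rk {e}) ?_ hRd
    rw [del_univ]
    obtain ⟨m, rfl⟩ : ∃ m, n = m + 2 := ⟨n - 2, by omega⟩
    have hu : ({e} : Finset α) ≠ univ := by
      intro hh
      have h3 := g.univ_eq
      rw [← hh, g.single e] at h3
      omega
    rw [g.compl_rank _ hu]
    · omega
    · intro x hx
      rw [g.single e]
      have : (insert x ({e} : Finset α)) = {x, e} := rfl
      rw [this, g.pair x e (by simpa using hx)]
      norm_num
  · intro hn e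
    refine hMU _ _ (contr_rankFn g.rk {e}) ?_ (contr_round g.rk hR {e})
    rw [contr_univ, g.univ_eq, g.single e]
    omega

end Pool.Agent.Helper46.FF
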