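import Pool.Agent.Helper46.FF.Build

set_option autoImplicit false
set_option linter.unusedSectionVars false
set_option linter.unusedSimpArgs false
set_option linter.deprecated false

namespace Pool.Agent.Helper46.FF

open Finset

variable {α : Type} [Fintype α] [DecidableEq α] {M : Matroid α} {r : Finset α → ℕ}

/-- `r` is the rank function of `M`, in the form used by the frozen statement. -/
def IsRank (M : Matroid α) (r : Finset α → ℕ) : Prop :=
  ∀ X : Finset α, IsGreatest
    {k : ℕ | ∃ I : Finset α, I ⊆ X ∧ M.Indep (↑I : Set α) ∧ I.card = k} (r X)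

theorem IsRank.eRk (hr : IsRank M r) (X : Finset α) : M.eRk (X : Set α) = (r X : ℕ∞) := by
  classical
  apply le_antisymm
  · rw [Matroid.eRk_le_iff]
    intro I hIX hI
    have hfin : I.Finite := X.finite_toSet.subset hIX
    obtain ⟨J, rfl⟩ := hfin.exists_finset_coe
    rw [Set.encard_coe_eq_coe_finsetCard]
    have h1 : J.card ≤ r X := (hr X).2 ⟨J, by exact_mod_cast hIX, hI, rfl⟩
    exact_mod_cast h1
  · obtain ⟨I, hIX, hI, hc⟩ := (hr X).1
    have h1 := hI.encard_le_eRk_of_subset (X := (X : Set α)) (by exact_mod_cast hIX)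
    rw [Set.encard_coe_eq_coe_finsetCard, hc] at h1
    exact h1

theorem IsRank.rankFn (hr : IsRank M r) : RankFn r where
  empty := by
    have h1 := hr.eRk (∅ : Finset α)
    simp only [Finset.coe_empty, Matroid.eRk_empty] at h1
    exact_mod_cast h1.symm
  le_insert := by
    intro X e
    have h1 := M.eRk_mono (show (X : Set α) ⊆ ((insert e X : Finset α) : Set α) by
      exact_mod_cast Finset.subset_insert e X)
    rw [hr.eRk, hr.eRk] at h1
    exact_mod_cast h1
  insert_le := by
    intro X e
    have h1 := M.eRk_insert_le_add_one e (X : Set α)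
    rw [← Finset.coe_insert, hr.eRk, hr.eRk] at h1
    exact_mod_cast h1
  submod := by
    intro X Y
    have h1 := M.eRk_inter_add_eRk_union_le (X : Set α) (Y : Set α)
    rw [← Finset.coe_inter, ← Finset.coe_union, hr.eRk, hr.eRk, hr.eRk, hr.eRk] at h1
    exact_mod_cast h1

theorem IsRank.indep_iff (hr : IsRank M r) (I : Finset α) :
    M.Indep (I : Set α) ↔ r I = I.card := by
  rw [Matroid.indep_iff_eRk_eq_encard_of_finite I.finite_toSet, hr.eRk,
    Set.encard_coe_eq_coe_finsetCard]
  exact_mod_cast Iff.rfl

theorem IsRank.pair (hr : IsRank M r) (hp : ∀ a b : α, M.Indep ({a, b} : Set α)) (a b : α)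
    (hab : a ≠ b) : r {a, b} = 2 := by
  have h1 := hp a b
  have h2 : (({a, b} : Finset α) : Set α) = {a, b} := by push_cast; rfl
  rw [← h2, hr.indep_iff, Finset.card_pair hab] at h1
  exact h1

theorem IsRank.single (hr : IsRank M r) (hp : ∀ a b : α, M.Indep ({a, b} : Set α)) (a : α) :
    r {a} = 1 := by
  have h1 := hp a a
  have h2 : (({a} : Finset α) : Set α) = {a, a} := by simp
  rw [← h2, hr.indep_iff, Finset.card_singleton] at h1
  exact h1

theorem coeff_rank (h : RankFn r) (hs : ∀ a : α, r {a} = 1) : (chiPoly r).coeff (r univ) = 1 := by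
  rw [chiPoly_coeff]
  have h1 : (univ : Finset (Finset α)).filter (fun X => r univ - r X = r univ) ⊆
      {∅} ∪ (if r univ = 0 then {∅} else ∅) := by
    intro X hX
    rw [Finset.mem_filter] at hX
    have h2 := h.mono (Finset.subset_univ X)
    have h3 : r X = 0 := by omega
    rcases Finset.eq_empty_or_nonempty X with hE | ⟨a, ha⟩
    · rw [hE]; simp
    · exfalso
      have h4 := h.mono (Finset.singleton_subset_iff.mpr ha)
      rw [hs a] at h4; omega
  have h5 : (univ : Finset (Finset α)).filter (fun X => r univ - r X = r univ) = {∅} := by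
    apply Finset.Subset.antisymm
    · intro X hX
      have := h1 hX
      split_ifs at this <;> simpa using this
    · intro X hX
      rw [Finset.mem_singleton] at hX
      rw [hX, Finset.mem_filter, h.empty]
      exact ⟨Finset.mem_univ _, by omega⟩
  rw [h5]; simp

theorem chiPoly_natDegree_le : (chiPoly r).natDegree ≤ r univ := by
  rw [Polynomial.natDegree_le_iff_coeff_eq_zero]
  intro N hN
  rw [chiPoly_coeff]
  apply Finset.sum_eq_zero
  intro X hX
  exfalso
  have := (Finset.mem_filter.mp hX).2
  omega

theorem rank_eq (h : RankFn r) (hs : ∀ a : α, r {a} = 1) {n : ℕ} (hchi : chiPoly r = ffp n) :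
    r univ = n := by
  have h1 := coeff_rank h hs
  have h2 : (chiPoly r).natDegree = r univ := by
    apply le_antisymm chiPoly_natDegree_le
    apply Polynomial.le_natDegree_of_ne_zero
    rw [h1]; exact one_ne_zero
  rw [hchi, ffp_natDegree] at h2
  exact h2.symm

end Pool.Agent.Helper46.FF
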