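import Pool.Agent.Helper46.FF.Ident

set_option autoImplicit false
set_option linter.unusedSectionVars false
set_option linter.unusedSimpArgs false
set_option linter.deprecated false

namespace Pool.Agent.Helper46.FF

open Finset

/-- The falling factorial polynomial `(X-1)...(X-n)`. -/
noncomputable def ffp (n : ℕ) : Polynomial ℤ :=
  ∏ i ∈ Finset.Icc 1 n, (Polynomial.X - Polynomial.C (i : ℤ))

theorem ffp_succ (n : ℕ) :
    ffp (n + 1) = ffp n * (Polynomial.X - Polynomial.C ((n : ℤ) + 1)) := by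
  unfold ffp
  rw [Finset.prod_Icc_succ_top (by omega)]
  push_cast
  rfl

theorem ffp_monic (n : ℕ) : (ffp n).Monic := by
  unfold ffp
  exact Polynomial.monic_prod_of_monic _ _ (fun i _ => Polynomial.monic_X_sub_C _)

theorem ffp_natDegree (n : ℕ) : (ffp n).natDegree = n := by
  unfold ffp
  rw [Polynomial.natDegree_prod_of_monic _ _ (fun i _ => Polynomial.monic_X_sub_C _)]
  simp only [Polynomial.natDegree_X_sub_C]
  simp

theorem ffp_coeff_self (n : ℕ) : (ffp n).coeff n = 1 := by
  have := (ffp_monic n).coeff_natDegree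
  rwa [ffp_natDegree] at this

theorem coeff_mul_X_sub_C' (p : Polynomial ℤ) (a : ℤ) (j : ℕ) :
    (p * (Polynomial.X - Polynomial.C a)).coeff (j + 1) = p.coeff j - a * p.coeff (j + 1) := by
  rw [mul_sub, Polynomial.coeff_sub, Polynomial.coeff_mul_X, Polynomial.coeff_mul_C]
  ring

theorem ffp_coeff_one (n : ℕ) : 2 * (ffp (n + 1)).coeff n = -((n : ℤ) + 1) * ((n : ℤ) + 2) := by
  induction n with
  | zero =>
    simp [ffp]
  | succ n ih =>
    rw [ffp_succ, coeff_mul_X_sub_C', ffp_coeff_self]
    push_cast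
    linarith

theorem ffp_coeff_two (n : ℕ) :
    24 * (ffp (n + 2)).coeff n = ((n : ℤ) + 1) * ((n : ℤ) + 2) * ((n : ℤ) + 3) * (3 * (n : ℤ) + 8) := by
  induction n with
  | zero =>
    have h : (ffp 2).coeff 0 = 2 := by
      rw [Polynomial.coeff_zero_eq_eval_zero]
      unfold ffp
      rw [Polynomial.eval_prod]
      have h12 : Finset.Icc 1 2 = {1, 2} := by decide
      rw [h12]
      simp
    simp only [Nat.zero_add]
    rw [h]; norm_num
  | succ n ih =>
    rw [ffp_succ, coeff_mul_X_sub_C']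
    have h1 := ffp_coeff_one (n + 1)
    push_cast at h1 ⊢
    have h2 : (ffp (n + 1 + 1)).coeff (n + 1) = (ffp (n + 2)).coeff (n + 1) := rfl
    linear_combination ih - 12 * ((n : ℤ) + 2 + 1) * h1

theorem derivative_eval_of_factor (n a : ℕ) (ha : a ∈ Finset.Icc 1 n) :
    (Polynomial.derivative (ffp n)).eval (a : ℤ)
      = ∏ i ∈ (Finset.Icc 1 n).erase a, ((a : ℤ) - (i : ℤ)) := by
  unfold ffp
  rw [← Finset.mul_prod_erase _ _ ha, Polynomial.derivative_mul]
  simp [Polynomial.eval_prod]

theorem prod_two (n : ℕ) :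
    ∏ i ∈ (Finset.Icc 1 (n + 2)).erase 2, ((2 : ℤ) - (i : ℤ)) = (-1) ^ n * (n.factorial : ℤ) := by
  induction n with
  | zero =>
    decide
  | succ n ih =>
    have h1 : (Finset.Icc 1 (n + 1 + 2)).erase 2
        = insert (n + 3) ((Finset.Icc 1 (n + 2)).erase 2) := by
      ext x
      simp only [Finset.mem_erase, Finset.mem_Icc, Finset.mem_insert]
      omega
    rw [h1, Finset.prod_insert, ih, Nat.factorial_succ]
    · push_cast; ring
    · simp

theorem prod_one (n : ℕ) :
    ∏ i ∈ (Finset.Icc 1 (n + 1)).erase 1, ((1 : ℤ) - (i : ℤ)) = (-1) ^ n * (n.factorial : ℤ) := by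
  induction n with
  | zero =>
    decide
  | succ n ih =>
    have h1 : (Finset.Icc 1 (n + 1 + 1)).erase 1
        = insert (n + 2) ((Finset.Icc 1 (n + 1)).erase 1) := by
      ext x
      simp only [Finset.mem_erase, Finset.mem_Icc, Finset.mem_insert]
      omega
    rw [h1, Finset.prod_insert, ih, Nat.factorial_succ]
    · push_cast; ring
    · simp

variable {α : Type} [Fintype α] [DecidableEq α]

/-- The characteristic polynomial of a rank function. -/
noncomputable def chiPoly (r : Finset α → ℕ) : Polynomial ℤ :=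
  ∑ X : Finset α, (-1 : Polynomial ℤ) ^ X.card * Polynomial.X ^ (r univ - r X)

theorem neg_one_pow_eq_C (m : ℕ) : (-1 : Polynomial ℤ) ^ m = Polynomial.C ((-1 : ℤ) ^ m) := by
  simp

theorem chiPoly_coeff (r : Finset α → ℕ) (j : ℕ) :
    (chiPoly r).coeff j
      = ∑ X ∈ (univ : Finset (Finset α)).filter (fun X => r univ - r X = j), (-1 : ℤ) ^ X.card := by
  unfold chiPoly
  rw [Polynomial.finset_sum_coeff, Finset.sum_filter]
  apply Finset.sum_congr rfl
  intro X _
  rw [neg_one_pow_eq_C, Polynomial.coeff_C_mul, Polynomial.coeff_X_pow]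
  by_cases h : j = r univ - r X
  · rw [if_pos h, if_pos h.symm]; ring
  · rw [if_neg h, if_neg (fun hh => h hh.symm)]; ring

theorem chiPoly_eval (r : Finset α → ℕ) (x : ℤ) :
    (chiPoly r).eval x = ∑ X : Finset α, (-1 : ℤ) ^ X.card * x ^ (r univ - r X) := by
  unfold chiPoly
  rw [Polynomial.eval_finset_sum]
  apply Finset.sum_congr rfl
  intro X _
  simp

theorem chiPoly_derivative_eval (r : Finset α → ℕ) (x : ℤ) :
    x * (Polynomial.derivative (chiPoly r)).eval x
      = ∑ X : Finset α, (-1 : ℤ) ^ X.card * (((r univ - r X : ℕ) : ℤ) * x ^ (r univ - r X)) := by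
  unfold chiPoly
  rw [Polynomial.derivative_sum, Polynomial.eval_finset_sum, Finset.mul_sum]
  apply Finset.sum_congr rfl
  intro X _
  rw [neg_one_pow_eq_C, Polynomial.derivative_C_mul, Polynomial.eval_mul, Polynomial.eval_C,
    Polynomial.derivative_X_pow]
  simp only [Polynomial.eval_mul, Polynomial.eval_C, Polynomial.eval_pow, Polynomial.eval_X,
    Polynomial.eval_natCast]
  rcases Nat.eq_zero_or_pos (r univ - r X) with h | h
  · rw [h]; simp
  · obtain ⟨d, hd⟩ : ∃ d, r univ - r X = d + 1 := ⟨r univ - r X - 1, by omega⟩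
    rw [hd]
    simp only [Nat.add_sub_cancel]
    simp
    ring

end Pool.Agent.Helper46.FF
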