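import Pool.Agent.Helper46.FF.MU
import Pool.Agent.Helper83.DC.MU

set_option autoImplicit false
set_option linter.unusedSectionVars false
set_option linter.unusedSimpArgs false
set_option linter.deprecated false

/-! The inequality `|mu| ≤ rank * beta` for the minors of a rank function follows from the same
inequality for the minimally round minors; it holds for representable ones by `mu_le_rep`. -/

namespace Pool.Agent.Helper46.FF

open Finset

variable {α : Type} [Fintype α] [DecidableEq α] {r : Finset α → ℕ}

/-- The minor with ground set `T \ S`, contraction of `S`, is round. -/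
def RoundI (r : Finset α → ℕ) (S T : Finset α) : Prop :=
  ∀ X, S ⊆ X → X ⊆ T → r X = r T ∨ r (S ∪ (T \ X)) = r T

/-- The minor with ground set `T \ S`, contraction of `S`, is representable over some field. -/
def RepI (r : Finset α → ℕ) (S T : Finset α) : Prop :=
  ∃ (K : Type) (_ : Field K) (V : Type) (_ : AddCommGroup V) (_ : Module K V) (v : α → V),
    ∀ X, X ⊆ T \ S → r (S ∪ X) = r S + Module.finrank K (Submodule.span K (v '' (X : Set α)))

/-- The inequality `|mu| ≤ rank * beta` for a minor. -/
def MUI (r : Finset α → ℕ) (S T : Finset α) : Prop :=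
  (-1 : ℤ) ^ (r T + r S) * w r S T ≤ ((r T : ℤ) - r S) * ((-1 : ℤ) ^ (r T + r S) * c r S T)

theorem c_eq_alt (S T : Finset α) : c r S T = alt (fun X => (r X : ℤ)) S T := rfl

/-- Alternating sums vanish when a loop can be toggled. -/
theorem alt_loop {φ : Finset α → ℤ} {S T : Finset α} {e : α} (heT : e ∈ T) (heS : e ∉ S)
    (h : ∀ X, S ⊆ X → X ⊆ T → φ (insert e X) = φ X) : alt φ S T = 0 := by
  unfold alt
  rw [sum_Icc_split (fun X => (-1 : ℤ) ^ (X.card + S.card) * φ X) heT heS]
  apply Finset.sum_eq_zero
  intro X hX
  rw [Finset.mem_Icc] at hX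
  have heX : e ∉ X := fun h => (Finset.notMem_erase e T) (hX.2 h)
  rw [h X hX.1 (hX.2.trans (Finset.erase_subset _ _)), Finset.card_insert_of_notMem heX]
  ring

theorem RoundI.insert_of (h : RankFn r) {S T : Finset α} (hR : RoundI r S T) {e : α} :
    RoundI r (insert e S) T := by
  intro X hX hXT
  rcases hR X (fun x hx => hX (Finset.mem_insert_of_mem hx)) hXT with h1 | h1
  · exact Or.inl h1
  · right
    have h2 : S ∪ (T \ X) ⊆ insert e S ∪ (T \ X) :=
      Finset.union_subset_union (Finset.subset_insert _ _) (le_refl _)
    have h3 := h.mono h2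
    have h4 : insert e S ∪ (T \ X) ⊆ T := by
      intro x hx
      rcases Finset.mem_union.mp hx with h' | h'
      · exact hXT (hX h')
      · exact (Finset.mem_sdiff.mp h').1
    have h5 := h.mono h4
    omega

/-- Deletion-contraction for the inequality. -/
theorem MUI_step (h : RankFn r) {S T : Finset α} {e : α} (hST : S ⊆ T) (heT : e ∈ T)
    (heS : e ∉ S) (hlt : r S < r T) (hrk : r (T.erase e) = r T)
    (h1 : MUI r S (T.erase e)) (h2 : r (insert e S) < r T → MUI r (insert e S) T) :
    MUI r S T := by
  have hins : insert e S ⊆ T := by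
    intro x hx
    rcases Finset.mem_insert.mp hx with h' | h'
    · rw [h']; exact heT
    · exact hST h'
  have hw : w r S T = w r S (T.erase e) - w r (insert e S) T := by
    unfold w
    rw [alt_split _ heT heS, hrk]
  have hc : c r S T = c r S (T.erase e) - c r (insert e S) T := by
    rw [c_eq_alt, c_eq_alt, c_eq_alt]
    exact alt_split _ heT heS
  have hge := h.le_insert S e
  have hle := h.insert_le S e
  unfold MUI at h1 ⊢
  rw [hrk] at h1
  by_cases hloop : r (insert e S) = r S
  · have hX : ∀ X, S ⊆ X → r (insert e X) = r X := fun X hX => h.insert_eq_of_subset hX hloop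
    have hw0 : w r S T = 0 := alt_loop heT heS fun X hX1 _ => by rw [hX X hX1]
    have hc0 : c r S T = 0 := by
      rw [c_eq_alt]
      exact alt_loop heT heS fun X hX1 _ => by rw [hX X hX1]
    rw [hw0, hc0]
    simp
  · by_cases hr1 : r (insert e S) = r T
    · -- rank one
      have hne : insert e S ≠ T := by
        intro hh
        have : T.erase e = S := by
          rw [← hh, Finset.erase_insert heS]
        rw [this] at hrk
        omega
      have hall : ∀ X, insert e S ⊆ X → X ⊆ T → r X = r T := by
        intro X h3 h4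
        have h5 := h.mono h3
        have h6 := h.mono h4
        omega
      have hw0 : w r (insert e S) T = 0 := by
        unfold w
        rw [alt_congr (ψ := fun _ => (1 : ℤ)) (fun X h3 h4 => by rw [if_pos (hall X h3 h4)])]
        exact alt_const _ hins hne
      have hc0 : c r (insert e S) T = 0 := by
        rw [c_eq_alt, alt_congr (ψ := fun _ => (r T : ℤ)) (fun X h3 h4 => by rw [hall X h3 h4])]
        exact alt_const _ hins hne
      rw [hw, hc, hw0, hc0, sub_zero, sub_zero]
      exact h1
    · have hlt2 : r (insert e S) < r T := by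
        have := h.mono hins
        omega
      have h3 := h2 hlt2
      have hr2 : r (insert e S) = r S + 1 := by omega
      unfold MUI at h3
      have hb : 0 ≤ (-1 : ℤ) ^ (r T + r (insert e S)) * c r (insert e S) T :=
        beta_nonneg h _ (insert e S) T hins (fun hh => by rw [hh] at hlt2; omega) rfl
      have hs : (-1 : ℤ) ^ (r T + r (insert e S)) = - (-1 : ℤ) ^ (r T + r S) := by
        rw [hr2, ← add_assoc, pow_succ]; ring
      rw [hs] at h3 hb
      rw [hr2] at h3
      push_cast at h3
      rw [hw, hc]
      set s := (-1 : ℤ) ^ (r T + r S)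
      nlinarith

/-- The inequality for all proper round minors from the minimally round ones. -/
theorem MUI_of_min (h : RankFn r)
    (hyp : ∀ S T, S ⊆ T → (S.Nonempty ∨ T ≠ univ) → r S < r T → RoundI r S T →
      (∀ e ∈ T \ S, ¬ (r (T.erase e) = r T ∧ RoundI r S (T.erase e))) → MUI r S T) :
    ∀ (m : ℕ) (S T : Finset α), S ⊆ T → (S.Nonempty ∨ T ≠ univ) → (T \ S).card = m →
      r S < r T → RoundI r S T → MUI r S T := by
  intro m
  induction m with
  | zero =>
    intro S T hST _ hcard hlt _
    exfalso
    have : S = T := by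
      apply Finset.Subset.antisymm hST
      exact Finset.sdiff_eq_empty_iff_subset.mp (Finset.card_eq_zero.mp hcard)
    rw [this] at hlt
    omega
  | succ m ih =>
    intro S T hST hprop hcard hlt hR
    by_cases hmin : ∀ e ∈ T \ S, ¬ (r (T.erase e) = r T ∧ RoundI r S (T.erase e))
    · exact hyp S T hST hprop hlt hR hmin
    · push Not at hmin
      obtain ⟨e, he, hrk, hR2⟩ := hmin
      have heT : e ∈ T := (Finset.mem_sdiff.mp he).1
      have heS : e ∉ S := (Finset.mem_sdiff.mp he).2
      have hSe : S ⊆ T.erase e := by
        intro x hx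
        exact Finset.mem_erase.mpr ⟨fun hh => heS (hh ▸ hx), hST hx⟩
      have hinsT : insert e S ⊆ T := by
        intro x hx
        rcases Finset.mem_insert.mp hx with h' | h'
        · rw [h']; exact heT
        · exact hST h'
      have hc1 : (T.erase e \ S).card = m := by
        have : T.erase e \ S = (T \ S).erase e := by
          ext x; simp only [mem_sdiff, mem_erase]; tauto
        rw [this, Finset.card_erase_of_mem he, hcard]; rfl
      have hc2 : (T \ insert e S).card = m := by
        have : T \ insert e S = (T \ S).erase e := by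
          ext x; simp only [mem_sdiff, mem_erase, mem_insert]; tauto
        rw [this, Finset.card_erase_of_mem he, hcard]; rfl
      exact MUI_step h hST heT heS hlt hrk
        (ih S (T.erase e) hSe (Or.inr fun hh => Finset.notMem_erase e T (hh ▸ Finset.mem_univ e))
          hc1 (by rw [hrk]; exact hlt) hR2)
        (fun hlt2 => ih (insert e S) T hinsT (Or.inl ⟨e, Finset.mem_insert_self _ _⟩) hc2 hlt2
          (RoundI.insert_of h hR))

/-! ### Representable minors -/

/-- Sums over the subsets of the ground set of a minor. -/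
theorem sum_int (S T : Finset α) (hST : S ⊆ T) (φ : Finset α → ℤ) :
    ∑ X : Finset {x // x ∈ T \ S},
      (-1 : ℤ) ^ X.card * φ (S ∪ X.map (Function.Embedding.subtype _)) = alt φ S T := by
  unfold alt
  have hmem : ∀ (X : Finset {x // x ∈ T \ S}) (a : α),
      a ∈ X.map (Function.Embedding.subtype _) ↔ ∃ h : a ∈ T \ S, (⟨a, h⟩ : {x // x ∈ T \ S}) ∈ X := by
    intro X a
    rw [Finset.mem_map]
    constructor
    · rintro ⟨⟨x, hx⟩, hxX, rfl⟩
      exact ⟨hx, hxX⟩
    · rintro ⟨h, hX⟩
      exact ⟨⟨a, h⟩, hX, rfl⟩
  apply Finset.sum_nbij' (fun X => S ∪ X.map (Function.Embedding.subtype _))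
    (fun Y => Y.subtype (fun a => a ∈ T \ S))
  · intro X _
    rw [Finset.mem_Icc]
    refine ⟨Finset.subset_union_left, ?_⟩
    intro a ha
    rcases Finset.mem_union.mp ha with h' | h'
    · exact hST h'
    · obtain ⟨h'', _⟩ := (hmem X a).mp h'
      exact (Finset.mem_sdiff.mp h'').1
  · intro Y _; simp
  · intro X _
    ext ⟨a, ha⟩
    rw [Finset.mem_subtype, Finset.mem_union, hmem]
    constructor
    · rintro (h' | ⟨_, h'⟩)
      · exact absurd h' (Finset.mem_sdiff.mp ha).2
      · exact h'
    · intro h'
      exact Or.inr ⟨ha, h'⟩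
  · intro Y hY
    have hY' := Finset.mem_Icc.mp hY
    ext a
    rw [Finset.mem_union, hmem]
    constructor
    · rintro (h' | ⟨_, h'⟩)
      · exact hY'.1 h'
      · rw [Finset.mem_subtype] at h'; exact h'
    · intro h'
      by_cases haS : a ∈ S
      · exact Or.inl haS
      · exact Or.inr ⟨Finset.mem_sdiff.mpr ⟨hY'.2 h', haS⟩, by rw [Finset.mem_subtype]; exact h'⟩
  · intro X _
    have hdisj : Disjoint S (X.map (Function.Embedding.subtype _)) := by
      rw [Finset.disjoint_left]
      intro a haS ha
      obtain ⟨h', _⟩ := (hmem X a).mp ha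
      exact (Finset.mem_sdiff.mp h').2 haS
    rw [Finset.card_union_of_disjoint hdisj, Finset.card_map]
    have h1 : S.card + X.card + S.card = X.card + 2 * S.card := by ring
    rw [h1, pow_add, pow_mul]
    simp

theorem mem_map_sub {S T : Finset α} {X : Finset {x // x ∈ T \ S}} {a : α} :
    a ∈ X.map (Function.Embedding.subtype _) ↔
      ∃ h : a ∈ T \ S, (⟨a, h⟩ : {x // x ∈ T \ S}) ∈ X := by
  rw [Finset.mem_map]
  constructor
  · rintro ⟨⟨x, hx⟩, hxX, rfl⟩
    exact ⟨hx, hxX⟩
  · rintro ⟨h, hX⟩
    exact ⟨⟨a, h⟩, hX, rfl⟩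

/-- The inequality for representable round minors. -/
theorem MUI_of_rep {S T : Finset α} (hST : S ⊆ T) (hlt : r S < r T)
    (hR : RoundI r S T) (hrep : RepI r S T) : MUI r S T := by
  obtain ⟨K, _, V, _, _, v, hv⟩ := hrep
  -- pass to the span
  have hve : ∀ e : {x // x ∈ T \ S}, v e ∈ Submodule.span K (v '' ((T \ S : Finset α) : Set α)) :=
    fun e => Submodule.subset_span ⟨e, e.2, rfl⟩
  let u : {x // x ∈ T \ S} → Submodule.span K (v '' ((T \ S : Finset α) : Set α)) :=
    fun e => ⟨v e, hve e⟩
  have hfin : FiniteDimensional K (Submodule.span K (v '' ((T \ S : Finset α) : Set α))) :=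
    FiniteDimensional.span_of_finite K ((Finset.finite_toSet _).image v)
  have hsubT : ∀ X : Finset {x // x ∈ T \ S}, X.map (Function.Embedding.subtype _) ⊆ T \ S := by
    intro X a ha
    exact (mem_map_sub.mp ha).1
  have hrk : ∀ X : Finset {x // x ∈ T \ S},
      r (S ∪ X.map (Function.Embedding.subtype _)) = r S + Helper83.DC.rk K u X := by
    intro X
    rw [hv _ (hsubT X)]
    congr 1
    have h1 : Helper83.DC.rk K u X = Helper83.DC.rk K (fun e : {x // x ∈ T \ S} => v e) X :=
      Helper83.DC.rk_subtype _ (fun e : {x // x ∈ T \ S} => v e) hve X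
    rw [h1]
    unfold Helper83.DC.rk
    have h2 : v '' ((X.map (Function.Embedding.subtype fun x => x ∈ T \ S) : Finset α) : Set α) =
        (fun e : {x // x ∈ T \ S} => v e) '' (X : Set {x // x ∈ T \ S}) := by
      rw [Finset.coe_map, Set.image_image]
      rfl
    rw [h2]
  have hmapuniv : S ∪ (univ : Finset {x // x ∈ T \ S}).map (Function.Embedding.subtype _) = T := by
    ext a
    rw [Finset.mem_union, mem_map_sub]
    constructor
    · rintro (h' | ⟨h', _⟩)
      · exact hST h'
      · exact (Finset.mem_sdiff.mp h').1
    · intro h'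
      by_cases haS : a ∈ S
      · exact Or.inl haS
      · exact Or.inr ⟨Finset.mem_sdiff.mpr ⟨h', haS⟩, Finset.mem_univ _⟩
  have hru : Helper83.DC.rk K u univ = r T - r S := by
    have := hrk univ
    rw [hmapuniv] at this
    omega
  obtain ⟨n, hn⟩ : ∃ n, r T - r S = n + 1 := ⟨r T - r S - 1, by omega⟩
  have hround : ∀ X : Finset {x // x ∈ T \ S}, Helper83.DC.rk K u X < n + 1 →
      Helper83.DC.rk K u Xᶜ = n + 1 := by
    intro X hX
    have h1 := hrk X
    have h2 := hrk Xᶜ
    have h3 : S ∪ (Xᶜ).map (Function.Embedding.subtype _) =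
        S ∪ (T \ (S ∪ X.map (Function.Embedding.subtype _))) := by
      ext a
      have e1 : a ∈ T \ (S ∪ X.map (Function.Embedding.subtype _)) ↔
          a ∈ T ∧ ¬ (a ∈ S ∨ ∃ h : a ∈ T \ S, (⟨a, h⟩ : {x // x ∈ T \ S}) ∈ X) := by
        rw [Finset.mem_sdiff, Finset.mem_union, mem_map_sub]
      rw [Finset.mem_union, Finset.mem_union, mem_map_sub, e1]
      constructor
      · rintro (h' | ⟨h', h''⟩)
        · exact Or.inl h'
        · rw [Finset.mem_compl] at h''
          refine Or.inr ⟨(Finset.mem_sdiff.mp h').1, ?_⟩
          rintro (h3 | ⟨h3, h4⟩)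
          · exact (Finset.mem_sdiff.mp h').2 h3
          · exact h'' h4
      · rintro (h' | ⟨h', h''⟩)
        · exact Or.inl h'
        · push Not at h''
          refine Or.inr ⟨Finset.mem_sdiff.mpr ⟨h', h''.1⟩, ?_⟩
          rw [Finset.mem_compl]
          exact h''.2 _
    rcases hR (S ∪ X.map (Function.Embedding.subtype _)) Finset.subset_union_left (by
      intro a ha
      rcases Finset.mem_union.mp ha with h' | h'
      · exact hST h'
      · exact (Finset.mem_sdiff.mp (hsubT X h')).1) with h4 | h4
    · omega
    · rw [← h3] at h4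
      omega
  have key := Helper83.DC.mu_le_rep (n := n) u (hru.trans hn) hround
  -- translate
  have hmu : Helper83.DC.muF (Helper83.DC.rk K u) univ (n + 1) =
      (-1 : ℤ) ^ (r T + r S) * w r S T := by
    unfold Helper83.DC.muF w
    rw [← sum_int S T hST]
    have hs : (-1 : ℤ) ^ (n + 1) = (-1 : ℤ) ^ (r T + r S) := by
      have : r T + r S = (n + 1) + 2 * r S := by omega
      rw [this, pow_add _ (n + 1) (2 * r S), pow_mul]
      simp
    rw [hs]
    congr 1
    rw [Finset.powerset_univ]
    apply Finset.sum_congr rfl
    intro X _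
    have h1 := hrk X
    by_cases h2 : Helper83.DC.rk K u X = n + 1
    · rw [if_pos h2, if_pos (by omega)]
      ring
    · rw [if_neg h2, if_neg (by omega)]
      ring
  have hne : S ≠ T := fun hh => by rw [hh] at hlt; omega
  have hbe : Helper83.DC.beF (Helper83.DC.rk K u) univ (n + 1) =
      (-1 : ℤ) ^ (r T + r S) * c r S T := by
    have h0 : c r S T = alt (fun X => (r X : ℤ) - r S) S T := by
      have h1 : alt (fun X => (r X : ℤ) - r S) S T =
          alt (fun X => (r X : ℤ)) S T - alt (fun _ => (r S : ℤ)) S T := by
        unfold alt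
        rw [← Finset.sum_sub_distrib]
        apply Finset.sum_congr rfl
        intro X _
        ring
      rw [h1, alt_const _ hST hne, sub_zero]
      rfl
    unfold Helper83.DC.beF
    rw [h0, ← sum_int S T hST]
    have hs : (-1 : ℤ) ^ (n + 1) = (-1 : ℤ) ^ (r T + r S) := by
      have : r T + r S = (n + 1) + 2 * r S := by omega
      rw [this, pow_add _ (n + 1) (2 * r S), pow_mul]
      simp
    rw [hs]
    congr 1
    rw [Finset.powerset_univ]
    apply Finset.sum_congr rfl
    intro X _
    rw [hrk X]
    push_cast
    ring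
  rw [hmu, hbe] at key
  unfold MUI
  have h5 : ((n : ℤ) + 1) = (r T : ℤ) - r S := by
    have : n + 1 + r S = r T := by omega
    rw [← this]; push_cast; ring
  rw [← h5]
  exact key

/-! ### Minors of rank at most two -/

theorem MUI_rank_one (h : RankFn r) {S T : Finset α} (hST : S ⊆ T) (h1 : r T = r S + 1) :
    MUI r S T := by
  have hne : S ≠ T := fun hh => by rw [hh] at h1; omega
  have hw : w r S T = c r S T := by
    have e1 : w r S T = alt (fun X => (r X : ℤ) - r S) S T := by
      unfold w
      apply alt_congr
      intro X hX1 hX2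
      have h2 := h.mono hX1
      have h3 := h.mono hX2
      by_cases h4 : r X = r T
      · rw [if_pos h4, h4, h1]; push_cast; ring
      · rw [if_neg h4]
        have : r X = r S := by omega
        rw [this]; ring
    have e2 : alt (fun X => (r X : ℤ) - r S) S T =
        alt (fun X => (r X : ℤ)) S T - alt (fun _ => (r S : ℤ)) S T := by
      unfold alt
      rw [← Finset.sum_sub_distrib]
      apply Finset.sum_congr rfl
      intro X _
      ring
    rw [e1, e2, alt_const _ hST hne, sub_zero]
    rfl
  unfold MUI
  rw [hw, h1]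
  push_cast
  linarith

/-- A minimally round minor has no loops. -/
theorem min_no_loop (h : RankFn r) {S T : Finset α} (hST : S ⊆ T) (hR : RoundI r S T)
    (hmin : ∀ e ∈ T \ S, ¬ (r (T.erase e) = r T ∧ RoundI r S (T.erase e))) {e : α}
    (he : e ∈ T \ S) : r (insert e S) = r S + 1 := by
  by_contra hcon
  have h1 := h.le_insert S e
  have h2 := h.insert_le S e
  have hloop : r (insert e S) = r S := by omega
  have heT := (Finset.mem_sdiff.mp he).1
  have heS := (Finset.mem_sdiff.mp he).2
  have hSe : S ⊆ T.erase e := fun x hx =>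
    Finset.mem_erase.mpr ⟨fun hh => heS (hh ▸ hx), hST hx⟩
  have hrk : r (T.erase e) = r T := by
    have := h.insert_eq_of_subset hSe hloop
    rw [Finset.insert_erase heT] at this
    exact this.symm
  refine hmin e he ⟨hrk, ?_⟩
  intro X hX1 hX2
  rw [hrk]
  rcases hR X hX1 (hX2.trans (Finset.erase_subset _ _)) with h3 | h3
  · exact Or.inl h3
  · right
    have h4 : insert e (S ∪ (T.erase e \ X)) = S ∪ (T \ X) := by
      ext x
      simp only [mem_insert, mem_union, mem_sdiff, mem_erase]
      by_cases hx : x = e
      · subst hx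
        have : x ∉ X := fun hh => (Finset.mem_erase.mp (hX2 hh)).1 rfl
        simp [heT, this]
      · simp [hx]
    rw [← h3, ← h4]
    exact (h.insert_eq_of_subset Finset.subset_union_left hloop).symm

/-- A minimally round minor has no parallel elements. -/
theorem min_no_parallel (h : RankFn r) {S T : Finset α} (hST : S ⊆ T) (hR : RoundI r S T)
    (hmin : ∀ e ∈ T \ S, ¬ (r (T.erase e) = r T ∧ RoundI r S (T.erase e))) {e f : α}
    (he : e ∈ T \ S) (hf : f ∈ T \ S) (hef : e ≠ f) :
    r (insert e (insert f S)) = r S + 2 := by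
  by_contra hcon
  have hf1 := min_no_loop h hST hR hmin hf
  have h1 := h.le_insert (insert f S) e
  have h2 := h.insert_le (insert f S) e
  have hloop : r (insert e (insert f S)) = r (insert f S) := by omega
  have heT := (Finset.mem_sdiff.mp he).1
  have heS := (Finset.mem_sdiff.mp he).2
  have hfT := (Finset.mem_sdiff.mp hf).1
  have hSe : insert f S ⊆ T.erase e := by
    intro x hx
    rcases Finset.mem_insert.mp hx with h' | h'
    · rw [h']; exact Finset.mem_erase.mpr ⟨hef.symm, hfT⟩
    · exact Finset.mem_erase.mpr ⟨fun hh => heS (hh ▸ h'), hST h'⟩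
  have hrk : r (T.erase e) = r T := by
    have := h.insert_eq_of_subset hSe hloop
    rw [Finset.insert_erase heT] at this
    exact this.symm
  refine hmin e he ⟨hrk, ?_⟩
  intro X hX1 hX2
  rw [hrk]
  have heX : e ∉ X := fun hh => (Finset.mem_erase.mp (hX2 hh)).1 rfl
  by_cases hfX : f ∈ X
  · have hsub : insert f S ⊆ X := by
      intro x hx
      rcases Finset.mem_insert.mp hx with h' | h'
      · rw [h']; exact hfX
      · exact hX1 h'
    have h4 := h.insert_eq_of_subset hsub hloop
    rcases hR (insert e X) (hX1.trans (Finset.subset_insert _ _)) (by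
      intro x hx
      rcases Finset.mem_insert.mp hx with h' | h'
      · rw [h']; exact heT
      · exact Finset.mem_of_mem_erase (hX2 h')) with h3 | h3
    · left
      rw [← h4]; exact h3
    · right
      have h5 : T \ insert e X = T.erase e \ X := by
        ext x
        simp only [mem_insert, mem_sdiff, mem_erase]
        tauto
      rw [← h5]; exact h3
  · rcases hR X hX1 (hX2.trans (Finset.erase_subset _ _)) with h3 | h3
    · exact Or.inl h3
    · right
      have h4 : insert e (S ∪ (T.erase e \ X)) = S ∪ (T \ X) := by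
        ext x
        simp only [mem_insert, mem_union, mem_sdiff, mem_erase]
        by_cases hx : x = e
        · subst hx
          simp [heT, heX]
        · simp [hx]
      rw [← h3, ← h4]
      refine (h.insert_eq_of_subset ?_ hloop).symm
      intro x hx
      rcases Finset.mem_insert.mp hx with h' | h'
      · rw [h']
        exact Finset.mem_union_right _ (Finset.mem_sdiff.mpr
          ⟨Finset.mem_erase.mpr ⟨hef.symm, hfT⟩, hfX⟩)
      · exact Finset.mem_union_left _ h'

theorem MUI_rank_two (h : RankFn r) {S T : Finset α} (hST : S ⊆ T) (h2 : r T = r S + 2)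
    (hR : RoundI r S T)
    (hmin : ∀ e ∈ T \ S, ¬ (r (T.erase e) = r T ∧ RoundI r S (T.erase e))) : MUI r S T := by
  have hne : S ≠ T := fun hh => by rw [hh] at h2; omega
  -- the rank is determined by the cardinality
  have hrk : ∀ Y : Finset α, Y ⊆ T \ S → r (S ∪ Y) = r S + min Y.card 2 := by
    intro Y hY
    rcases Nat.lt_or_ge Y.card 2 with hc | hc
    · rcases Nat.eq_zero_or_pos Y.card with hc0 | hc0
      · rw [Finset.card_eq_zero.mp hc0]; simp
      · obtain ⟨a, rfl⟩ := Finset.card_eq_one.mp (show Y.card = 1 by omega)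
        have h3 : S ∪ {a} = insert a S := by
          ext x; simp [or_comm]
        rw [h3, min_no_loop h hST hR hmin (hY (Finset.mem_singleton_self a))]
        simp
    · obtain ⟨a, ha, b, hb, hab⟩ := Finset.one_lt_card.mp (show 1 < Y.card by omega)
      have h3 : r (insert a (insert b S)) ≤ r (S ∪ Y) := by
        apply h.mono
        intro x hx
        rcases Finset.mem_insert.mp hx with h' | h'
        · rw [h']; exact Finset.mem_union_right _ ha
        · rcases Finset.mem_insert.mp h' with h'' | h''
          · rw [h'']; exact Finset.mem_union_right _ hb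
          · exact Finset.mem_union_left _ h''
      have h4 := min_no_parallel h hST hR hmin (hY ha) (hY hb) hab
      have h5 : r (S ∪ Y) ≤ r T := by
        apply h.mono
        intro x hx
        rcases Finset.mem_union.mp hx with h' | h'
        · exact hST h'
        · exact (Finset.mem_sdiff.mp (hY h')).1
      have h6 : min Y.card 2 = 2 := by omega
      omega
  set k := (T \ S).card with hk
  have hTk : r T = r S + min k 2 := by
    have := hrk (T \ S) (le_refl _)
    rwa [Finset.union_sdiff_of_subset hST] at this
  have hk3 : 3 ≤ k := by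
    by_contra hcon
    have hk2 : k = 2 := by omega
    obtain ⟨a, b, hab, hTS⟩ := Finset.card_eq_two.mp (hk ▸ hk2)
    have ha : a ∈ T \ S := by rw [hTS]; simp
    have hb : b ∈ T \ S := by rw [hTS]; simp
    have h3 := min_no_loop h hST hR hmin ha
    have h4 := min_no_loop h hST hR hmin hb
    rcases hR (insert a S) (Finset.subset_insert _ _) (by
      intro x hx
      rcases Finset.mem_insert.mp hx with h' | h'
      · rw [h']; exact (Finset.mem_sdiff.mp ha).1
      · exact hST h') with h5 | h5
    · omega
    · have h6 : S ∪ (T \ insert a S) = insert b S := by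
        ext x
        have hx := Finset.ext_iff.mp hTS x
        simp only [mem_union, mem_sdiff, mem_insert, mem_singleton] at hx ⊢
        have hba : b ≠ a := hab.symm
        constructor
        · rintro (h' | ⟨h', h''⟩)
          · exact Or.inr h'
          · push Not at h''
            rcases hx.mp ⟨h', h''.2⟩ with h3 | h3
            · exact absurd h3 h''.1
            · exact Or.inl h3
        · rintro (h' | h')
          · right
            have h7 := hx.mpr (Or.inr h')
            refine ⟨h7.1, ?_⟩
            rintro (h8 | h8)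
            · exact hba (h'.symm.trans h8)
            · exact h7.2 h8
          · exact Or.inl h'
      rw [h6] at h5
      omega
  -- the difference of the two sides
  have hD : 2 * c r S T - w r S T = (k : ℤ) - 3 := by
    have e0 : 2 * c r S T - w r S T =
        alt (fun X => 2 * ((r X : ℤ) - r S) - (if r X = r T then 1 else 0)) S T := by
      have e1 : alt (fun X => 2 * ((r X : ℤ) - r S) - (if r X = r T then 1 else 0)) S T =
          2 * alt (fun X => (r X : ℤ)) S T - 2 * alt (fun _ => (r S : ℤ)) S T -
            alt (fun X => if r X = r T then 1 else 0) S T := by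
        unfold alt
        rw [Finset.mul_sum, Finset.mul_sum, ← Finset.sum_sub_distrib, ← Finset.sum_sub_distrib]
        apply Finset.sum_congr rfl
        intro X _
        ring
      rw [e1, alt_const _ hST hne]
      unfold w
      rw [c_eq_alt]
      ring
    rw [e0, ← sum_int S T hST]
    have e2 : ∀ X : Finset {x // x ∈ T \ S},
        (-1 : ℤ) ^ X.card * (2 * ((r (S ∪ X.map (Function.Embedding.subtype _)) : ℤ) - r S) -
          (if r (S ∪ X.map (Function.Embedding.subtype _)) = r T then 1 else 0)) =
        (fun m : ℕ => (-1 : ℤ) ^ m * 3 - (if m = 0 then 3 else 0) + (if m = 1 then 1 else 0))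
          X.card := by
      intro X
      have hsub : X.map (Function.Embedding.subtype _) ⊆ T \ S := by
        intro a ha
        exact (mem_map_sub.mp ha).1
      rw [hrk _ hsub, Finset.card_map, h2]
      beta_reduce
      rcases Nat.lt_or_ge X.card 2 with hc | hc
      · rcases Nat.eq_zero_or_pos X.card with hc0 | hc0
        · rw [hc0]; simp
        · have hc1 : X.card = 1 := by omega
          rw [hc1]
          norm_num
      · have hm : min X.card 2 = 2 := by omega
        rw [hm, if_pos rfl, if_neg (by omega), if_neg (by omega)]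
        push_cast
        ring
    rw [Finset.sum_congr rfl fun X _ => e2 X, ← Finset.powerset_univ,
      Finset.sum_powerset_apply_card (fun m : ℕ => (-1 : ℤ) ^ m * 3 - (if m = 0 then 3 else 0) +
        (if m = 1 then 1 else 0))]
    have hcard : (univ : Finset {x // x ∈ T \ S}).card = k := by
      rw [Finset.card_univ, Fintype.card_coe]
    rw [hcard]
    have e3 : ∀ m ∈ range (k + 1), k.choose m •
        ((-1 : ℤ) ^ m * 3 - (if m = 0 then 3 else 0) + (if m = 1 then 1 else 0)) =
        3 * ((-1 : ℤ) ^ m * k.choose m) - (if m = 0 then 3 else 0) + (if m = 1 then (k : ℤ) else 0) := by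
      intro m _
      rw [nsmul_eq_mul]
      by_cases h0 : m = 0
      · subst h0; simp
      · by_cases h1 : m = 1
        · subst h1; simp; ring
        · rw [if_neg h0, if_neg h1, if_neg h1]; ring
    rw [Finset.sum_congr rfl e3, Finset.sum_add_distrib, Finset.sum_sub_distrib, ← Finset.mul_sum,
      Int.alternating_sum_range_choose, if_neg (by omega), Finset.sum_ite_eq', Finset.sum_ite_eq',
      if_pos (Finset.mem_range.2 (by omega)), if_pos (Finset.mem_range.2 (by omega))]
    ring
  unfold MUI
  have hs : (-1 : ℤ) ^ (r T + r S) = 1 := by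
    have : r T + r S = 2 * (r S + 1) := by omega
    rw [this, pow_mul]; simp
  rw [hs, h2]
  push_cast
  have : (3 : ℤ) ≤ k := by exact_mod_cast hk3
  linarith

/-- Minors of representable rank functions are representable. -/
theorem repI_of_rep {K : Type} [Field K] {V : Type} [AddCommGroup V] [Module K V]
    (v : α → V)
    (hv : ∀ X : Finset α, r X = Module.finrank K (Submodule.span K (v '' (X : Set α))))
    (S T : Finset α) : RepI r S T := by
  set L := Submodule.span K (v '' (S : Set α)) with hL
  refine ⟨K, inferInstance, V ⧸ L, inferInstance, inferInstance, fun x => L.mkQ (v x), ?_⟩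
  intro X _
  rw [hv (S ∪ X), hv S]
  set P := Submodule.span K (v '' ((S ∪ X : Finset α) : Set α)) with hP
  have hfin : FiniteDimensional K P :=
    FiniteDimensional.span_of_finite K ((Finset.finite_toSet _).image v)
  have hLP : L ≤ P := by
    apply Submodule.span_mono
    apply Set.image_mono
    exact_mod_cast Finset.subset_union_left
  have h1 := (L.mkQ.domRestrict P).finrank_range_add_finrank_ker
  have h2 : LinearMap.range (L.mkQ.domRestrict P)
      = Submodule.span K ((fun x => L.mkQ (v x)) '' (X : Set α)) := by
    rw [LinearMap.range_domRestrict, hP, Submodule.map_span, Finset.coe_union, Set.image_union,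
      Set.image_union, Submodule.span_union]
    have h3 : Submodule.span K (L.mkQ '' (v '' (S : Set α))) = ⊥ := by
      rw [← Submodule.map_span, ← hL]
      exact LinearMap.le_ker_iff_map.1 (by rw [Submodule.ker_mkQ])
    rw [h3, bot_sup_eq, ← Set.image_comp]
    rfl
  have h3 : Module.finrank K (LinearMap.ker (L.mkQ.domRestrict P)) = Module.finrank K L := by
    have h4 : LinearMap.ker (L.mkQ.domRestrict P) = L.comap P.subtype := by
      rw [LinearMap.ker_domRestrict, Submodule.ker_mkQ]
    rw [h4, (Submodule.comapSubtypeEquivOfLe hLP).finrank_eq]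
  rw [h2, h3] at h1
  rw [← h1, add_comm]

/-- The rank function of a representable matroid. -/
theorem rank_eq_finrank_rep {M : Matroid α} (hr : IsRank M r) {K : Type} [Field K] {V : Type}
    [AddCommGroup V] [Module K V] (v : α → V)
    (hv : ∀ I : Finset α, M.Indep (I : Set α) ↔ LinearIndepOn K v (I : Set α)) (X : Finset α) :
    r X = Module.finrank K (Submodule.span K (v '' (X : Set α))) := by
  classical
  obtain ⟨⟨I, hIX, hI, hIc⟩, hmax⟩ := hr X
  have hli := (hv I).1 hI
  have h1 : Submodule.span K (v '' (I : Set α)) = Submodule.span K (v '' (X : Set α)) := by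
    apply le_antisymm
    · apply Submodule.span_mono
      apply Set.image_mono
      exact_mod_cast hIX
    · rw [Submodule.span_le]
      rintro _ ⟨x, hx, rfl⟩
      by_contra hnot
      have hxI : x ∉ I := by
        intro hh
        exact hnot (Submodule.subset_span ⟨x, by exact_mod_cast hh, rfl⟩)
      have h2 : LinearIndepOn K v ((insert x I : Finset α) : Set α) := by
        rw [Finset.coe_insert]
        exact hli.insert hnot
      have h3 := hmax ⟨insert x I, by
        intro y hy
        rcases Finset.mem_insert.mp hy with h' | h'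
        · rw [h']; exact_mod_cast hx
        · exact hIX h', (hv _).2 h2, rfl⟩
      rw [Finset.card_insert_of_notMem hxI] at h3
      omega
  rw [← h1, ← hIc]
  have h2 := finrank_span_set_eq_card (R := K) (s := v '' (I : Set α)) hli.id_image
  rw [h2, Set.toFinset_card]
  have h3 : Fintype.card (v '' (I : Set α)) = Nat.card (v '' (I : Set α)) := by
    rw [Nat.card_eq_fintype_card]
  rw [h3, Nat.card_image_of_injOn hli.injOn]
  simp

/-! ### The target question -/

theorem round_compl {β : Type} [Fintype β] [DecidableEq β] {ρ : Finset β → ℕ} (h : RankFn ρ)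
    (hR : Round ρ) (X : Finset β) : ρ X = ρ univ ∨ ρ Xᶜ = ρ univ := by
  by_contra hcon
  push Not at hcon
  apply hR (cl ρ X) (cl ρ Xᶜ) (h.cl_flat X) (h.cl_flat Xᶜ)
  · intro hh
    have := h.cl_rank X
    rw [hh] at this
    exact hcon.1 this.symm
  · intro hh
    have := h.cl_rank Xᶜ
    rw [hh] at this
    exact hcon.2 this.symm
  · rw [Finset.eq_univ_iff_forall]
    intro x
    rw [Finset.mem_union]
    by_cases hx : x ∈ X
    · exact Or.inl (subset_cl ρ X hx)
    · exact Or.inr (subset_cl ρ Xᶜ (Finset.mem_compl.2 hx))

theorem roundI_del (h : RankFn r) {e : α} (hR : Round (del r {e})) :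
    RoundI r ∅ ({e} : Finset α)ᶜ := by
  intro X _ hX
  have h1 := round_compl (del_rankFn h {e}) hR (X.subtype (fun a => a ∉ ({e} : Finset α)))
  rw [del_univ] at h1
  have h2 : (X.subtype (fun a => a ∉ ({e} : Finset α))).map (Function.Embedding.subtype _) = X := by
    ext a
    rw [mem_dn]
    constructor
    · rintro ⟨_, h'⟩
      rw [Finset.mem_subtype] at h'; exact h'
    · intro h'
      exact ⟨Finset.mem_compl.mp (hX h'), by rw [Finset.mem_subtype]; exact h'⟩
  have h3 : ((X.subtype (fun a => a ∉ ({e} : Finset α)))ᶜ).map (Function.Embedding.subtype _) =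
      ∅ ∪ (({e} : Finset α)ᶜ \ X) := by
    ext a
    rw [mem_dn, Finset.empty_union, Finset.mem_sdiff, Finset.mem_compl]
    constructor
    · rintro ⟨h', h''⟩
      rw [Finset.mem_compl, Finset.mem_subtype] at h''
      exact ⟨h', h''⟩
    · rintro ⟨h', h''⟩
      refine ⟨h', ?_⟩
      rw [Finset.mem_compl, Finset.mem_subtype]
      exact h''
  rcases h1 with h1 | h1
  · left
    unfold del at h1
    rw [h2] at h1
    exact h1
  · right
    unfold del at h1
    rw [h3] at h1
    exact h1

theorem MU_del_of_MUI {e : α} (h1 : r ∅ = 0) (h : MUI r ∅ ({e} : Finset α)ᶜ) :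
    MU (del r {e}) := by
  unfold MU
  unfold MUI at h
  rw [mu0_del, be_del, del_univ]
  rw [h1] at h
  simpa using h

theorem MU_contr_of_MUI (hr : RankFn r) {e : α} (hu : ({e} : Finset α) ≠ univ)
    (h : MUI r {e} univ) : MU (contr r {e}) := by
  unfold MU
  unfold MUI at h
  rw [mu0_contr hr, be_contr hr hu, contr_univ]
  have h1 : r {e} ≤ r univ := hr.mono (Finset.subset_univ _)
  have hs : (-1 : ℤ) ^ (r univ - r {e}) = (-1 : ℤ) ^ (r univ + r {e}) := by
    have : r univ + r {e} = (r univ - r {e}) + 2 * r {e} := by omega
    rw [this, pow_add _ (r univ - r {e}) (2 * r {e}), pow_mul]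
    simp
  rw [hs]
  have h2 : ((r univ - r {e} : ℕ) : ℤ) = (r univ : ℤ) - r {e} := by
    push_cast [h1]; ring
  rw [h2]
  exact h

/-- The target question when all minimally round minors satisfy the inequality. -/
theorem isKn_of_MUI_min {M : Matroid α} (n : ℕ) (hE : M.E = Set.univ)
    (hp : ∀ a b : α, M.Indep ({a, b} : Set α)) (hr : IsRank M r)
    (hround : ¬ ∃ F₁ F₂ : Finset α,
          (∀ e, e ∉ F₁ → r F₁ < r (insert e F₁)) ∧
          (∀ e, e ∉ F₂ → r F₂ < r (insert e F₂)) ∧
          F₁ ≠ Finset.univ ∧ F₂ ≠ Finset.univ ∧ F₁ ∪ F₂ = Finset.univ)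
    (hchi : chiPoly r = ffp n)
    (hyp : ∀ S T, S ⊆ T → (S.Nonempty ∨ T ≠ univ) → r S < r T → RoundI r S T →
      (∀ e ∈ T \ S, ¬ (r (T.erase e) = r T ∧ RoundI r S (T.erase e))) → MUI r S T) :
    IsKn M n := by
  have hrk := hr.rankFn
  have hR : Round r := fun F₁ F₂ h1 h2 h3 h4 h5 => hround ⟨F₁, F₂, h1, h2, h3, h4, h5⟩
  have hall := MUI_of_min hrk hyp
  have g := geo_of_hyps hp hr hround hchi
  have hRI : RoundI r ∅ univ := by
    intro X _ _
    rcases round_compl hrk hR X with h1 | h1
    · exact Or.inl h1
    · right
      rw [Finset.empty_union, ← Finset.compl_eq_univ_sdiff]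
      exact h1
  have hu : 2 ≤ n → ∀ e : α, ({e} : Finset α) ≠ univ := by
    intro hn e hh
    have h3 := g.univ_eq
    rw [← hh, g.single e] at h3
    omega
  refine isKn_of_MU n hE hp hr hround hchi ?_ ?_
  · intro hn e hRd
    apply MU_del_of_MUI hrk.empty
    refine hall _ ∅ _ (Finset.empty_subset _) (Or.inr fun hh => ?_) rfl ?_ (roundI_del hrk hRd)
    · have := Finset.mem_univ e
      rw [← hh, Finset.mem_compl, Finset.mem_singleton] at this
      exact this rfl
    obtain ⟨m, rfl⟩ : ∃ m, n = m + 2 := ⟨n - 2, by omega⟩
    rw [hrk.empty, g.compl_rank _ (hu hn e)]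
    · omega
    · intro x hx
      rw [g.single e]
      have : (insert x ({e} : Finset α)) = {x, e} := rfl
      rw [this, g.pair x e (by simpa using hx)]
      norm_num
  · intro hn e
    apply MU_contr_of_MUI hrk (hu hn e)
    refine hall _ {e} _ (Finset.subset_univ _) (Or.inl ⟨e, Finset.mem_singleton_self e⟩) rfl ?_ ?_
    · rw [g.univ_eq, g.single e]
      omega
    · have := RoundI.insert_of hrk hRI (e := e)
      simpa using this

end Pool.Agent.Helper46.FF
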