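import Pool.Agent.Helper46.FF.Lines

set_option autoImplicit false
set_option linter.unusedSectionVars false
set_option linter.unusedSimpArgs false
set_option linter.deprecated false

namespace Pool.Agent.Helper46.FF

open Finset

variable {α : Type} [Fintype α] [DecidableEq α] {r : Finset α → ℕ} {m n : ℕ}

theorem rank_two_of_card_two (g : Geo r n) {X : Finset α} (hX : X.card = 2) : r X = 2 := by
  obtain ⟨a, b, hab, rfl⟩ := Finset.card_eq_two.mp hX
  exact g.pair a b hab

theorem rank_two_iff (g : Geo r (m + 2)) (hL : ∀ X : Finset α, r X ≤ 2 → X.card ≤ 3)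
    (X : Finset α) : r X = 2 ↔ (X.card = 2 ∨ X ∈ triples r) := by
  constructor
  · intro h
    have h1 := hL X h.le
    have h2 := g.rk.le_card X
    rw [mem_triples]
    have : X.card = 2 ∨ X.card = 3 := by omega
    rcases this with h3 | h3
    · exact Or.inl h3
    · exact Or.inr ⟨h3, h⟩
  · rintro (h | h)
    · exact rank_two_of_card_two g h
    · exact (mem_triples.mp h).2

theorem triples_card (g : Geo r (m + 2)) (hchi : chiPoly r = ffp (m + 2))
    (hL : ∀ X : Finset α, r X ≤ 2 → X.card ≤ 3) :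
    6 * ((triples r).card : ℤ) = ((m : ℤ) + 1) * ((m : ℤ) + 2) * ((m : ℤ) + 3) := by
  have h1 := chiPoly_coeff r m
  have h2 := ffp_coeff_two m
  rw [hchi] at h1
  have h3 : ∑ X ∈ (univ : Finset (Finset α)).filter (fun X => r univ - r X = m), (-1 : ℤ) ^ X.card
      = ((Fintype.card α).choose 2 : ℤ) - ((triples r).card : ℤ) := by
    have h4 : (univ : Finset (Finset α)).filter (fun X => r univ - r X = m)
        = (univ : Finset α).powersetCard 2 ∪ triples r := by
      ext X
      simp only [mem_filter, mem_univ, true_and, Finset.mem_union, Finset.mem_powersetCard,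
        Finset.subset_univ]
      rw [← rank_two_iff g hL X, g.univ_eq]
      have : r X ≤ m + 2 := by
        rw [← g.univ_eq]; exact g.rk.mono (Finset.subset_univ _)
      omega
    have hdis : Disjoint ((univ : Finset α).powersetCard 2) (triples r) := by
      rw [Finset.disjoint_left]
      intro X hX hX'
      have h5 := (Finset.mem_powersetCard.mp hX).2
      have h6 := (mem_triples.mp hX').1
      omega
    rw [h4, Finset.sum_union hdis]
    have h5 : ∀ X ∈ (univ : Finset α).powersetCard 2, (-1 : ℤ) ^ X.card = 1 := by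
      intro X hX
      rw [(Finset.mem_powersetCard.mp hX).2]; norm_num
    have h6 : ∀ X ∈ triples r, (-1 : ℤ) ^ X.card = -1 := by
      intro X hX
      rw [(mem_triples.mp hX).1]; norm_num
    rw [Finset.sum_congr rfl h5, Finset.sum_congr rfl h6]
    simp only [Finset.sum_const, Finset.card_powersetCard, Finset.card_univ, nsmul_eq_mul]
    ring
  rw [h3] at h1
  rw [h1] at h2
  have h4 := card_univ_eq g hchi
  have h5 : 2 * ((Fintype.card α).choose 2 : ℤ)
      = (Fintype.card α : ℤ) * ((Fintype.card α : ℤ) - 1) := by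
    have h6 := Nat.choose_two_right (Fintype.card α)
    have h7 : 2 ∣ Fintype.card α * (Fintype.card α - 1) := (Nat.even_mul_pred_self _).two_dvd
    have h8 : 2 * (Fintype.card α).choose 2 = Fintype.card α * (Fintype.card α - 1) := by
      rw [h6]; exact Nat.mul_div_cancel' h7
    rcases Nat.eq_zero_or_pos (Fintype.card α) with h9 | h9
    · rw [h9]; simp
    · have h10 : ((Fintype.card α - 1 : ℕ) : ℤ) = (Fintype.card α : ℤ) - 1 := by
        push_cast [Nat.cast_sub h9]; ring
      rw [← h10]
      exact_mod_cast h8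
  -- 24 (C(M,2) - tau) = (m+1)(m+2)(m+3)(3m+8), 2M = (m+2)(m+3)
  set M : ℤ := (Fintype.card α : ℤ) with hM
  set t : ℤ := ((triples r).card : ℤ) with ht
  set C2 : ℤ := ((Fintype.card α).choose 2 : ℤ) with hC2
  have h9 : 24 * C2 = 3 * (((m : ℤ) + 2) * ((m : ℤ) + 3)) * (((m : ℤ) + 2) * ((m : ℤ) + 3) - 2) := by
    have : 24 * C2 = 3 * (2 * M) * (2 * M - 2) := by linear_combination 12 * h5
    rw [this, h4]
  have h10 : 24 * t = 4 * (((m : ℤ) + 1) * ((m : ℤ) + 2) * ((m : ℤ) + 3)) := by
    linear_combination h9 - h2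
  linarith

theorem sum_triplesAt_card :
    ∑ e : α, (triplesAt r e).card = 3 * (triples r).card := by
  have h1 : ∀ e : α, (triplesAt r e).card = ∑ X ∈ triples r, if e ∈ X then 1 else 0 := by
    intro e
    unfold triplesAt
    rw [Finset.card_filter]
  rw [Finset.sum_congr rfl (fun e _ => h1 e), Finset.sum_comm]
  have h2 : ∀ X ∈ triples r, ∑ e : α, (if e ∈ X then 1 else 0) = 3 := by
    intro X hX
    rw [← (mem_triples.mp hX).1, Finset.card_eq_sum_ones, Finset.sum_ite_mem]
    simp
  rw [Finset.sum_congr rfl h2]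
  simp [mul_comm]

theorem triplesAt_card_of_le (g : Geo r (m + 2)) (hchi : chiPoly r = ffp (m + 2))
    (hL : ∀ X : Finset α, r X ≤ 2 → X.card ≤ 3)
    (hle : ∀ x : α, (triplesAt r x).card ≤ m + 1) (e : α) :
    (triplesAt r e).card = m + 1 := by
  have h1 := sum_triplesAt_card (r := r)
  have h2 := triples_card g hchi hL
  have h3 := card_univ_eq g hchi
  have h4 : ((3 * (triples r).card : ℕ) : ℤ) = ((m : ℤ) + 1) * (Fintype.card α : ℤ) := by
    push_cast
    have : 2 * (3 * ((triples r).card : ℤ)) = 2 * (((m : ℤ) + 1) * (Fintype.card α : ℤ)) := by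
      linear_combination h2 - ((m : ℤ) + 1) * h3
    linarith
  have h5 : ∑ x : α, (triplesAt r x).card = ∑ _x : α, (m + 1) := by
    rw [h1]
    simp only [Finset.sum_const, Finset.card_univ, smul_eq_mul]
    have h6 : ((3 * (triples r).card : ℕ) : ℤ) = ((Fintype.card α * (m + 1) : ℕ) : ℤ) := by
      rw [h4]; push_cast; ring
    exact_mod_cast h6
  exact (Finset.sum_eq_sum_iff_of_le (fun x _ => hle x)).mp h5 e (Finset.mem_univ e)

theorem triplesAt_card (g : Geo r (m + 2)) (hchi : chiPoly r = ffp (m + 2))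
    (hB : AllBC r (m + 2)) (e : α) : (triplesAt r e).card = m + 1 := by
  apply triplesAt_card_of_le g hchi (line_card_le g hB)
  intro x
  obtain ⟨F, hF, hx⟩ := hB x
  have := triplesAt_card_le g hF hx
  simpa using this

/-- For a basis complement `F`, any two elements of `Fᶜ` are collinear with an element of `F`. -/
theorem exists_third (g : Geo r (m + 2)) (hchi : chiPoly r = ffp (m + 2)) (hB : AllBC r (m + 2))
    {F : Finset α} (hF : BC r (m + 2) F) {a b : α} (ha : a ∉ F) (hb : b ∉ F) (hab : a ≠ b) :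
    ∃ p ∈ F, r {a, b, p} ≤ 2 := by
  classical
  have h1 := triplesAt_card g hchi hB a
  have h2 : (Fᶜ.erase a).card = m + 1 := by
    rw [Finset.card_erase_of_mem (Finset.mem_compl.mpr ha), hF.card]; rfl
  -- the injection from triples at `a` to `Fᶜ \ a` is onto
  have hstr : ∀ X : {X // X ∈ triplesAt r a}, ∃ x p, x ∉ F ∧ p ∈ F ∧ x ≠ a ∧ X.1 = {a, x, p} :=
    fun X => triple_structure g hF X.2 ha
  choose fx fp hx hp hxa hXe using hstr
  let φ : {X // X ∈ triplesAt r a} → {x // x ∈ Fᶜ.erase a} :=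
    fun X => ⟨fx X, Finset.mem_erase.mpr ⟨hxa X, Finset.mem_compl.mpr (hx X)⟩⟩
  have hinj : Function.Injective φ := by
    intro X Y hXY
    have h3 : fx X = fx Y := congrArg Subtype.val hXY
    apply Subtype.ext
    rw [hXe X, hXe Y]
    have h4 : r {a, fx X, fp X} ≤ 2 := by
      rw [← hXe X]; exact (mem_triplesAt.mp X.2).1.2.le
    have h5 : r {a, fx X, fp Y} ≤ 2 := by
      rw [h3, ← hXe Y]; exact (mem_triplesAt.mp Y.2).1.2.le
    rw [triple_inj g hF ha (hxa X) (hp X) (hp Y) h4 h5, h3]
  have hbij : Function.Bijective φ := by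
    rw [Fintype.bijective_iff_injective_and_card]
    refine ⟨hinj, ?_⟩
    rw [Fintype.card_coe, Fintype.card_coe, h1, h2]
  obtain ⟨X, hX⟩ := hbij.2 ⟨b, Finset.mem_erase.mpr ⟨Ne.symm hab, Finset.mem_compl.mpr hb⟩⟩
  have h3 : fx X = b := congrArg Subtype.val hX
  refine ⟨fp X, hp X, ?_⟩
  have h4 : r {a, fx X, fp X} ≤ 2 := by
    rw [← hXe X]; exact (mem_triplesAt.mp X.2).1.2.le
  rwa [h3] at h4

end Pool.Agent.Helper46.FF
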